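import Pool.Agent.W5h40.NH.Defs

/-!
# The area obstruction to strong pluripotency
-/

open Set Filter Topology MeasureTheory

namespace Pool.Agent.W5h40.NH

variable {b : Module.Basis (Fin 2) ℝ V} {r : ℕ}

instance (b : Module.Basis (Fin 2) ℝ V) : DiscreteTopology (Lat b) :=
  inferInstanceAs (DiscreteTopology (Submodule.span ℤ (Set.range b)))

instance (b : Module.Basis (Fin 2) ℝ V) : Countable (Lat b) :=
  inferInstanceAs (Countable (Submodule.span ℤ (Set.range b)))

lemma exists_red (b : Module.Basis (Fin 2) ℝ V) :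
    ∃ R : ℝ, 0 < R ∧ ∀ z : V, ∃ γ ∈ Lat b, ‖z - γ‖ ≤ R := by
  refine ⟨∑ i, ‖b i‖ + 1, by positivity, fun z => ⟨ZSpan.floor b z, ?_, ?_⟩⟩
  · exact (ZSpan.floor b z).2
  · have := ZSpan.norm_fract_le b z
    unfold ZSpan.fract at this
    linarith

lemma Lat_nonempty (b : Module.Basis (Fin 2) ℝ V) : (Lat b : Set V).Nonempty := ⟨0, zero_mem _⟩

lemma dT_lt {z w : V} {δ : ℝ} (h : dT b z w < δ) : ∃ γ ∈ Lat b, ‖z - w - γ‖ < δ := by
  obtain ⟨γ, hγ, h⟩ := (Metric.infDist_lt_iff (Lat_nonempty b)).1 h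
  exact ⟨γ, hγ, by rwa [dist_eq_norm] at h⟩

lemma dT_le {z w : V} {γ : V} (hγ : γ ∈ Lat b) : dT b z w ≤ ‖z - w - γ‖ := by
  rw [← dist_eq_norm]
  exact Metric.infDist_le_dist_of_mem hγ

lemma dT_nonneg (z w : V) : 0 ≤ dT b z w := Metric.infDist_nonneg

lemma dT_bound (b : Module.Basis (Fin 2) ℝ V) : ∃ R : ℝ, 0 < R ∧ ∀ z w : V, dT b z w ≤ R := by
  obtain ⟨R, hR, h⟩ := exists_red b
  refine ⟨R, hR, fun z w => ?_⟩
  obtain ⟨γ, hγ, h⟩ := h (z - w)
  exact (dT_le hγ).trans h

lemma TorusDiffeo.inj (g : TorusDiffeo b r) : Function.Injective g.toFun :=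
  Function.LeftInverse.injective g.left_inv

lemma iter_lattice (g : TorusDiffeo b r) (n : ℕ) (z : V) {γ : V} (hγ : γ ∈ Lat b) :
    g.toFun^[n] (z + γ) - g.toFun^[n] z ∈ Lat b := by
  induction n generalizing z γ with
  | zero => simpa using hγ
  | succ n ih =>
    rw [Function.iterate_succ_apply, Function.iterate_succ_apply]
    have h := ih (g.toFun z) (g.lattice z γ hγ)
    rwa [add_sub_cancel] at h

lemma iter_inv_lattice (g : TorusDiffeo b r) (n : ℕ) (z : V) {γ : V} (hγ : γ ∈ Lat b) :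
    g.inv^[n] (z + γ) - g.inv^[n] z ∈ Lat b := by
  induction n generalizing z γ with
  | zero => simpa using hγ
  | succ n ih =>
    rw [Function.iterate_succ_apply, Function.iterate_succ_apply]
    have h := ih (g.inv z) (g.lattice_inv z γ hγ)
    rwa [add_sub_cancel] at h

lemma iter_left_inv (g : TorusDiffeo b r) (n : ℕ) (z : V) :
    g.inv^[n] (g.toFun^[n] z) = z :=
  Function.LeftInverse.iterate g.left_inv n z

lemma iter_right_inv (g : TorusDiffeo b r) (n : ℕ) (z : V) :
    g.toFun^[n] (g.inv^[n] z) = z :=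
  Function.LeftInverse.iterate g.right_inv n z

/-- The inverse diffeomorphism. -/
def TorusDiffeo.symm (g : TorusDiffeo b r) : TorusDiffeo b r where
  toFun := g.inv
  inv := g.toFun
  left_inv := g.right_inv
  right_inv := g.left_inv
  smooth := g.smooth_inv
  smooth_inv := g.smooth
  lattice := g.lattice_inv
  lattice_inv := g.lattice

lemma exists_const (g : TorusDiffeo b r) {γ : V} (hγ : γ ∈ Lat b) :
    ∃ κ ∈ Lat b, ∀ z, g.toFun (z + γ) = g.toFun z + κ := by
  have hc : Continuous g.toFun := g.smooth.continuous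
  let h : V → Lat b := fun z => ⟨g.toFun (z + γ) - g.toFun z, g.lattice z γ hγ⟩
  have hh : Continuous h := by
    refine Continuous.subtype_mk ?_ _
    exact (hc.comp (continuous_id.add continuous_const)).sub hc
  refine ⟨h 0, (h 0).2, fun z => ?_⟩
  have e : h z = h 0 := PreconnectedSpace.constant inferInstance hh
  have e2 := congrArg (Subtype.val) e
  simp only [h] at e2 ⊢
  rw [← e2]; abel

lemma fderiv_lattice (g : TorusDiffeo b r) {γ : V} (hγ : γ ∈ Lat b) (z : V) :
    fderiv ℝ g.toFun (z + γ) = fderiv ℝ g.toFun z := by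
  obtain ⟨κ, -, h⟩ := exists_const g hγ
  rw [← fderiv_comp_add_right]
  have : (fun x => g.toFun (x + γ)) = fun x => g.toFun x + κ := funext h
  rw [this, fderiv_add_const]

/-- Continuous lattice periodic functions are bounded and uniformly continuous. -/
lemma periodic_uc {F : V → ℝ} (hF : Continuous F) (hp : ∀ z, ∀ γ ∈ Lat b, F (z + γ) = F z) :
    (∃ B, 0 < B ∧ ∀ z, |F z| ≤ B) ∧
    ∀ c > 0, ∃ δ > 0, ∀ z w, dT b z w < δ → |F z - F w| < c := by
  obtain ⟨R, hR, hred⟩ := exists_red b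
  have hK : IsCompact (Metric.closedBall (0 : V) R) := isCompact_closedBall 0 R
  have hred' : ∀ z : V, ∃ γ ∈ Lat b, z + γ ∈ Metric.closedBall (0 : V) R := by
    intro z
    obtain ⟨γ, hγ, h⟩ := hred z
    exact ⟨-γ, neg_mem hγ, by rw [mem_closedBall_zero_iff]; rwa [← sub_eq_add_neg]⟩
  constructor
  · obtain ⟨B, hB⟩ := hK.exists_bound_of_continuousOn hF.continuousOn
    refine ⟨max B 1, lt_of_lt_of_le one_pos (le_max_right _ _), fun z => ?_⟩
    obtain ⟨γ, hγ, h⟩ := hred' z
    rw [← hp z γ hγ, ← Real.norm_eq_abs]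
    exact (hB _ h).trans (le_max_left _ _)
  · intro c hc
    have hmem := hK.uniformContinuousAt_of_continuousAt F (fun a _ => hF.continuousAt)
      (Metric.dist_mem_uniformity hc)
    obtain ⟨δ, hδ, h⟩ := Metric.mem_uniformity_dist.1 hmem
    refine ⟨δ, hδ, fun z w hzw => ?_⟩
    obtain ⟨γ, hγ, h1⟩ := dT_lt hzw
    obtain ⟨κ, hκ, h2⟩ := hred' z
    have e1 : F z = F (z + κ) := (hp z κ hκ).symm
    have e2 : F w = F (w + (γ + κ)) := (hp w _ (add_mem hγ hκ)).symm
    rw [e1, e2, ← Real.dist_eq]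
    have h3 := h (a := z + κ) (b := w + (γ + κ)) (by
      rw [dist_eq_norm]
      have : z + κ - (w + (γ + κ)) = z - w - γ := by abel
      rwa [this])
    exact h3 h2

lemma diff_toFun (g : TorusDiffeo b r) (hr : 1 ≤ r) : Differentiable ℝ g.toFun :=
  g.smooth.differentiable (by
    intro h
    have : (r : WithTop ℕ∞) = 0 := h
    have h2 : r = 0 := by exact_mod_cast this
    omega)

lemma cont_fderiv (g : TorusDiffeo b r) (hr : 1 ≤ r) : Continuous (fderiv ℝ g.toFun) :=
  g.smooth.continuous_fderiv (by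
    intro h
    have : (r : WithTop ℕ∞) = 0 := h
    have h2 : r = 0 := by exact_mod_cast this
    omega)

lemma fderiv_inv_comp (g : TorusDiffeo b r) (hr : 1 ≤ r) (z : V) :
    (fderiv ℝ g.inv (g.toFun z)).comp (fderiv ℝ g.toFun z) = ContinuousLinearMap.id ℝ V := by
  have h1 : fderiv ℝ (g.inv ∘ g.toFun) z =
      (fderiv ℝ g.inv (g.toFun z)).comp (fderiv ℝ g.toFun z) :=
    fderiv_comp z ((diff_toFun g.symm hr) _) ((diff_toFun g hr) _)
  rw [← h1]
  have : g.inv ∘ g.toFun = id := funext g.left_inv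
  rw [this, fderiv_id]

lemma det_ne (g : TorusDiffeo b r) (hr : 1 ≤ r) (z : V) : (fderiv ℝ g.toFun z).det ≠ 0 := by
  have h := fderiv_inv_comp g hr z
  have h2 := congrArg ContinuousLinearMap.det h
  have h3 : ((fderiv ℝ g.inv (g.toFun z)).comp (fderiv ℝ g.toFun z)).det =
      (fderiv ℝ g.inv (g.toFun z)).det * (fderiv ℝ g.toFun z).det := by
    simp only [ContinuousLinearMap.det, ContinuousLinearMap.toLinearMap_comp]
    exact LinearMap.det_comp _ _
  rw [h3] at h2
  intro h0
  rw [h0, mul_zero] at h2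
  have h4 : (ContinuousLinearMap.id ℝ V).det = 1 := by
    simp [ContinuousLinearMap.det]
  rw [h4] at h2
  norm_num at h2

lemma cont_det : Continuous (fun L : V →L[ℝ] V => L.det) := ContinuousLinearMap.continuous_det

/-- The logarithm of the Jacobian. -/
noncomputable def lj (g : TorusDiffeo b r) (z : V) : ℝ := Real.log |(fderiv ℝ g.toFun z).det|

lemma lj_cont (g : TorusDiffeo b r) (hr : 1 ≤ r) : Continuous (lj g) := by
  unfold lj
  refine Continuous.log ?_ ?_
  · exact (cont_det.comp (cont_fderiv g hr)).abs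
  · intro z; exact abs_ne_zero.2 (det_ne g hr z)

lemma lj_periodic (g : TorusDiffeo b r) (z : V) (γ : V) (hγ : γ ∈ Lat b) :
    lj g (z + γ) = lj g z := by
  unfold lj; rw [fderiv_lattice g hγ]

/-- The Jacobians of nearby diffeomorphisms are close. -/
lemma lj_close (f : TorusDiffeo b r) (hr : 1 ≤ r) {c : ℝ} (hc : 0 < c) :
    ∃ ε > 0, ∀ g : TorusDiffeo b r,
      (∀ z, ‖fderiv ℝ g.toFun z - fderiv ℝ f.toFun z‖ < ε) → ∀ z, |lj g z - lj f z| < c := by
  obtain ⟨R, hR, hred⟩ := exists_red b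
  have hK : IsCompact (fderiv ℝ f.toFun '' Metric.closedBall (0 : V) R) :=
    (isCompact_closedBall 0 R).image (cont_fderiv f hr)
  have hmem := hK.uniformContinuousAt_of_continuousAt
    (fun L : V →L[ℝ] V => Real.log |L.det|) (fun a ha => by
      obtain ⟨z, -, rfl⟩ := ha
      exact (cont_det.abs.continuousAt).log (abs_ne_zero.2 (det_ne f hr z)))
      (Metric.dist_mem_uniformity hc)
  obtain ⟨ε, hε, h⟩ := Metric.mem_uniformity_dist.1 hmem
  refine ⟨ε, hε, fun g hg z => ?_⟩
  obtain ⟨γ, hγ, h1⟩ := hred z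
  have h2 := h (a := fderiv ℝ f.toFun z) (b := fderiv ℝ g.toFun z) (by
    rw [dist_comm, dist_eq_norm]; exact hg z)
  have h3 := h2 ⟨z - γ, by rwa [mem_closedBall_zero_iff], by
    rw [sub_eq_add_neg]; exact fderiv_lattice f (neg_mem hγ) z⟩
  have h4 : dist (Real.log |(fderiv ℝ f.toFun z).det|) (Real.log |(fderiv ℝ g.toFun z).det|) < c :=
    h3
  rw [dist_comm, Real.dist_eq] at h4
  exact h4

lemma Dn_succ (g : TorusDiffeo b r) (hr : 1 ≤ r) (n : ℕ) (z : V) :
    Dn g (n + 1) z = (fderiv ℝ g.toFun (g.toFun^[n] z)).comp (Dn g n z) := by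
  unfold Dn
  rw [Function.iterate_succ']
  exact fderiv_comp z ((diff_toFun g hr) _) (((diff_toFun g hr).iterate n) _)

lemma Dn_det (g : TorusDiffeo b r) (hr : 1 ≤ r) (n : ℕ) (z : V) :
    |(Dn g n z).det| = Real.exp (∑ i ∈ Finset.range n, lj g (g.toFun^[i] z)) := by
  induction n with
  | zero => simp [Dn, ContinuousLinearMap.det]
  | succ n ih =>
    rw [Dn_succ g hr, Finset.sum_range_succ, Real.exp_add, ← ih]
    have h3 : ((fderiv ℝ g.toFun (g.toFun^[n] z)).comp (Dn g n z)).det =
        (fderiv ℝ g.toFun (g.toFun^[n] z)).det * (Dn g n z).det := by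
      simp only [ContinuousLinearMap.det, ContinuousLinearMap.toLinearMap_comp]
      exact LinearMap.det_comp _ _
    rw [h3, abs_mul]
    unfold lj
    rw [Real.exp_log (abs_pos.2 (det_ne g hr _))]
    ring

/-- The volume of a set on which the projection to the torus is injective is bounded. -/
lemma volume_image_le (g : TorusDiffeo b r) (n : ℕ) {D : Set V} (hD : MeasurableSet D)
    (hinj : ∀ x ∈ D, ∀ y ∈ D, x - y ∈ Lat b → x = y) :
    volume (g.toFun^[n] '' D) ≤ volume (ZSpan.fundamentalDomain b) := by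
  by_contra hcon
  push Not at hcon
  have hmeas : NullMeasurableSet (g.toFun^[n] '' D) volume := by
    have : g.toFun^[n] '' D = g.inv^[n] ⁻¹' D := by
      ext z
      constructor
      · rintro ⟨w, hw, rfl⟩
        simpa [iter_left_inv] using hw
      · intro hz
        exact ⟨g.inv^[n] z, hz, iter_right_inv g n z⟩
    rw [this]
    exact ((g.smooth_inv.continuous.iterate n).measurable hD).nullMeasurableSet
  have hcount : Countable (Submodule.span ℤ (Set.range b)).toAddSubgroup :=
    inferInstanceAs (Countable (Lat b))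
  obtain ⟨x, y, hxy, hdis⟩ := exists_pair_mem_lattice_not_disjoint_vadd
    (ZSpan.isAddFundamentalDomain' b volume) hmeas hcon
  rw [Set.not_disjoint_iff] at hdis
  obtain ⟨w, ⟨_, ⟨p, hp, rfl⟩, h1⟩, ⟨_, ⟨q, hq, rfl⟩, h2⟩⟩ := hdis
  apply hxy
  simp only at h1 h2
  have e : g.toFun^[n] p = g.toFun^[n] q + ((y : V) - (x : V)) := by
    have h3 : (x : V) + g.toFun^[n] p = (y : V) + g.toFun^[n] q := h1.trans h2.symm
    calc g.toFun^[n] p = ((x : V) + g.toFun^[n] p) - x := by abel
      _ = ((y : V) + g.toFun^[n] q) - x := by rw [h3]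
      _ = _ := by abel
  have hyx : (y : V) - (x : V) ∈ Lat b := by
    exact sub_mem y.2 x.2
  have h4 := iter_inv_lattice g n (g.toFun^[n] q) hyx
  rw [← e, iter_left_inv, iter_left_inv] at h4
  have h5 := hinj p hp q hq h4
  subst h5
  have h6 : (y : V) - (x : V) = 0 := by
    have := congrArg (fun t => t - g.toFun^[n] p) e
    simp only [sub_self, add_sub_cancel_left] at this
    exact this.symm
  exact Subtype.ext (sub_eq_zero.1 h6).symm

/-- A set of positive area has a subset of positive area on which the projection is injective. -/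
lemma exists_inj_subset {D : Set V} (hD : MeasurableSet D) (h0 : 0 < volume D) :
    ∃ D' ⊆ D, MeasurableSet D' ∧ 0 < volume D' ∧ volume D' < ⊤ ∧
      ∀ x ∈ D', ∀ y ∈ D', x - y ∈ Lat b → x = y := by
  have hfd := ZSpan.isAddFundamentalDomain b (volume : Measure V)
  have hmeas := ZSpan.fundamentalDomain_measurableSet b
  have hcover : D = ⋃ γ : Submodule.span ℤ (Set.range b),
      D ∩ ((fun z => z - (γ : V)) ⁻¹' (ZSpan.fundamentalDomain b)) := by
    ext z
    simp only [mem_iUnion, mem_inter_iff, mem_preimage]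
    constructor
    · intro hz
      refine ⟨ZSpan.floor b z, hz, ?_⟩
      have := ZSpan.fract_mem_fundamentalDomain b z
      exact this
    · rintro ⟨_, h, -⟩; exact h
  have hpos : ∃ γ : Submodule.span ℤ (Set.range b),
      0 < volume (D ∩ ((fun z => z - (γ : V)) ⁻¹' (ZSpan.fundamentalDomain b))) := by
    by_contra hcon
    push Not at hcon
    have : volume D = 0 := by
      rw [hcover]
      exact measure_iUnion_null fun γ => le_antisymm (hcon γ) bot_le
    rw [this] at h0
    exact lt_irrefl _ h0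
  obtain ⟨γ, hγ⟩ := hpos
  refine ⟨_, inter_subset_left, hD.inter ?_, hγ, ?_, ?_⟩
  · exact (measurable_id.sub_const (γ : V)) hmeas
  · refine lt_of_le_of_lt (measure_mono inter_subset_right) ?_
    have hb : Bornology.IsBounded ((fun z : V => z - (γ : V)) ⁻¹' (ZSpan.fundamentalDomain b)) := by
      have := (ZSpan.fundamentalDomain_isBounded b).vadd (γ : V)
      refine this.subset ?_
      intro z hz
      exact ⟨z - γ, hz, by simp⟩
    exact hb.measure_lt_top
  · rintro x ⟨-, hx⟩ y ⟨-, hy⟩ hxy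
    simp only [mem_preimage] at hx hy
    have h1 : (x - (γ : V)) - (y - (γ : V)) ∈ Submodule.span ℤ (Set.range b) := by
      have e : (x - (γ : V)) - (y - (γ : V)) = x - y := by abel
      rw [e]; exact hxy
    have h2 : ZSpan.fract b (x - (γ : V)) = ZSpan.fract b (y - (γ : V)) := by
      rw [ZSpan.fract_eq_fract]
      have := Submodule.neg_mem _ h1
      convert this using 1
      abel
    rw [ZSpan.fract_eq_self.2 hx, ZSpan.fract_eq_self.2 hy] at h2
    have := congrArg (fun t => t + (γ : V)) h2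
    simpa using this

lemma crClose_fderiv {f g : TorusDiffeo b r} (hr : 1 ≤ r) {ε : ℝ} (h : CrClose ε f g) (z : V) :
    ‖fderiv ℝ g.toFun z - fderiv ℝ f.toFun z‖ < ε := by
  have h1 := h 1 hr z
  rw [norm_iteratedFDeriv_one] at h1
  have e : fderiv ℝ (fun z => g.toFun z - f.toFun z) z =
      fderiv ℝ g.toFun z - fderiv ℝ f.toFun z :=
    fderiv_fun_sub ((diff_toFun g hr) _) ((diff_toFun f hr) _)
  rwa [e] at h1

lemma crClose_val {f g : TorusDiffeo b r} {ε : ℝ} (h : CrClose ε f g) (z : V) :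
    ‖g.toFun z - f.toFun z‖ < ε := by
  have h1 := h 0 (Nat.zero_le _) z
  rwa [norm_iteratedFDeriv_zero] at h1

/-- **Area obstruction.**  A diffeomorphism is not strongly pluripotent for a set which contains a
point along whose orbit the area is expanded exponentially. -/
theorem area_obstruction (f : TorusDiffeo b r) (hr : 1 ≤ r) {Λ : Set V} {x : V} (hx : x ∈ Λ)
    {c : ℝ} (hc : 0 < c) (hgrow : ∃ᶠ n : ℕ in atTop, c * n ≤ Real.log |(Dn f n x).det|) :
    ¬ StronglyPluripotent f Λ := by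
  intro hSP
  obtain ⟨⟨B, hB, hFB⟩, hFuc⟩ := periodic_uc (lj_cont f hr) (lj_periodic f)
  obtain ⟨δ, hδ, hFδ⟩ := hFuc (c / 8) (by positivity)
  obtain ⟨ε, hε, hclose⟩ := lj_close f hr (c := c / 8) (by positivity)
  obtain ⟨g, hg, x', hx', D, hDm, hD0, hlim⟩ := hSP x hx ε hε (δ / 2) (by positivity)
  have hgl := hclose g (fun z => crClose_fderiv hr hg z)
  obtain ⟨R, hR, hdb⟩ := dT_bound b
  set s : ℕ → ℝ := fun i => sSup ((fun y => dT b (g.toFun^[i] y) (g.toFun^[i] x')) '' D) with hs
  have hs0 : ∀ i, 0 ≤ s i := by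
    intro i
    apply Real.sSup_nonneg
    rintro _ ⟨y, -, rfl⟩
    exact dT_nonneg _ _
  have hsle : ∀ i, ∀ y ∈ D, dT b (g.toFun^[i] y) (g.toFun^[i] x') ≤ s i := by
    intro i y hy
    refine le_csSup ⟨R, ?_⟩ ⟨y, hy, rfl⟩
    rintro _ ⟨w, -, rfl⟩
    exact hdb _ _
  -- comparison of the Jacobians
  have hcomp : ∀ i, ∀ y ∈ D, lj f (f.toFun^[i] x) - 3 * c / 8 - (2 * B / δ) * s i ≤
      lj g (g.toFun^[i] y) := by
    intro i y hy
    have h1 := abs_lt.1 (hgl (g.toFun^[i] y))
    have h2 := abs_lt.1 (hFδ _ _ (lt_of_le_of_lt ((hx' i).1) (by linarith : δ / 2 < δ)))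
    rcases lt_or_ge (s i) δ with h3 | h3
    · have h4 := abs_lt.1 (hFδ _ _ (lt_of_le_of_lt (hsle i y hy) h3))
      have h5 : 0 ≤ (2 * B / δ) * s i := mul_nonneg (by positivity) (hs0 i)
      linarith [h1.1, h2.1, h4.1]
    · have h4 : 2 * B ≤ (2 * B / δ) * s i := by
        rw [div_mul_eq_mul_div, le_div_iff₀ hδ]
        nlinarith
      have h5 := abs_le.1 (hFB (g.toFun^[i] y))
      have h6 := abs_le.1 (hFB (f.toFun^[i] x))
      linarith [h1.1, h5.1, h6.2]
  -- a good subset
  obtain ⟨D', hD'D, hD'm, hD'0, hD'top, hinj⟩ := exists_inj_subset (b := b) hDm hD0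
  have hvol : ∀ n, ∀ a : ℝ, (∀ y ∈ D', a ≤ Real.log |(Dn g n y).det|) →
      ENNReal.ofReal (Real.exp a) * volume D' ≤ volume (ZSpan.fundamentalDomain b) := by
    intro n a ha
    refine le_trans ?_ (volume_image_le g n hD'm hinj)
    have h1 := lintegral_abs_det_fderiv_eq_addHaar_image (volume : Measure V) hD'm
      (f := g.toFun^[n]) (f' := fun y => Dn g n y)
      (fun y _ => ((((diff_toFun g hr).iterate n) y).hasFDerivAt).hasFDerivWithinAt)
      ((g.inj.iterate n).injOn)
    rw [← h1]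
    calc ENNReal.ofReal (Real.exp a) * volume D'
        = ∫⁻ _ in D', ENNReal.ofReal (Real.exp a) := by rw [setLIntegral_const]
      _ ≤ _ := by
        refine setLIntegral_mono' hD'm fun y hy => ENNReal.ofReal_le_ofReal ?_
        have h2 := ha y hy
        have h3 : 0 < |(Dn g n y).det| := by rw [Dn_det g hr]; exact Real.exp_pos _
        rw [← Real.exp_log h3]
        exact Real.exp_le_exp.2 h2
  have hlog : ∀ (g : TorusDiffeo b r) n y, Real.log |(Dn g n y).det| =
      ∑ i ∈ Finset.range n, lj g (g.toFun^[i] y) := by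
    intro g n y; rw [Dn_det g hr, Real.log_exp]
  -- the averages of s tend to zero
  have hlim' : Tendsto (fun n : ℕ => (2 * B / δ) * ((∑ i ∈ Finset.range n, s i) / n)) atTop
      (𝓝 0) := by
    simpa using hlim.const_mul (2 * B / δ)
  have hev : ∀ᶠ n : ℕ in atTop, (2 * B / δ) * ((∑ i ∈ Finset.range n, s i) / n) < c / 8 :=
    hlim'.eventually_lt_const (by positivity)
  have hfin : volume (ZSpan.fundamentalDomain b) < ⊤ :=
    (ZSpan.fundamentalDomain_isBounded b).measure_lt_top
  -- unbounded growth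
  set M : ℝ := (volume (ZSpan.fundamentalDomain b)).toReal / (volume D').toReal with hM
  have hexp : ∀ᶠ n : ℕ in atTop, M < Real.exp (c / 2 * n) := by
    have h1 : Tendsto (fun n : ℕ => Real.exp (c / 2 * n)) atTop atTop := by
      refine Real.tendsto_exp_atTop.comp ?_
      exact Tendsto.const_mul_atTop (by positivity) tendsto_natCast_atTop_atTop
    exact h1.eventually_gt_atTop M
  obtain ⟨n, hn1, hn2, hn3, hn4⟩ :=
    (hgrow.and_eventually (hev.and (hexp.and (eventually_gt_atTop 0)))).exists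
  have hnpos : (0 : ℝ) < n := by exact_mod_cast hn4
  have hall : ∀ y ∈ D', c / 2 * n ≤ Real.log |(Dn g n y).det| := by
    intro y hy
    rw [hlog]
    rw [hlog] at hn1
    have h1 : ∑ i ∈ Finset.range n, (lj f (f.toFun^[i] x) - 3 * c / 8 - (2 * B / δ) * s i) ≤
        ∑ i ∈ Finset.range n, lj g (g.toFun^[i] y) :=
      Finset.sum_le_sum fun i _ => hcomp i y (hD'D hy)
    rw [Finset.sum_sub_distrib, Finset.sum_sub_distrib, ← Finset.mul_sum, Finset.sum_const,
      Finset.card_range, nsmul_eq_mul] at h1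
    have h2 : (2 * B / δ) * ∑ i ∈ Finset.range n, s i ≤ c / 8 * n := by
      have e : (2 * B / δ) * ∑ i ∈ Finset.range n, s i =
          ((2 * B / δ) * ((∑ i ∈ Finset.range n, s i) / n)) * n := by
        field_simp
      rw [e]
      exact mul_le_mul_of_nonneg_right hn2.le hnpos.le
    nlinarith
  have h1 := hvol n _ hall
  have h2 : M < Real.exp (c / 2 * n) := hn3
  have hD'r : 0 < (volume D').toReal := ENNReal.toReal_pos hD'0.ne' hD'top.ne
  have h3 := ENNReal.toReal_mono hfin.ne h1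
  rw [ENNReal.toReal_mul, ENNReal.toReal_ofReal (Real.exp_pos _).le] at h3
  rw [hM, div_lt_iff₀ hD'r] at h2
  linarith

end Pool.Agent.W5h40.NH
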