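import Pool.Agent.W5h40.NH.Near

/-!
# Curves
-/

open Set Filter Topology MeasureTheory
open scoped ContDiff

namespace Pool.Agent.W5h40.NH

lemma sub_ivt {f : ℝ → ℝ} (hf : Continuous f) {a b u v : ℝ} (hab : a ≤ b) (hu : f a ≤ u)
    (huv : u ≤ v) (hv : v ≤ f b) :
    ∃ a' b', a ≤ a' ∧ a' ≤ b' ∧ b' ≤ b ∧ f a' = u ∧ f b' = v ∧ ∀ t ∈ Icc a' b', f t ∈ Icc u v := by
  have hS : IsCompact (Icc a b ∩ {t | v ≤ f t}) :=
    isCompact_Icc.inter_right (isClosed_le continuous_const hf)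
  obtain ⟨b', ⟨hb1, hb2⟩, hb3⟩ := hS.exists_isLeast ⟨b, ⟨hab, le_rfl⟩, hv⟩
  have hb4 : f b' = v := by
    obtain ⟨t, ht, hft⟩ := intermediate_value_Icc hb1.1 hf.continuousOn
      (show v ∈ Icc (f a) (f b') from ⟨hu.trans huv, hb2⟩)
    have h1 : b' ≤ t := hb3 ⟨⟨ht.1, ht.2.trans hb1.2⟩, hft.ge⟩
    rw [le_antisymm h1 ht.2]; exact hft
  have hT : IsCompact (Icc a b' ∩ {t | f t ≤ u}) :=
    isCompact_Icc.inter_right (isClosed_le hf continuous_const)
  obtain ⟨a', ⟨ha1, ha2⟩, ha3⟩ := hT.exists_isGreatest ⟨a, ⟨le_rfl, hb1.1⟩, hu⟩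
  have ha4 : f a' = u := by
    obtain ⟨t, ht, hft⟩ := intermediate_value_Icc ha1.2 hf.continuousOn
      (show u ∈ Icc (f a') (f b') from ⟨ha2, by rw [hb4]; exact huv⟩)
    have h1 : t ≤ a' := ha3 ⟨⟨ha1.1.trans ht.1, ht.2⟩, hft.le⟩
    rw [← le_antisymm h1 ht.1]; exact hft
  refine ⟨a', b', ha1.1, ha1.2, hb1.2, ha4, hb4, fun t ht => ⟨?_, ?_⟩⟩
  · by_contra hcon
    have h1 : t ≤ a' := ha3 ⟨⟨ha1.1.trans ht.1, ht.2⟩, (not_le.1 hcon).le⟩
    rw [le_antisymm h1 ht.1] at hcon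
    exact hcon ha4.ge
  · by_contra hcon
    have h1 : b' ≤ t := hb3 ⟨⟨ha1.1.trans ht.1, ht.2.trans hb1.2⟩, (not_le.1 hcon).le⟩
    rw [le_antisymm ht.2 h1] at hcon
    exact hcon hb4.le

lemma cross {g : V → V} (hg : Continuous g) {A y1 y2 y0 : ℝ} (hA : 0 ≤ A) (hy : y0 ∈ Icc y1 y2)
    (h : ∀ z : V, |z.1| ≤ A → z.2 ∈ Icc y1 y2 →
      |(g z).1 - lam * z.1| ≤ A ∧ (g z).2 ∈ Icc y1 y2) (n : ℕ) :
    ∃ a b, a ≤ b ∧ (∀ t ∈ Icc a b, ∀ j ≤ n, |(g^[j] (t, y0)).1| ≤ A ∧
      (g^[j] (t, y0)).2 ∈ Icc y1 y2) ∧ (g^[n] (a, y0)).1 = -A ∧ (g^[n] (b, y0)).1 = A := by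
  have hl := lam_bounds.1
  induction n with
  | zero =>
    refine ⟨-A, A, by linarith, ?_, rfl, rfl⟩
    intro t ht j hj
    obtain rfl : j = 0 := by omega
    exact ⟨abs_le.2 ht, hy⟩
  | succ n ih =>
    obtain ⟨a, b, hab, h1, h2, h3⟩ := ih
    have hcont : Continuous fun t : ℝ => (g^[n + 1] (t, y0)).1 :=
      continuous_fst.comp ((hg.iterate (n + 1)).comp (by fun_prop))
    have ha := h1 a ⟨le_rfl, hab⟩ n le_rfl
    have hb := h1 b ⟨hab, le_rfl⟩ n le_rfl
    have ha' := (h _ ha.1 ha.2).1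
    have hb' := (h _ hb.1 hb.2).1
    rw [h2] at ha'
    rw [h3] at hb'
    have ha'' := abs_le.1 ha'
    have hb'' := abs_le.1 hb'
    obtain ⟨a', b', k1, k2, k3, k4, k5, k6⟩ := sub_ivt hcont (u := -A) (v := A) hab
      (by rw [Function.iterate_succ_apply']; nlinarith) (by linarith)
      (by rw [Function.iterate_succ_apply']; nlinarith)
    refine ⟨a', b', k2, ?_, k4, k5⟩
    intro t ht j hj
    have ht' : t ∈ Icc a b := ⟨k1.trans ht.1, ht.2.trans k3⟩
    rcases Nat.lt_or_ge j (n + 1) with hjn | hjn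
    · exact h1 t ht' j (by omega)
    · obtain rfl : j = n + 1 := by omega
      refine ⟨abs_le.2 (k6 t ht), ?_⟩
      rw [Function.iterate_succ_apply']
      have := h1 t ht' n le_rfl
      exact (h _ this.1 this.2).2

/-- The box around the saddle. -/
def Bx : Set V := {z | |z.1| ≤ 1 / 4 ∧ z.2 ∈ Icc (-(r1 / 8)) (r1 / 8)}

/-- The upper strip. -/
def Ps : Set V := {z | |z.1| ≤ 1 / 2 ∧ z.2 ∈ Icc (21 / 10 * sg) (4 * sg)}

lemma Bx_closed : IsClosed Bx :=
  (isClosed_le (continuous_abs.comp continuous_fst) continuous_const).inter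
    (isClosed_Icc.preimage continuous_snd)

lemma Ps_closed : IsClosed Ps :=
  (isClosed_le (continuous_abs.comp continuous_fst) continuous_const).inter
    (isClosed_Icc.preimage continuous_snd)

lemma Bx_small {z : V} (h : z ∈ Bx) : |z.1| < 39 / 100 ∧ |z.2| < sg := by
  have h0 := sg_pos
  have hr : r1 = sg / 2 := rfl
  exact ⟨lt_of_le_of_lt h.1 (by norm_num), lt_of_le_of_lt (abs_le.2 h.2) (by linarith)⟩

lemma Ps_RR {z : V} (h : z ∈ Ps) : z ∈ RR := upper_RR h.1 h.2.1 h.2.2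

variable {r : ℕ} {g : TorusDiffeo b0 r}

lemma Bx_step (h : Near ep g) {z : V} (hz : z ∈ Bx) :
    |(g.toFun z).1 - lam * z.1| ≤ ep ∧ (g.toFun z).2 ∈ Icc (-(r1 / 8)) (r1 / 8) := by
  have h0 := sg_pos
  have hr : r1 = sg / 2 := rfl
  have he : ep = sg / 1000 := rfl
  obtain ⟨h1, h2⟩ := Bx_small hz
  obtain ⟨h3, h4⟩ := box_map h h1.le h2.le
  refine ⟨h3, ?_⟩
  have h5 := abs_le.1 h4
  have h6 := hz.2.1
  have h7 := hz.2.2
  constructor <;> linarith

lemma Ps_step (h : Near ep g) {z : V} (hz : z ∈ Ps) :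
    |(g.toFun z).1 - lam * z.1| ≤ ep ∧ (g.toFun z).2 ∈ Icc (21 / 10 * sg) (4 * sg) := by
  have h0 := sg_pos
  have he : ep = sg / 1000 := rfl
  obtain ⟨h1, h2, h3⟩ := upper_map hz.1 hz.2.1 hz.2.2
  have h4 := h.fst z
  have h5 := abs_le.1 (h.snd z)
  rw [h1] at h4
  refine ⟨h4, ?_⟩
  constructor <;> linarith

lemma Dn_add (hr : 1 ≤ r) (m n : ℕ) (z : V) :
    Dn g (m + n) z = (Dn g m (g.toFun^[n] z)).comp (Dn g n z) := by
  unfold Dn
  rw [Function.iterate_add]
  exact fderiv_comp z (((diff_toFun g hr).iterate m) _) (((diff_toFun g hr).iterate n) _)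

lemma Dn_zero (z : V) : Dn g 0 z = ContinuousLinearMap.id ℝ V := by
  unfold Dn; rw [Function.iterate_zero, fderiv_id]

lemma Dinv_zero (z : V) : Dinv g 0 z = ContinuousLinearMap.id ℝ V := by
  unfold Dinv; rw [Function.iterate_zero, fderiv_id]

lemma Dn_one (z : V) : Dn g 1 z = fderiv ℝ g.toFun z := by
  unfold Dn; rw [Function.iterate_one]

lemma smooth_iter (g : TorusDiffeo b0 r) (n : ℕ) : ContDiff ℝ r (g.toFun^[n]) := by
  induction n with
  | zero => exact contDiff_id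
  | succ n ih => rw [Function.iterate_succ']; exact g.smooth.comp ih

lemma cont_Dn (hr : 1 ≤ r) (n : ℕ) : Continuous (Dn g n) := by
  unfold Dn
  exact (smooth_iter g n).continuous_fderiv (by
    intro h
    have : (r : WithTop ℕ∞) = 0 := h
    have h2 : r = 0 := by exact_mod_cast this
    omega)

lemma cont_Dinv (hr : 1 ≤ r) (n : ℕ) : Continuous (Dinv g n) := cont_Dn (g := g.symm) hr n

lemma RR_HypF (h : Near ep g) {z : V} (hz : z ∈ RR) : HypF g z := fun n v =>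
  GG_hyp h (RR_sub_GG (RR_iter h hz n)) v

lemma RR_pos (h : Near ep g) (hr : 1 ≤ r) {z : V} (hz : z ∈ RR) {v : V} (hv : CU v)
    (hp : 0 < v.1) (n : ℕ) : CU (Dn g n z v) ∧ 0 < (Dn g n z v).1 := by
  induction n with
  | zero => rw [Dn_zero]; exact ⟨hv, hp⟩
  | succ n ih =>
    have h1 := (RR_HypF h hz).step hr v n
    refine ⟨(stepU h1 ih.1).1, ?_⟩
    have := step_pos h1 ih.1 ih.2
    linarith [ih.2]

lemma fold_region (h : Near ep g) {w : V} (h1 : 1 / 5 ≤ w.1) (h2 : w.1 ≤ 2 / 5)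
    (h3 : |w.2| ≤ r1 / 8) : 11 / 10 ≤ (g.toFun w).1 ∧ (g.toFun w).1 ≤ 263 / 100 ∧
      |(g.toFun w).2| ≤ sg := by
  have h0 := sg_pos
  have hr0 := r1_pos
  have he : ep = sg / 1000 := rfl
  have hs := sg_le
  obtain ⟨k1, k2, k3⟩ := twist_region (z := w) (by linarith) (by linarith) (by linarith)
  have h4 := abs_le.1 (h.fst w)
  have h5 := abs_le.1 (h.snd w)
  have h6 := abs_le.1 k3
  refine ⟨by linarith, by linarith, abs_le.2 ⟨by linarith, by linarith⟩⟩

/-- The compact set of approximate tangencies. -/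
def KK (g : TorusDiffeo b0 r) (n : ℕ) : Set (V × V × V) := {x |
  (1 / 5 ≤ x.1.1 ∧ x.1.1 ≤ 2 / 5 ∧ |x.1.2| ≤ r1 / 8) ∧
  (∀ j < n, g.inv^[j + 1] x.1 ∈ Bx) ∧
  ‖x.2.1‖ = 1 ∧
  (∀ j ≤ n, CU (Dinv g j x.1 x.2.1)) ∧
  (∀ j ≤ n, CS (Dn g (j + 1) x.1 x.2.1)) ∧
  (1 ≤ x.2.2.1 ∧ x.2.2.1 ≤ 29 / 10 ∧ |x.2.2.2| ≤ 4 * sg) ∧
  (∀ j < n, g.inv^[j + 1] x.2.2 ∈ Ps) ∧
  (∀ j ≤ n, ‖g.toFun^[j] x.2.2 - g.toFun^[j + 1] x.1‖ ≤ (3 / 5) ^ j * ‖x.2.2 - g.toFun x.1‖)}

lemma KK_anti (n : ℕ) : KK g (n + 1) ⊆ KK g n := by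
  rintro x ⟨h1, h2, h3, h4, h5, h6, h7, h8⟩
  exact ⟨h1, fun j hj => h2 j (by omega), h3, fun j hj => h4 j (by omega),
    fun j hj => h5 j (by omega), h6, fun j hj => h7 j (by omega), fun j hj => h8 j (by omega)⟩

lemma iter_sub {n j : ℕ} (hj : j ≤ n) (z : V) :
    g.inv^[j] (g.toFun^[n] z) = g.toFun^[n - j] z := by
  obtain ⟨k, rfl⟩ := Nat.exists_eq_add_of_le hj
  rw [Function.iterate_add_apply, iter_left_inv]
  congr 1
  rw [Nat.add_sub_cancel_left]

/-- The folded curve. -/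
lemma exists_fold (h : Near ep g) (hr : 1 ≤ r) (n : ℕ) :
    ∃ w τ : V, (1 / 5 ≤ w.1 ∧ w.1 ≤ 2 / 5 ∧ |w.2| ≤ r1 / 8) ∧
      (∀ j < n, g.inv^[j + 1] w ∈ Bx) ∧ ‖τ‖ = 1 ∧ (∀ j ≤ n, CU (Dinv g j w τ)) ∧
      (∀ j ≤ n, CS (Dn g (j + 1) w τ)) := by
  have h0 := sg_pos
  have hr0 := r1_pos
  have hr1 : r1 = sg / 2 := rfl
  have he : ep = sg / 1000 := rfl
  have hs := sg_le
  obtain ⟨hl1, hl2⟩ := lam_bounds
  have hgc : Continuous g.toFun := g.smooth.continuous
  obtain ⟨a, b, hab, h1, h2, h3⟩ := cross hgc (A := 1 / 4) (y1 := -(r1 / 8)) (y2 := r1 / 8)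
    (y0 := 0) (by norm_num) ⟨by linarith, by linarith⟩ (fun z hz1 hz2 => by
      have := Bx_step h (z := z) ⟨hz1, hz2⟩
      exact ⟨by linarith [this.1], this.2⟩) n
  -- the curve
  set w : ℝ → V := fun t => g.toFun^[n + 1] (t, 0) with hw
  have hwc : Continuous w := (hgc.iterate (n + 1)).comp (by fun_prop)
  have hwa : (w a).1 ≤ 1 / 5 := by
    have k := h1 a ⟨le_rfl, hab⟩ n le_rfl
    have k2 := (Bx_step h (z := g.toFun^[n] (a, 0)) k).1
    rw [← Function.iterate_succ_apply' g.toFun, h2] at k2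
    have := abs_le.1 k2
    simp only [hw]
    linarith
  have hwb : 2 / 5 ≤ (w b).1 := by
    have k := h1 b ⟨hab, le_rfl⟩ n le_rfl
    have k2 := (Bx_step h (z := g.toFun^[n] (b, 0)) k).1
    rw [← Function.iterate_succ_apply' g.toFun, h3] at k2
    have := abs_le.1 k2
    simp only [hw]
    linarith
  obtain ⟨a', b', m1, m2, m3, m4, m5, m6⟩ := sub_ivt (f := fun t => (w t).1)
    (continuous_fst.comp hwc) hab hwa (by norm_num) hwb
  have hin : ∀ t ∈ Icc a' b', t ∈ Icc a b := fun t ht => ⟨m1.trans ht.1, ht.2.trans m3⟩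
  have hw2 : ∀ t ∈ Icc a b, |(w t).2| ≤ r1 / 8 := by
    intro t ht
    have k := h1 t ht n le_rfl
    have k2 := (Bx_step h (z := g.toFun^[n] (t, 0)) k).2
    rw [← Function.iterate_succ_apply' g.toFun] at k2
    exact abs_le.2 k2
  -- the tangent vectors
  set T : ℝ → V := fun t => Dn g (n + 1) (t, 0) (1, 0) with hT
  have hTp : ∀ t ∈ Icc a b, ∀ k ≤ n + 1, CU (Dn g k (t, 0) (1, 0)) ∧
      0 < (Dn g k (t, 0) (1, 0)).1 := by
    intro t ht k
    induction k with
    | zero => intro _; rw [Dn_zero]; exact ⟨by simp [CU], by simp⟩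
    | succ k ih =>
      intro hk
      have k1 := ih (by omega)
      have k2 := Bx_small (z := g.toFun^[k] (t, 0)) (h1 t ht k (by omega))
      have k3 := box_hyp h k2.1 k2.2 (Dn g k (t, 0) (1, 0))
      have e : Dn g (k + 1) (t, 0) (1, 0) =
          fderiv ℝ g.toFun (g.toFun^[k] (t, 0)) (Dn g k (t, 0) (1, 0)) := by
        rw [Dn_succ g hr]; rfl
      rw [← e] at k3
      refine ⟨(stepU k3 k1.1).1, ?_⟩
      have := step_pos k3 k1.1 k1.2
      linarith [k1.2]
  have hTc : ∀ t m, Dn g (m + (n + 1)) (t, 0) (1, 0) = Dn g m (w t) (T t) := by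
    intro t m
    rw [Dn_add hr]; rfl
  have hws : ∀ t ∈ Icc a' b', g.toFun (w t) ∈ RR := by
    intro t ht
    have k := fold_region h (w := w t) (m6 t ht).1 (m6 t ht).2 (hw2 t (hin t ht))
    exact strip_RR (by linarith) (by linarith) (by linarith)
  set f : ℝ → ℝ := fun t => (Dn g (n + 1) (w t) (T t)).1 with hf
  have hfc : Continuous f := by
    have : f = fun t => (Dn g (n + 1 + (n + 1)) (t, 0) (1, 0)).1 := by
      funext t; rw [hTc]
    rw [this]
    have k1 : Continuous fun t : ℝ => Dn g (n + 1 + (n + 1)) ((t, 0) : V) :=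
      (cont_Dn hr _).comp (by fun_prop)
    exact continuous_fst.comp (k1.clm_apply continuous_const)
  have hstep : ∀ t, Dn g (n + 1) (w t) (T t) =
      Dn g n (g.toFun (w t)) (fderiv ℝ g.toFun (w t) (T t)) := by
    intro t; rw [Dn_succ' g hr]; rfl
  have hfa : 0 ≤ f a' := by
    have ha' : a' ∈ Icc a' b' := ⟨le_rfl, m2⟩
    have k1 := hTp a' (hin a' ha') (n + 1) le_rfl
    have k2 : HypStep (T a') (fderiv ℝ g.toFun (w a') (T a')) := by
      refine box_hyp h ?_ ?_ _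
      · rw [m4]; norm_num [abs_of_pos]
      · exact lt_of_le_of_lt (hw2 a' (hin a' ha')) (by linarith)
    have k3 := (stepU k2 k1.1).1
    have k4 := step_pos k2 k1.1 k1.2
    have k5 : 0 < (fderiv ℝ g.toFun (w a') (T a')).1 := by
      have : 0 < (T a').1 := k1.2
      linarith
    simp only [hf]
    rw [hstep]
    exact (RR_pos h hr (hws a' ha') k3 k5 n).2.le
  have hfb : f b' ≤ 0 := by
    have hb' : b' ∈ Icc a' b' := ⟨m2, le_rfl⟩
    have k1 := hTp b' (hin b' hb') (n + 1) le_rfl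
    have k2 : HypStep (T b') (-fderiv ℝ g.toFun (w b') (T b')) := by
      refine flip_hyp h ?_ _
      have k := hw2 b' (hin b' hb')
      unfold sq2 cc
      simp only [Prod.fst_sub, Prod.snd_sub, sub_zero]
      rw [m5]
      have k' : (w b').2 ^ 2 ≤ (r1 / 8) ^ 2 := by
        rw [← sq_abs]; exact pow_le_pow_left₀ (abs_nonneg _) k 2
      nlinarith
    have k3 := (stepU k2 k1.1).1
    have k4 := step_pos k2 k1.1 k1.2
    have k5 : 0 < (-fderiv ℝ g.toFun (w b') (T b')).1 := by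
      have : 0 < (T b').1 := k1.2
      linarith
    simp only [hf]
    rw [hstep]
    have k6 := (RR_pos h hr (hws b' hb') k3 k5 n).2
    rw [map_neg, Prod.fst_neg] at k6
    linarith
  obtain ⟨t, ht, hft⟩ := intermediate_value_Icc' m2 hfc.continuousOn
    (show (0 : ℝ) ∈ Icc (f b') (f a') from ⟨hfb, hfa⟩)
  have htab := hin t ht
  have hT0 := hTp t htab (n + 1) le_rfl
  have hTne : T t ≠ 0 := by
    intro h0
    have : 0 < (T t).1 := hT0.2
    rw [h0] at this
    simp at this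
  have hTn : 0 < ‖T t‖ := norm_pos_iff.2 hTne
  have hCSt : ∀ j ≤ n, CS (Dn g (j + 1) (w t) (T t)) := by
    have hc := chain (d := fun j => Dn g j (g.toFun (w t)) (fderiv ℝ g.toFun (w t) (T t))) (n := n)
      (fun j _ => (RR_HypF h (hws t ht)).step hr _ j) (by
        have : (Dn g n (g.toFun (w t)) (fderiv ℝ g.toFun (w t) (T t))).1 = 0 := by
          rw [← hstep]; exact hft
        unfold CS
        rw [this, abs_zero]; exact abs_nonneg _)
    intro j hj
    have := (hc j hj).1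
    rw [Dn_succ' g hr]
    exact this
  refine ⟨w t, ‖T t‖⁻¹ • T t, ⟨(m6 t ht).1, (m6 t ht).2, hw2 t htab⟩, ?_, ?_, ?_, ?_⟩
  · intro j hj
    have : g.inv^[j + 1] (w t) = g.toFun^[n + 1 - (j + 1)] (t, 0) := iter_sub (by omega) _
    rw [this]
    exact h1 t htab _ (by omega)
  · rw [norm_smul, norm_inv, norm_norm, inv_mul_cancel₀ hTn.ne']
  · intro j hj
    rw [map_smul]
    apply CU.smul
    have e : Dinv g j (w t) (T t) = Dn g (n + 1 - j) (t, 0) (1, 0) := by
      obtain ⟨k, hk⟩ := Nat.exists_eq_add_of_le (show j ≤ n + 1 by omega)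
      have e1 : T t = Dn g j (g.toFun^[k] (t, 0)) (Dn g k (t, 0) (1, 0)) := by
        simp only [hT]
        rw [hk, Dn_add hr]; rfl
      have e2 : g.toFun^[k] (t, 0) = g.inv^[j] (w t) := by
        rw [iter_sub (show j ≤ n + 1 by omega)]
        congr 1; omega
      rw [e1, e2, Dinv_Dn g hr]
      congr 2; omega
    rw [e]
    exact (hTp t htab _ (by omega)).1
  · intro j hj
    rw [map_smul]
    exact CS.smul (hCSt j hj) _

/-- The partner point. -/
lemma exists_partner (h : Near ep g) (hr : 1 ≤ r) (n : ℕ) {z : V} (hz1 : 11 / 10 ≤ z.1)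
    (hz2 : z.1 ≤ 263 / 100) (hz3 : |z.2| ≤ sg) :
    ∃ p : V, (1 ≤ p.1 ∧ p.1 ≤ 29 / 10 ∧ |p.2| ≤ 4 * sg) ∧
      (∀ j < n, g.inv^[j + 1] p ∈ Ps) ∧
      (∀ j ≤ n, ‖g.toFun^[j] p - g.toFun^[j] z‖ ≤ (3 / 5) ^ j * ‖p - z‖) := by
  have h0 := sg_pos
  have he : ep = sg / 1000 := rfl
  have hs := sg_le
  obtain ⟨hl1, hl2⟩ := lam_bounds
  have hgc : Continuous g.toFun := g.smooth.continuous
  obtain ⟨a, b, hab, h1, h2, h3⟩ := cross hgc (A := 1 / 2) (y1 := 21 / 10 * sg) (y2 := 4 * sg)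
    (y0 := 3 * sg) (by norm_num) ⟨by linarith, by linarith⟩ (fun z hz1 hz2 => by
      have := Ps_step h (z := z) ⟨hz1, hz2⟩
      exact ⟨by linarith [this.1], this.2⟩) n
  set W : ℝ → V := fun t => g.toFun^[n + 1] (t, 3 * sg) with hW
  have hWc : Continuous W := (hgc.iterate (n + 1)).comp (by fun_prop)
  have hWa : (W a).1 ≤ 1 := by
    have k := h1 a ⟨le_rfl, hab⟩ n le_rfl
    have k2 := (Ps_step h (z := g.toFun^[n] (a, 3 * sg)) k).1
    rw [← Function.iterate_succ_apply' g.toFun, h2] at k2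
    have := abs_le.1 k2
    simp only [hW]
    linarith
  have hWb : 29 / 10 ≤ (W b).1 := by
    have k := h1 b ⟨hab, le_rfl⟩ n le_rfl
    have k2 := (Ps_step h (z := g.toFun^[n] (b, 3 * sg)) k).1
    rw [← Function.iterate_succ_apply' g.toFun, h3] at k2
    have := abs_le.1 k2
    simp only [hW]
    linarith
  obtain ⟨a', b', m1, m2, m3, m4, m5, m6⟩ := sub_ivt (f := fun t => (W t).1)
    (continuous_fst.comp hWc) hab hWa (by norm_num) hWb
  have hin : ∀ t ∈ Icc a' b', t ∈ Icc a b := fun t ht => ⟨m1.trans ht.1, ht.2.trans m3⟩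
  have hW2 : ∀ t ∈ Icc a b, |(W t).2| ≤ 4 * sg := by
    intro t ht
    have k := h1 t ht n le_rfl
    have k2 := (Ps_step h (z := g.toFun^[n] (t, 3 * sg)) k).2
    rw [← Function.iterate_succ_apply' g.toFun] at k2
    exact abs_le.2 ⟨by linarith [k2.1], k2.2⟩
  have hWR : ∀ t ∈ Icc a' b', W t ∈ RR := fun t ht =>
    strip_RR (m6 t ht).1 ((m6 t ht).2.trans (by norm_num)) (hW2 t (hin t ht))
  have hzR : z ∈ RR := strip_RR (by linarith) (by linarith) (by linarith)
  set f : ℝ → ℝ := fun t => (g.toFun^[n] (W t)).1 - (g.toFun^[n] z).1 with hf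
  have hfc : Continuous f :=
    (continuous_fst.comp ((hgc.iterate n).comp hWc)).sub continuous_const
  have hfa : f a' ≤ 0 := by
    have := FD_sep_iter h (hWR a' ⟨le_rfl, m2⟩) hzR (by rw [m4]; linarith) n
    simp only [hf]
    linarith
  have hfb : 0 ≤ f b' := by
    have := FD_sep_iter h hzR (hWR b' ⟨m2, le_rfl⟩) (by rw [m5]; linarith) n
    simp only [hf]
    linarith
  obtain ⟨t, ht, hft⟩ := intermediate_value_Icc m2 hfc.continuousOn
    (show (0 : ℝ) ∈ Icc (f a') (f b') from ⟨hfa, hfb⟩)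
  have htab := hin t ht
  refine ⟨W t, ⟨(m6 t ht).1, (m6 t ht).2, hW2 t htab⟩, ?_, ?_⟩
  · intro j hj
    have : g.inv^[j + 1] (W t) = g.toFun^[n + 1 - (j + 1)] (t, 3 * sg) := iter_sub (by omega) _
    rw [this]
    exact h1 t htab _ (by omega)
  · have hm := match_chain h hr (a := z) (b := W t) (n := n) (by linarith) (by linarith)
      (by linarith) (m6 t ht).1 ((m6 t ht).2.trans (by norm_num)) (hW2 t htab)
      (by simp only [hf] at hft; linarith)
    intro j hj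
    exact (hm j hj).2

lemma KK_nonempty (h : Near ep g) (hr : 1 ≤ r) (n : ℕ) : (KK g n).Nonempty := by
  obtain ⟨w, τ, h1, h2, h3, h4, h5⟩ := exists_fold h hr n
  obtain ⟨k1, k2, k3⟩ := fold_region h h1.1 h1.2.1 h1.2.2
  obtain ⟨p, h6, h7, h8⟩ := exists_partner h hr n k1 k2 k3
  refine ⟨(w, τ, p), h1, h2, h3, h4, h5, h6, h7, ?_⟩
  intro j hj
  have := h8 j hj
  simpa [Function.iterate_succ_apply] using this

lemma KK_compact (hr : 1 ≤ r) (n : ℕ) : IsCompact (KK g n) := by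
  have hgc : Continuous g.toFun := g.smooth.continuous
  have hic : Continuous g.inv := g.smooth_inv.continuous
  have hclosed : IsClosed (KK g n) := by
    have c1 : IsClosed {x : V × V × V | 1 / 5 ≤ x.1.1 ∧ x.1.1 ≤ 2 / 5 ∧ |x.1.2| ≤ r1 / 8} := by
      have e1 : Continuous fun x : V × V × V => x.1.1 := by fun_prop
      have e2 : Continuous fun x : V × V × V => |x.1.2| := by fun_prop
      exact (isClosed_le continuous_const e1).inter
        ((isClosed_le e1 continuous_const).inter (isClosed_le e2 continuous_const))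
    have c2 : IsClosed {x : V × V × V | ∀ j < n, g.inv^[j + 1] x.1 ∈ Bx} := by
      simp only [ofPred_forall]
      exact isClosed_iInter fun j => isClosed_iInter fun _ =>
        Bx_closed.preimage ((hic.iterate (j + 1)).comp continuous_fst)
    have c3 : IsClosed {x : V × V × V | ‖x.2.1‖ = 1} :=
      isClosed_eq (by fun_prop) continuous_const
    have c4 : IsClosed {x : V × V × V | ∀ j ≤ n, CU (Dinv g j x.1 x.2.1)} := by
      simp only [ofPred_forall]
      refine isClosed_iInter fun j => isClosed_iInter fun _ => isClosed_CU.preimage ?_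
      exact ((cont_Dinv hr j).comp continuous_fst).clm_apply (by fun_prop)
    have c5 : IsClosed {x : V × V × V | ∀ j ≤ n, CS (Dn g (j + 1) x.1 x.2.1)} := by
      simp only [ofPred_forall]
      refine isClosed_iInter fun j => isClosed_iInter fun _ => isClosed_CS.preimage ?_
      exact ((cont_Dn hr (j + 1)).comp continuous_fst).clm_apply (by fun_prop)
    have c6 : IsClosed {x : V × V × V | 1 ≤ x.2.2.1 ∧ x.2.2.1 ≤ 29 / 10 ∧
        |x.2.2.2| ≤ 4 * sg} := by
      have e1 : Continuous fun x : V × V × V => x.2.2.1 := by fun_prop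
      have e2 : Continuous fun x : V × V × V => |x.2.2.2| := by fun_prop
      exact (isClosed_le continuous_const e1).inter
        ((isClosed_le e1 continuous_const).inter (isClosed_le e2 continuous_const))
    have c7 : IsClosed {x : V × V × V | ∀ j < n, g.inv^[j + 1] x.2.2 ∈ Ps} := by
      simp only [ofPred_forall]
      exact isClosed_iInter fun j => isClosed_iInter fun _ =>
        Ps_closed.preimage ((hic.iterate (j + 1)).comp (by fun_prop))
    have c8 : IsClosed {x : V × V × V | ∀ j ≤ n,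
        ‖g.toFun^[j] x.2.2 - g.toFun^[j + 1] x.1‖ ≤ (3 / 5) ^ j * ‖x.2.2 - g.toFun x.1‖} := by
      simp only [ofPred_forall]
      refine isClosed_iInter fun j => isClosed_iInter fun _ => isClosed_le ?_ ?_
      · exact (((hgc.iterate j).comp (by fun_prop)).sub
          ((hgc.iterate (j + 1)).comp continuous_fst)).norm
      · exact continuous_const.mul (Continuous.norm ((by fun_prop : Continuous
          fun x : V × V × V => x.2.2).sub (hgc.comp continuous_fst)))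
    exact c1.inter (c2.inter (c3.inter (c4.inter (c5.inter (c6.inter (c7.inter c8))))))
  refine Metric.isCompact_of_isClosed_isBounded hclosed ?_
  refine (Metric.isBounded_iff_subset_closedBall 0).2 ⟨3, ?_⟩
  rintro ⟨w, τ, p⟩ ⟨h1, -, h3, -, -, h6, -, -⟩
  simp only at h1 h3 h6
  have h0 := sg_pos
  have hs := sg_le
  have hr1 : r1 = sg / 2 := rfl
  rw [mem_closedBall_zero_iff, Prod.norm_def, Prod.norm_def (x := ((w, τ, p) : V × V × V).2)]
  refine max_le ?_ (max_le ?_ ?_)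
  · rw [Prod.norm_def, Real.norm_eq_abs, Real.norm_eq_abs]
    exact max_le (abs_le.2 ⟨by linarith, by linarith⟩) (by linarith)
  · simp only; rw [h3]; norm_num
  · rw [Prod.norm_def, Real.norm_eq_abs, Real.norm_eq_abs]
    exact max_le (abs_le.2 ⟨by linarith, by linarith⟩) (by linarith)

lemma exists_limit (h : Near ep g) (hr : 1 ≤ r) : ∃ x : V × V × V, ∀ n, x ∈ KK g n := by
  have key : (⋂ n, KK g n).Nonempty :=
    IsCompact.nonempty_iInter_of_sequence_nonempty_isCompact_isClosed _ (KK_anti (g := g))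
      (KK_nonempty h hr) (KK_compact hr 0) (fun n => (KK_compact hr n).isClosed)
  obtain ⟨x, hx⟩ := key
  exact ⟨x, fun n => mem_iInter.1 hx n⟩

end Pool.Agent.W5h40.NH
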