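import Mathlib

/-!
# Strong pluripotency on flat tori: definitions
-/

open Set Filter Topology MeasureTheory

namespace Pool.Agent.W5h40.NH

/-- The plane. -/
abbrev V := ℝ × ℝ

/-- The lattice spanned by the basis `b`. -/
def Lat (b : Module.Basis (Fin 2) ℝ V) : AddSubgroup V :=
  (Submodule.span ℤ (Set.range b)).toAddSubgroup

/-- Distance in the flat torus `V / Lat b` of the points represented by `z` and `w`. -/
noncomputable def dT (b : Module.Basis (Fin 2) ℝ V) (z w : V) : ℝ :=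
  Metric.infDist (z - w) (Lat b : Set V)

/-- A `C^r` diffeomorphism of the flat torus `V / Lat b`, given by a lift to the plane. -/
structure TorusDiffeo (b : Module.Basis (Fin 2) ℝ V) (r : ℕ) where
  toFun : V → V
  inv : V → V
  left_inv : ∀ z, inv (toFun z) = z
  right_inv : ∀ z, toFun (inv z) = z
  smooth : ContDiff ℝ r toFun
  smooth_inv : ContDiff ℝ r inv
  lattice : ∀ z, ∀ γ ∈ Lat b, toFun (z + γ) - toFun z ∈ Lat b
  lattice_inv : ∀ z, ∀ γ ∈ Lat b, inv (z + γ) - inv z ∈ Lat b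

variable {b : Module.Basis (Fin 2) ℝ V} {r : ℕ}

/-- `g` is `ε`-close to `f` in the `C^r` topology. -/
def CrClose (ε : ℝ) (f g : TorusDiffeo b r) : Prop :=
  ∀ k ≤ r, ∀ z, ‖iteratedFDeriv ℝ k (fun z => g.toFun z - f.toFun z) z‖ < ε

/-- Open sets of diffeomorphisms for the `C^r` topology. -/
def IsOpenCr (N : Set (TorusDiffeo b r)) : Prop :=
  ∀ f ∈ N, ∃ ε > 0, ∀ g, CrClose ε f g → g ∈ N

/-- The derivative of the `n`-th iterate at `z`. -/
noncomputable def Dn (f : TorusDiffeo b r) (n : ℕ) (z : V) : V →L[ℝ] V :=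
  fderiv ℝ (f.toFun^[n]) z

/-- The derivative of the `n`-th iterate of the inverse at `z`. -/
noncomputable def Dinv (f : TorusDiffeo b r) (n : ℕ) (z : V) : V →L[ℝ] V :=
  fderiv ℝ (f.inv^[n]) z

/-- `Λ` represents a hyperbolic set of `f`: a compact invariant subset of the torus (a closed
subset of the plane, invariant under the lattice) with an invariant splitting
`E^s ⊕ E^u` and uniform estimates. -/
def IsHyperbolicSet (f : TorusDiffeo b r) (Λ : Set V) : Prop :=
  IsClosed Λ ∧ (∀ z ∈ Λ, ∀ γ ∈ Lat b, z + γ ∈ Λ) ∧ f.toFun '' Λ = Λ ∧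
  ∃ Es Eu : V → Submodule ℝ V, ∃ C lam : ℝ, 0 < C ∧ 0 < lam ∧ lam < 1 ∧ ∀ z ∈ Λ,
    IsCompl (Es z) (Eu z) ∧
    (Es z).map (fderiv ℝ f.toFun z : V →ₗ[ℝ] V) = Es (f.toFun z) ∧
    (Eu z).map (fderiv ℝ f.toFun z : V →ₗ[ℝ] V) = Eu (f.toFun z) ∧
    (∀ v ∈ Es z, ∀ n, ‖Dn f n z v‖ ≤ C * lam ^ n * ‖v‖) ∧
    (∀ v ∈ Eu z, ∀ n, ‖Dinv f n z v‖ ≤ C * lam ^ n * ‖v‖)

/-- `z` is on the stable manifold of `p`. -/
def InStable (f : TorusDiffeo b r) (p z : V) : Prop :=
  Tendsto (fun n => dT b (f.toFun^[n] z) (f.toFun^[n] p)) atTop (𝓝 0)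

/-- `z` is on the unstable manifold of `p`. -/
def InUnstable (f : TorusDiffeo b r) (p z : V) : Prop :=
  Tendsto (fun n => dT b (f.inv^[n] z) (f.inv^[n] p)) atTop (𝓝 0)

/-- The vectors at `z` which are contracted by the iterates of `f`: the tangent space at `z` of the
stable manifold through `z` of a point of a hyperbolic set. -/
def TStable (f : TorusDiffeo b r) (z : V) : Set V :=
  {v | Tendsto (fun n => ‖Dn f n z v‖) atTop (𝓝 0)}

/-- The vectors at `z` which are contracted by the iterates of the inverse of `f`: the tangent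
space at `z` of the unstable manifold through `z` of a point of a hyperbolic set. -/
def TUnstable (f : TorusDiffeo b r) (z : V) : Set V :=
  {v | Tendsto (fun n => ‖Dinv f n z v‖) atTop (𝓝 0)}

/-- The set `Λ` has a homoclinic tangency: for some `p, q ∈ Λ` the unstable manifold of `p` and the
stable manifold of `q` meet non-transversally at some point `z`. -/
def HasTangency (f : TorusDiffeo b r) (Λ : Set V) : Prop :=
  ∃ p ∈ Λ, ∃ q ∈ Λ, ∃ z, InUnstable f p z ∧ InStable f q z ∧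
    Submodule.span ℝ (TUnstable f z ∪ TStable f z) ≠ ⊤

/-- A Newhouse domain. -/
def IsNewhouseDomain (N : Set (TorusDiffeo b r)) : Prop :=
  N.Nonempty ∧ IsOpenCr N ∧ ∀ f ∈ N, ∃ Λ, IsHyperbolicSet f Λ ∧ HasTangency f Λ

/-- Strong pluripotency of `f` for `Λ`.  The hyperbolic continuation `x_g` of `x` is described by
the fact that its orbit is close to the orbit of `x`, as close as we like. -/
def StronglyPluripotent (f : TorusDiffeo b r) (Λ : Set V) : Prop :=
  ∀ x ∈ Λ, ∀ ε > 0, ∀ δ > 0, ∃ g : TorusDiffeo b r, CrClose ε f g ∧ ∃ x' : V,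
    (∀ n : ℕ, dT b (g.toFun^[n] x') (f.toFun^[n] x) ≤ δ ∧
      dT b (g.inv^[n] x') (f.inv^[n] x) ≤ δ) ∧
    ∃ D : Set V, MeasurableSet D ∧ 0 < volume D ∧
      Tendsto (fun n : ℕ => (∑ i ∈ Finset.range n,
        sSup ((fun y => dT b (g.toFun^[i] y) (g.toFun^[i] x')) '' D)) / n) atTop (𝓝 0)

end Pool.Agent.W5h40.NH
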