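import Pool.Agent.W5h40.NH.Tang

/-!
# Hyperbolic sets with a tangency contain points along whose orbit the area is expanded
-/

open Set Filter Topology MeasureTheory
open scoped ContDiff

namespace Pool.Agent.W5h40.NH

variable {r : ℕ} {g : TorusDiffeo b0 r}

lemma back (h : Near ep g) {w : V} (hw1 : |w.1| < 1) (hw2 : |w.2| < 21 / 10 * sg) :
    |(g.inv w).1| ≤ 1 / 5 ∧ |(g.inv w).2| < 21 / 10 * sg := by
  have h0 := sg_pos
  have hs := sg_le
  have he : ep = sg / 1000 := rfl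
  have he2 := ep_le
  have hr := r1_le
  obtain ⟨hl1, hl2⟩ := lam_bounds
  obtain ⟨hn1, hn2⟩ := nu_bounds
  set w' := g.inv w with hw'
  have hgw : g.toFun w' = w := g.right_inv w
  have hnot : w' ∉ RR := by
    intro hR
    have h1 := RR_map h hR
    rw [hgw] at h1
    have h2 := h1 0 (zero_mem _)
    simp only [Prod.fst_zero, Prod.snd_zero, sub_zero] at h2
    rcases h2 with h2 | h2 <;> linarith
  have : ∃ γ ∈ Lat b0, |w'.1 - γ.1| < 1 ∧ |w'.2 - γ.2| < 21 / 10 * sg := by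
    by_contra hcon
    push Not at hcon
    apply hnot
    intro γ hγ
    by_cases h1 : 1 ≤ |w'.1 - γ.1|
    · exact Or.inl h1
    · exact Or.inr (hcon γ hγ (not_le.1 h1))
  obtain ⟨γ, hγ, k1, k2⟩ := this
  have hphi : ∀ b : V, |b.1| < 1 → |b.2| < 21 / 10 * sg →
      G0 b = D0 (phi b) ∧ |(phi b).1| ≤ 1 ∧ |(phi b).2| ≤ 41 * sg := by
    intro b hb1 hb2
    refine ⟨G0_chart0 hb1.le (by linarith), ?_⟩
    by_cases hb : b ∈ BX (3 / 4) Hs
    · have := phi_box hb
      exact ⟨this.1.trans (by norm_num), this.2⟩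
    · rw [phi_out b hb]
      exact ⟨hb1.le, by linarith⟩
  have hγ0 : γ = 0 := by
    obtain ⟨m1, m2, m3⟩ := hphi (w' - γ) k1 k2
    have e1 : g.toFun w' = g.toFun (w' - γ) + D0 γ := by
      have := h.add (w' - γ) hγ
      rwa [sub_add_cancel] at this
    rw [hgw] at e1
    have n1 := h.fst (w' - γ)
    have n2 := h.snd (w' - γ)
    rw [m1] at n1 n2
    unfold D0 at n1 n2
    simp only at n1 n2
    have e2 : (D0 γ).1 = w.1 - (g.toFun (w' - γ)).1 := by rw [e1]; simp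
    have e3 : (D0 γ).2 = w.2 - (g.toFun (w' - γ)).2 := by rw [e1]; simp
    have a1 := abs_lt.1 hw1
    have a2 := abs_lt.1 hw2
    have a3 := abs_le.1 n1
    have a4 := abs_le.1 n2
    have a5 := abs_le.1 m2
    have a6 := abs_le.1 m3
    have b1 : |(D0 γ).1| ≤ 7 := by
      rw [e2]
      exact abs_le.2 ⟨by nlinarith, by nlinarith⟩
    have b2 : |(D0 γ).2| ≤ 10 * sg := by
      rw [e3]
      exact abs_le.2 ⟨by nlinarith, by nlinarith⟩
    have b3 := lat_zero' (D0_lat hγ) b1 b2 (by linarith)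
    have b4 := D0i_D0 γ
    rw [b3] at b4
    rw [← b4]
    unfold D0i; simp
  rw [hγ0] at k1 k2
  simp only [Prod.fst_zero, Prod.snd_zero, sub_zero] at k1 k2
  refine ⟨?_, k2⟩
  obtain ⟨m1, m2, m3⟩ := hphi w' k1 k2
  have n1 := h.fst w'
  rw [m1, hgw] at n1
  unfold D0 at n1
  simp only at n1
  have a1 := abs_lt.1 hw1
  have a3 := abs_le.1 n1
  have p1 : |(phi w').1| ≤ 172 / 1000 := abs_le.2 ⟨by nlinarith, by nlinarith⟩
  by_cases hd : r1 ^ 2 ≤ sq2 (w' - cc)
  · unfold phi at p1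
    rw [phi2_out hd] at p1
    exact p1.trans (by norm_num)
  · exfalso
    have h4 := (not_le.1 hd).le
    rw [← phi2_sq] at h4
    obtain ⟨h5, -⟩ := sq2_small r1_pos.le h4
    unfold cc at h5
    simp only [Prod.fst_sub] at h5
    have h7 := abs_le.1 h5
    have h8 : (phi w').1 = (phi2 w').1 := rfl
    rw [h8] at p1
    have h9 := abs_le.1 p1
    linarith

lemma back_iter (h : Near ep g) {w : V} (hw1 : |w.1| < 1) (hw2 : |w.2| < 21 / 10 * sg) (n : ℕ) :
    |(g.inv^[n + 1] w).1| ≤ 1 / 5 ∧ |(g.inv^[n + 1] w).2| < 21 / 10 * sg := by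
  induction n with
  | zero => exact back h hw1 hw2
  | succ n ih =>
    rw [Function.iterate_succ_apply']
    exact back h (lt_of_le_of_lt ih.1 (by norm_num)) ih.2

/-- The central box. -/
def KB : Set V := {z | |z.1| ≤ 1 / 5 ∧ |z.2| ≤ 21 / 10 * sg}

lemma KB_closed : IsClosed KB :=
  (isClosed_le (continuous_abs.comp continuous_fst) continuous_const).inter
    (isClosed_le (continuous_abs.comp continuous_snd) continuous_const)

lemma KB_compact : IsCompact KB := by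
  refine Metric.isCompact_of_isClosed_isBounded KB_closed ?_
  refine (Metric.isBounded_iff_subset_closedBall 0).2
    ⟨max (1 / 5) (21 / 10 * sg), fun w hw => ?_⟩
  rw [mem_closedBall_zero_iff, Prod.norm_def]
  exact max_le_max hw.1 hw.2

lemma exists_central (h : Near ep g) {Λ : Set V} (hΛ : IsClosed Λ)
    (hinv : ∀ z ∈ Λ, g.inv z ∈ Λ) {w : V} (hw : w ∈ Λ) (hw1 : |w.1| < 1)
    (hw2 : |w.2| < 21 / 10 * sg) : ∃ x ∈ Λ, ∀ n, g.toFun^[n] x ∈ KB := by
  have hgc : Continuous g.toFun := g.smooth.continuous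
  have h1 : ∀ n, g.inv^[n + 1] w ∈ KB := fun n => by
    have := back_iter h hw1 hw2 n
    exact ⟨this.1, this.2.le⟩
  have h2 : ∀ n, g.inv^[n] w ∈ Λ := by
    intro n
    induction n with
    | zero => exact hw
    | succ n ih => rw [Function.iterate_succ_apply']; exact hinv _ ih
  obtain ⟨x, hx, φ, hφ, hlim⟩ := KB_compact.tendsto_subseq h1
  refine ⟨x, hΛ.mem_of_tendsto hlim (Eventually.of_forall fun n => h2 _), fun n => ?_⟩
  have h3 : Tendsto (fun k => g.toFun^[n] (g.inv^[φ k + 1] w)) atTop (𝓝 (g.toFun^[n] x)) :=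
    ((hgc.iterate n).tendsto x).comp hlim
  refine KB_closed.mem_of_tendsto h3 ?_
  filter_upwards [eventually_ge_atTop n] with k hk
  have h4 : n ≤ φ k := hk.trans (hφ.id_le k)
  obtain ⟨m, hm⟩ := Nat.exists_eq_add_of_le h4
  have e : g.toFun^[n] (g.inv^[φ k + 1] w) = g.inv^[m + 1] w := by
    rw [hm, add_assoc, Function.iterate_add_apply, iter_right_inv]
  rw [e]; exact h1 m

lemma tc_abs2 {t : ℝ} (h1 : 2 ≤ |t|) (h2 : |t| ≤ 21 / 10) : 17 ≤ |tc t| := by
  rcases abs_cases t with ⟨h3, h4⟩ | ⟨h3, h4⟩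
  · rw [h3] at h1 h2
    have := chi_gt2 h1 h2
    unfold tc
    exact le_trans (by linarith) (le_abs_self _)
  · rw [h3] at h1 h2
    have := chi_gt2 h1 h2
    rw [chi_odd] at this
    unfold tc
    exact le_trans (by linarith) (neg_le_abs _)

lemma central_small (h : Near ep g) {z : V} (hz : z ∈ KB) (hz2 : g.toFun z ∈ KB) :
    |z.2| ≤ 2 * sg := by
  by_contra hcon
  have hcon := not_le.1 hcon
  have h0 := sg_pos
  have he : ep = sg / 1000 := rfl
  obtain ⟨hn1, hn2⟩ := nu_bounds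
  have hn := nu_pos
  have h1 : |z.1| ≤ 1 / 2 := hz.1.trans (by norm_num)
  have h2 := h.snd z
  have hzb := hz.2
  rw [G0_mid h1 (by linarith) (by linarith)] at h2
  simp only at h2
  rw [tc_scale] at h2
  have h4 : 2 ≤ |z.2 / sg| := by
    rw [abs_div, abs_of_pos h0, le_div_iff₀ h0]; exact hcon.le
  have h5 : |z.2 / sg| ≤ 21 / 10 := by
    rw [abs_div, abs_of_pos h0, div_le_iff₀ h0]; exact hzb
  have h6 := tc_abs2 h4 h5
  have h7 : |nu * (sg * tc (z.2 / sg))| = nu * sg * |tc (z.2 / sg)| := by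
    rw [abs_mul, abs_mul, abs_of_pos h0, abs_of_pos hn]; ring
  have h8 := abs_sub_abs_le_abs_sub (nu * (sg * tc (z.2 / sg))) (g.toFun z).2
  rw [abs_sub_comm] at h2
  rw [h7] at h8
  have h9 := hz2.2
  have h10 := mul_pos hn h0
  nlinarith

lemma central_det (h : Near ep g) {z : V} (hz : |z.1| ≤ 1 / 5) (hz2 : |z.2| ≤ 2 * sg) :
    2 ≤ (fderiv ℝ g.toFun z).det := by
  have h0 := sg_pos
  have he2 := ep_le
  have he0 := ep_pos
  obtain ⟨hl1, hl2⟩ := lam_bounds
  obtain ⟨hn1, hn2⟩ := nu_bounds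
  have k : ∀ v, fderiv ℝ G0 z v = (lam * v.1, nu * ((1 + deriv chi (z.2 / sg)) * v.2)) :=
    G0_strip_fderiv (by linarith) (by linarith)
  have hd : 19 / 10 ≤ deriv chi (z.2 / sg) := chi_d4 (by
    rw [abs_div, abs_of_pos h0, div_le_iff₀ h0]; exact hz2)
  have m1 := h.d z (1, 0)
  have m2 := h.d z (0, 1)
  rw [k] at m1 m2
  have n1 : ‖((1 : ℝ), (0 : ℝ))‖ = 1 := by simp [Prod.norm_def]
  have n2 : ‖((0 : ℝ), (1 : ℝ))‖ = 1 := by simp [Prod.norm_def]
  rw [n1, mul_one] at m1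
  rw [n2, mul_one] at m2
  have p1 := abs_le.1 ((abs_fst_le _).trans m1)
  have p2 := abs_le.1 ((abs_snd_le _).trans m1)
  have p3 := abs_le.1 ((abs_fst_le _).trans m2)
  have p4 := abs_le.1 ((abs_snd_le _).trans m2)
  simp only [Prod.fst_sub, Prod.snd_sub, mul_one, mul_zero, sub_zero] at p1 p2 p3 p4
  rw [det_formula]
  have q1 : 58 / 10 ≤ (fderiv ℝ g.toFun z (1, 0)).1 := by linarith
  have q2 : 48 / 100 ≤ (fderiv ℝ g.toFun z (0, 1)).2 := by nlinarith
  have q3 : |(fderiv ℝ g.toFun z (0, 1)).1 * (fderiv ℝ g.toFun z (1, 0)).2| ≤ 1 / 10 := by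
    rw [abs_mul]
    have a1 : |(fderiv ℝ g.toFun z (0, 1)).1| ≤ 1 / 10 := abs_le.2 ⟨by linarith, by linarith⟩
    have a2 : |(fderiv ℝ g.toFun z (1, 0)).2| ≤ 1 / 10 := abs_le.2 ⟨by linarith, by linarith⟩
    have a3 := abs_nonneg (fderiv ℝ g.toFun z (0, 1)).1
    have a4 := abs_nonneg (fderiv ℝ g.toFun z (1, 0)).2
    nlinarith
  have q4 := abs_le.1 q3
  nlinarith

lemma central_growth (h : Near ep g) (hr : 1 ≤ r) {x : V} (hx : ∀ n, g.toFun^[n] x ∈ KB)
    (n : ℕ) : Real.log 2 * n ≤ Real.log |(Dn g n x).det| := by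
  rw [Dn_det g hr, Real.log_exp]
  have h1 : ∀ i ∈ Finset.range n, Real.log 2 ≤ lj g (g.toFun^[i] x) := by
    intro i _
    have h2 := hx (i + 1)
    rw [Function.iterate_succ_apply'] at h2
    have h3 := central_det h (hx i).1 (central_small h (hx i) h2)
    unfold lj
    refine Real.log_le_log (by norm_num) ?_
    exact h3.trans (le_abs_self _)
  have h2 := Finset.sum_le_sum h1
  simp only [Finset.sum_const, Finset.card_range, nsmul_eq_mul] at h2
  linarith

/-- Points of the unstable set of a point of the attractor are on the attractor. -/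
lemma unstable_Att (h : Near ep g) {p z : V} (hp : p ∈ Att g) (hz : InUnstable g p z) :
    z ∈ Att g := by
  have h0 := sg_pos
  have hs := sg_le
  have h1 : ∀ᶠ n in atTop, dT b0 (g.inv^[n] z) (g.inv^[n] p) < sg / 10 :=
    hz.eventually_lt_const (by positivity)
  obtain ⟨N, hN⟩ := eventually_atTop.1 h1
  have h2 : ∀ n ≥ N, g.inv^[n] z ∈ RR := by
    intro n hn κ hκ
    obtain ⟨γ, hγ, hlt⟩ := dT_lt (hN n hn)
    have h3 := RR_stepg h (hp (n + 1)) (γ := κ - γ) (sub_mem hκ hγ)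
    rw [Function.iterate_succ_apply', g.right_inv] at h3
    have e1 := (abs_fst_le _).trans hlt.le
    have e2 := (abs_snd_le _).trans hlt.le
    simp only [Prod.fst_sub, Prod.snd_sub] at e1 e2 h3
    rcases h3 with h3 | h3
    · left
      have h4 := abs_sub_abs_le_abs_sub ((g.inv^[n] p).1 - (κ.1 - γ.1)) ((g.inv^[n] z).1 - κ.1)
      have e : (g.inv^[n] p).1 - (κ.1 - γ.1) - ((g.inv^[n] z).1 - κ.1) =
        -((g.inv^[n] z).1 - (g.inv^[n] p).1 - γ.1) := by ring
      rw [e, abs_neg] at h4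
      linarith
    · right
      have h4 := abs_sub_abs_le_abs_sub ((g.inv^[n] p).2 - (κ.2 - γ.2)) ((g.inv^[n] z).2 - κ.2)
      have e : (g.inv^[n] p).2 - (κ.2 - γ.2) - ((g.inv^[n] z).2 - κ.2) =
        -((g.inv^[n] z).2 - (g.inv^[n] p).2 - γ.2) := by ring
      rw [e, abs_neg] at h4
      linarith
  intro n
  rcases le_total N n with hn | hn
  · exact h2 n hn
  · obtain ⟨k, rfl⟩ := Nat.exists_eq_add_of_le hn
    have h3 := RR_iter h (h2 (n + k) le_rfl) k
    have e : g.toFun^[k] (g.inv^[n + k] z) = g.inv^[n] z := by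
      rw [add_comm, Function.iterate_add_apply, iter_right_inv]
    rwa [e] at h3

lemma Att_transverse (h : Near ep g) (hr : 1 ≤ r) {z : V} (hz : z ∈ Att g) :
    Submodule.span ℝ (TUnstable g z ∪ TStable g z) = ⊤ := by
  have hF : HypF g z := RR_HypF h (hz 0)
  have hB : HypB g z := fun n v => GG_hyp h (RR_sub_GG (hz (n + 1))) v
  obtain ⟨h1, -, -⟩ := hyp_splitting hr hF hB
  rw [TU_eq, TS_eq, Submodule.span_union, Submodule.span_eq, Submodule.span_eq, sup_comm]
  exact h1.sup_eq_top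

/-- For the maps close to the model, a hyperbolic set with a tangency contains a point along
whose orbit the area is expanded. -/
theorem near_expanding (h : Near ep g) (hr : 1 ≤ r) {Λ : Set V}
    (hΛ : IsHyperbolicSet g Λ) (hT : HasTangency g Λ) :
    ∃ x ∈ Λ, ∀ n : ℕ, Real.log 2 * n ≤ Real.log |(Dn g n x).det| := by
  obtain ⟨hcl, hlat, hmap, -⟩ := hΛ
  have hinv : ∀ z ∈ Λ, g.inv z ∈ Λ := by
    intro z hz
    rw [← hmap] at hz
    obtain ⟨w, hw, rfl⟩ := hz
    rw [g.left_inv]; exact hw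
  obtain ⟨p, hp, q, hq, z, hz1, hz2, hz3⟩ := hT
  have hpA : p ∉ Att g := by
    intro hpA
    exact hz3 (Att_transverse h hr (unstable_Att h hpA hz1))
  have : ∃ n, g.inv^[n] p ∉ RR := by
    by_contra hcon
    push Not at hcon
    exact hpA hcon
  obtain ⟨n, hn⟩ := this
  have hpn : g.inv^[n] p ∈ Λ := by
    clear hn
    induction n with
    | zero => exact hp
    | succ n ih => rw [Function.iterate_succ_apply']; exact hinv _ ih
  have : ∃ γ ∈ Lat b0, |(g.inv^[n] p).1 - γ.1| < 1 ∧ |(g.inv^[n] p).2 - γ.2| < 21 / 10 * sg := by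
    by_contra hcon
    push Not at hcon
    apply hn
    intro γ hγ
    by_cases h1 : 1 ≤ |(g.inv^[n] p).1 - γ.1|
    · exact Or.inl h1
    · exact Or.inr (hcon γ hγ (not_le.1 h1))
  obtain ⟨γ, hγ, k1, k2⟩ := this
  have hw : g.inv^[n] p - γ ∈ Λ := by
    have := hlat _ hpn _ (neg_mem hγ)
    rwa [← sub_eq_add_neg] at this
  obtain ⟨x, hx, hxK⟩ := exists_central h hcl hinv hw k1 k2
  exact ⟨x, hx, fun n => central_growth h hr hxK n⟩

/-! ### The Newhouse domain -/

/-- The Newhouse domain. -/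
def ND (r : ℕ) : Set (TorusDiffeo b0 r) := {g | ∃ e < ep, Near e g}

lemma g0_near (r : ℕ) : Near 0 (g0 r) := by
  intro z
  rw [g0_fun]
  simp

lemma ND_open (hr : 1 ≤ r) : IsOpenCr (ND r) := by
  rintro f ⟨e, he, hf⟩
  refine ⟨(ep - e) / 2, by linarith, fun g hg => ⟨(ep + e) / 2, by linarith, fun z => ⟨?_, ?_⟩⟩⟩
  · have h1 := crClose_val hg z
    have h2 := (hf z).1
    have e1 : g.toFun z - G0 z = (g.toFun z - f.toFun z) + (f.toFun z - G0 z) := by abel
    rw [e1]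
    have := norm_add_le (g.toFun z - f.toFun z) (f.toFun z - G0 z)
    linarith
  · have h1 := crClose_fderiv hr hg z
    have h2 := (hf z).2
    have e1 : fderiv ℝ g.toFun z - fderiv ℝ G0 z =
        (fderiv ℝ g.toFun z - fderiv ℝ f.toFun z) + (fderiv ℝ f.toFun z - fderiv ℝ G0 z) := by
      abel
    rw [e1]
    have := norm_add_le (fderiv ℝ g.toFun z - fderiv ℝ f.toFun z)
      (fderiv ℝ f.toFun z - fderiv ℝ G0 z)
    linarith

theorem ND_newhouse (hr : 1 ≤ r) : IsNewhouseDomain (ND r) := by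
  refine ⟨⟨g0 r, 0, ep_pos, g0_near r⟩, ND_open hr, ?_⟩
  rintro f ⟨e, he, hf⟩
  exact near_tangency (hf.mono he.le) hr

theorem ND_expanding (hr : 1 ≤ r) {f : TorusDiffeo b0 r} (hf : f ∈ ND r) {Λ : Set V}
    (hΛ : IsHyperbolicSet f Λ) (hT : HasTangency f Λ) :
    ∃ x ∈ Λ, ∀ n : ℕ, Real.log 2 * n ≤ Real.log |(Dn f n x).det| := by
  obtain ⟨e, he, hf⟩ := hf
  exact near_expanding (hf.mono he.le) hr hΛ hT

end Pool.Agent.W5h40.NH
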