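import Pool.Agent.W5h40.NH.Phi

/-!
# Geometry of the model map
-/

open Set Filter Topology MeasureTheory
open scoped ContDiff

namespace Pool.Agent.W5h40.NH

/-- diagonal linear map -/
noncomputable def diagL (a b : ℝ) : V →L[ℝ] V :=
  (a • ContinuousLinearMap.fst ℝ ℝ ℝ).prod (b • ContinuousLinearMap.snd ℝ ℝ ℝ)

lemma diagL_apply (a b : ℝ) (v : V) : diagL a b v = (a * v.1, b * v.2) := rfl

lemma D0_hasF (z : V) : HasFDerivAt D0 (diagL lam nu) z := (diagL lam nu).hasFDerivAt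

lemma D0_diff : Differentiable ℝ D0 := fun z => (D0_hasF z).differentiableAt

lemma G0_diff : Differentiable ℝ G0 := G0_smooth.differentiable (by simp)

lemma lam_nu' : nu * lam = 1 := by rw [mul_comm]; exact lam_nu

/-- The region on which the dynamics is uniformly hyperbolic. -/
def RR : Set V := {z | ∀ γ ∈ Lat b0, 1 ≤ |z.1 - γ.1| ∨ 21 / 10 * sg ≤ |z.2 - γ.2|}

/-- A bigger region. -/
def GG : Set V := {z | ∀ γ ∈ Lat b0, 3 / 4 ≤ |z.1 - γ.1| ∨ 21 / 10 * sg ≤ |z.2 - γ.2|}

lemma RR_sub_GG {z : V} (h : z ∈ RR) : z ∈ GG := fun γ hγ =>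
  (h γ hγ).imp_left fun h => le_trans (by norm_num) h

lemma RR_add {z γ : V} (h : z ∈ RR) (hγ : γ ∈ Lat b0) : z + γ ∈ RR := by
  intro κ hκ
  have := h (κ - γ) (sub_mem hκ hγ)
  have e1 : (z + γ).1 - κ.1 = z.1 - (κ - γ).1 := by simp; ring
  have e2 : (z + γ).2 - κ.2 = z.2 - (κ - γ).2 := by simp; ring
  rw [e1, e2]; exact this

lemma RR_closed : IsClosed RR := by
  have : RR = ⋂ γ ∈ (Lat b0 : Set V),
      ({z : V | 1 ≤ |z.1 - γ.1|} ∪ {z : V | 21 / 10 * sg ≤ |z.2 - γ.2|}) := by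
    ext z
    simp only [RR, mem_ofPred_eq, mem_iInter, mem_union]
    rfl
  rw [this]
  refine isClosed_biInter fun γ _ => IsClosed.union ?_ ?_
  · exact isClosed_le continuous_const (continuous_abs.comp (continuous_fst.sub continuous_const))
  · exact isClosed_le continuous_const (continuous_abs.comp (continuous_snd.sub continuous_const))

lemma sq_out {w : V} (h : r1 ≤ |w.1 - 2 / 5| ∨ r1 ≤ |w.2|) : r1 ^ 2 ≤ sq2 (w - cc) := by
  by_contra hlt
  have hlt' := not_le.1 hlt
  have h0 := r1_pos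
  unfold sq2 cc at hlt'
  simp only [Prod.fst_sub, Prod.snd_sub, sub_zero] at hlt'
  rcases h with h | h
  · have h2 : r1 ^ 2 ≤ |w.1 - 2 / 5| ^ 2 := pow_le_pow_left₀ h0.le h 2
    rw [sq_abs] at h2
    nlinarith [sq_nonneg w.2]
  · have h2 : r1 ^ 2 ≤ |w.2| ^ 2 := pow_le_pow_left₀ h0.le h 2
    rw [sq_abs] at h2
    nlinarith [sq_nonneg (w.1 - 2 / 5)]

lemma phi_eq {w : V} (h : r1 ≤ |w.1 - 2 / 5| ∨ r1 ≤ |w.2|) : phi w = phi1 w := by
  unfold phi; rw [phi2_out (sq_out h)]

lemma F1_lin {x y : ℝ} (hx : |x| ≤ 1 / 2) (hy : |y| ≤ sg) : F1 x y = lam / 2 * y := by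
  unfold F1
  have h0 := sg_pos
  rw [rho_one hx, chi_lin (by rw [abs_div, abs_of_pos h0, div_le_one h0]; exact hy)]
  field_simp
  ring

lemma F1_mid {x y : ℝ} (hx : |x| ≤ 1 / 2) : F1 x y = y + sg * chi (y / sg) := by
  unfold F1
  rw [rho_one hx, one_mul]

lemma G0_chart {z γ : V} (hγ : γ ∈ Lat b0) (hz : z - γ ∈ BX 1 (2 * Hs)) :
    G0 z = D0 (phi (z - γ) + γ) := by
  unfold G0; rw [per_eq Hs_small phi_out hγ hz]

lemma G0_chart0 {z : V} (hz1 : |z.1| ≤ 1) (hz2 : |z.2| ≤ 82 * sg) : G0 z = D0 (phi z) := by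
  have h : z - 0 ∈ BX 1 (2 * Hs) := by
    rw [sub_zero]; exact ⟨hz1, by unfold Hs; linarith⟩
  have := G0_chart (zero_mem _) h
  rwa [sub_zero, add_zero] at this

lemma G0_far {z : V} (hz : z ∉ TBX (3 / 4) Hs) : G0 z = D0 z := by
  unfold G0; rw [per_id hz]

lemma G0_lin {z : V} (h1 : |z.1| ≤ 39 / 100) (h2 : |z.2| ≤ sg) : G0 z = (lam * z.1, z.2 / 2) := by
  have h0 := sg_pos
  rw [G0_chart0 (by linarith) (by linarith), phi_eq (Or.inl ?_)]
  · unfold phi1 D0
    simp only
    rw [F1_lin (by linarith) h2]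
    refine Prod.ext rfl ?_
    simp only
    linear_combination (z.2 / 2) * lam_nu
  · have := r1_le
    rw [abs_sub_comm]
    have h3 := le_abs_self (2 / 5 - z.1)
    have h4 := le_abs_self z.1
    linarith

lemma G0_mid {z : V} (h1 : |z.1| ≤ 1 / 2) (h2 : sg ≤ |z.2|) (h3 : |z.2| ≤ 82 * sg) :
    G0 z = (lam * z.1, nu * (z.2 + sg * chi (z.2 / sg))) := by
  rw [G0_chart0 (by linarith) h3, phi_eq (Or.inr (by unfold r1; linarith [sg_pos]))]
  unfold phi1 D0
  simp only
  rw [F1_mid h1]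

lemma G0_flip {z : V} (h : sq2 (z - cc) ≤ r1 ^ 2 / 4) :
    G0 z = (lam * (4 / 5 - z.1), -z.2 / 2) := by
  have h0 := sg_pos
  have hr0 := r1_pos
  have hr := r1_le
  obtain ⟨h3, h4⟩ := sq2_small (a := r1) hr0.le (by nlinarith)
  unfold cc at h3 h4
  simp only [Prod.fst_sub, Prod.snd_sub, sub_zero] at h3 h4
  have h5 := abs_le.1 h3
  have h4' : |z.2| ≤ sg := by unfold r1 at h4; linarith
  rw [G0_chart0 (abs_le.2 ⟨by linarith, by linarith⟩) (by linarith)]
  unfold phi
  rw [phi2_in h]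
  unfold phi1 D0
  simp only
  rw [F1_lin (abs_le.2 ⟨by linarith, by linarith⟩) (by rw [abs_neg]; exact h4')]
  refine Prod.ext rfl ?_
  simp only
  linear_combination (-z.2 / 2) * lam_nu

lemma G0_lin_fderiv {z : V} (h1 : |z.1| < 39 / 100) (h2 : |z.2| < sg) (v : V) :
    fderiv ℝ G0 z v = (lam * v.1, v.2 / 2) := by
  have h : G0 =ᶠ[𝓝 z] diagL lam (1 / 2) := by
    have e1 : ∀ᶠ w : V in 𝓝 z, |w.1| < 39 / 100 :=
      (continuous_abs.comp continuous_fst).continuousAt.eventually_lt_const h1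
    have e2 : ∀ᶠ w : V in 𝓝 z, |w.2| < sg :=
      (continuous_abs.comp continuous_snd).continuousAt.eventually_lt_const h2
    filter_upwards [e1, e2] with w hw1 hw2
    rw [G0_lin hw1.le hw2.le, diagL_apply]
    refine Prod.ext rfl ?_
    simp only; ring
  rw [h.fderiv_eq, ContinuousLinearMap.fderiv, diagL_apply]
  refine Prod.ext rfl ?_
  simp only; ring

lemma G0_flip_fderiv {z : V} (h : sq2 (z - cc) < r1 ^ 2 / 4) (v : V) :
    fderiv ℝ G0 z v = (-(lam * v.1), -(v.2 / 2)) := by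
  have h : G0 =ᶠ[𝓝 z] fun w => diagL (-lam) (-(1 / 2)) w + (lam * (4 / 5), 0) := by
    have hc : Continuous fun w : V => sq2 (w - cc) := by unfold sq2; fun_prop
    have e1 : ∀ᶠ w : V in 𝓝 z, sq2 (w - cc) < r1 ^ 2 / 4 :=
      hc.continuousAt.eventually_lt_const h
    filter_upwards [e1] with w hw1
    rw [G0_flip hw1.le, diagL_apply]
    refine Prod.ext ?_ ?_
    · simp only [Prod.fst_add]; ring
    · simp only [Prod.snd_add]; ring
  rw [h.fderiv_eq, fderiv_add_const, ContinuousLinearMap.fderiv, diagL_apply]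
  refine Prod.ext ?_ ?_
  · simp only; ring
  · simp only; ring

/-- The derivative in the central strip. -/
lemma G0_strip_fderiv {z : V} (h1 : |z.1| < 39 / 100) (h2 : |z.2| < 82 * sg) (v : V) :
    fderiv ℝ G0 z v = (lam * v.1, nu * ((1 + deriv chi (z.2 / sg)) * v.2)) := by
  have h0 := sg_pos
  have h : G0 =ᶠ[𝓝 z] fun w => D0 (phi1 w) := by
    have e1 : ∀ᶠ w : V in 𝓝 z, |w.1| < 39 / 100 :=
      (continuous_abs.comp continuous_fst).continuousAt.eventually_lt_const h1
    have e2 : ∀ᶠ w : V in 𝓝 z, |w.2| < 82 * sg :=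
      (continuous_abs.comp continuous_snd).continuousAt.eventually_lt_const h2
    filter_upwards [e1, e2] with w hw1 hw3
    rw [G0_chart0 (by linarith) hw3.le, phi_eq (Or.inl ?_)]
    have := r1_le
    rw [abs_sub_comm]
    have h3 := le_abs_self (2 / 5 - w.1)
    have h4 := le_abs_self w.1
    linarith
  have h3 : HasFDerivAt (fun w => D0 (phi1 w))
      ((diagL lam nu).comp (fderiv ℝ phi1 z)) z := by
    have := (phi1_hasFDeriv z).differentiableAt.hasFDerivAt
    exact (D0_hasF _).comp _ this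
  rw [h.fderiv_eq, h3.fderiv]
  simp only [ContinuousLinearMap.comp_apply]
  have hr0 : deriv rho z.1 = 0 := by
    have : rho =ᶠ[𝓝 z.1] fun _ => 1 := by
      have : ∀ᶠ y : ℝ in 𝓝 z.1, |y| < 1 / 2 :=
        continuous_abs.continuousAt.eventually_lt_const (by linarith)
      filter_upwards [this] with y hy
      exact rho_one hy.le
    rw [this.deriv_eq]; simp
  rw [phi1_fderiv, diagL_apply]
  simp only
  rw [hr0, rho_one (by linarith)]
  refine Prod.ext rfl ?_
  simp only; ring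

/-- The local form of the map at the points of `GG`. -/
lemma GG_form {z : V} (hz : z ∈ GG) : G0 =ᶠ[𝓝 z] D0 ∨
    ∃ γ ∈ Lat b0, z - γ ∈ BX (3 / 4) Hs ∧
      (3 / 4 ≤ |(z - γ).1| ∨ 21 / 10 * sg ≤ |(z - γ).2|) ∧
      G0 =ᶠ[𝓝 z] fun w => D0 (phi1 (w - γ) + γ) := by
  have h0 := sg_pos
  by_cases h : z ∈ TBX (3 / 4) Hs
  · right
    obtain ⟨γ, hγ, hb⟩ := h
    have h1 := hz γ hγ
    have e1 : z.1 - γ.1 = (z - γ).1 := rfl
    have e2 : z.2 - γ.2 = (z - γ).2 := rfl
    rw [e1, e2] at h1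
    refine ⟨γ, hγ, hb, h1, ?_⟩
    have h2 : ∀ᶠ w in 𝓝 z, r1 ≤ |(w - γ).1 - 2 / 5| ∨ r1 ≤ |(w - γ).2| := by
      rcases h1 with h1 | h1
      · have hc : Continuous fun w : V => |(w - γ).1 - 2 / 5| := by fun_prop
        have h3 : r1 < |(z - γ).1 - 2 / 5| := by
          have := r1_le
          have h4 := abs_sub_abs_le_abs_sub (z - γ).1 (2 / 5)
          have h5 : |(2 / 5 : ℝ)| = 2 / 5 := abs_of_pos (by norm_num)
          rw [h5] at h4
          linarith
        filter_upwards [hc.continuousAt.eventually_const_lt h3] with w hw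
        exact Or.inl hw.le
      · have hc : Continuous fun w : V => |(w - γ).2| := by fun_prop
        have h3 : r1 < |(z - γ).2| := by unfold r1; linarith
        filter_upwards [hc.continuousAt.eventually_const_lt h3] with w hw
        exact Or.inr hw.le
    filter_upwards [h2, per_eventually Hs_small phi_out hγ hb] with w hw hw2
    unfold G0
    rw [hw2, phi_eq hw]
  · left
    filter_upwards [per_eventually_id (φ := phi) h] with w hw
    unfold G0
    rw [hw]; rfl

lemma nu_pos : 0 < nu := by linarith [nu_bounds.1]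
lemma lam_pos : 0 < lam := by linarith [lam_bounds.1]

lemma GG_fderiv {z : V} (hz : z ∈ GG) (v : V) : (fderiv ℝ G0 z v).1 = lam * v.1 ∧
    |(fderiv ℝ G0 z v).2| ≤ nu * (|v.2| + 84 / 1000 * |v.1|) := by
  have hn := nu_pos
  rcases GG_form hz with h | ⟨γ, hγ, hb, h1, h⟩
  · rw [h.fderiv_eq, (D0_hasF z).fderiv, diagL_apply]
    refine ⟨rfl, ?_⟩
    simp only
    rw [abs_mul, abs_of_pos hn]
    have := abs_nonneg v.1
    nlinarith
  · have h3 : HasFDerivAt (fun w => D0 (phi1 (w - γ) + γ))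
        ((diagL lam nu).comp (fderiv ℝ phi1 (z - γ))) z := by
      have h4 := (phi1_hasFDeriv (z - γ)).differentiableAt.hasFDerivAt
      have h5 : HasFDerivAt (fun w : V => w - γ) (ContinuousLinearMap.id ℝ V) z :=
        (hasFDerivAt_id z).sub_const γ
      have h6 : HasFDerivAt (fun w => phi1 (w - γ) + γ)
          ((fderiv ℝ phi1 (z - γ)).comp (ContinuousLinearMap.id ℝ V)) z :=
        (HasFDerivAt.comp (f := fun w : V => w - γ) z h4 h5).add_const γ
      rw [ContinuousLinearMap.comp_id] at h6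
      exact HasFDerivAt.comp (f := fun w => phi1 (w - γ) + γ) z (D0_hasF _) h6
    rw [h.fderiv_eq, h3.fderiv]
    simp only [ContinuousLinearMap.comp_apply]
    rw [phi1_fderiv, diagL_apply]
    simp only
    refine ⟨trivial, ?_⟩
    rw [abs_mul, abs_of_pos hn]
    refine mul_le_mul_of_nonneg_left ?_ hn.le
    refine (abs_add_le _ _).trans (add_le_add ?_ ?_)
    · rw [abs_mul]
      have h7 : |1 + rho (z - γ).1 * deriv chi ((z - γ).2 / sg)| ≤ 1 := by
        have h8 := F1_dpos (z - γ).1 (z - γ).2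
        rw [abs_of_pos (by linarith)]
        rcases h1 with h1 | h1
        · rw [rho_zero h1]; linarith
        · have h9 : 21 / 10 ≤ |(z - γ).2 / sg| := by
            rw [abs_div, abs_of_pos sg_pos, le_div_iff₀ sg_pos]; exact h1
          have h10 := chi_d2 h9
          have h11 := rho_nonneg (z - γ).1
          nlinarith
      have := abs_nonneg v.2
      nlinarith
    · rw [abs_mul, abs_mul, abs_mul, abs_of_pos sg_pos]
      refine mul_le_mul_of_nonneg_right ?_ (abs_nonneg _)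
      have h8 := chi_bd ((z - γ).2 / sg)
      have h9 := rho_d (z - γ).1
      have h10 := abs_nonneg (chi ((z - γ).2 / sg))
      have h11 := abs_nonneg (deriv rho (z - γ).1)
      have h12 : sg * |chi ((z - γ).2 / sg)| ≤ sg * 84 := by nlinarith [sg_pos]
      have h13 : sg * |chi ((z - γ).2 / sg)| * |deriv rho (z - γ).1| ≤ (sg * 84) * Cr :=
        mul_le_mul h12 h9 h11 (by nlinarith [sg_pos])
      have h14 := Cr_sg
      nlinarith

lemma GG_fst {z : V} (hz : z ∈ GG) : (G0 z).1 = lam * z.1 := by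
  rcases GG_form hz with h | ⟨γ, hγ, hb, h1, h⟩
  · rw [h.self_of_nhds]; rfl
  · have := h.self_of_nhds
    simp only at this
    rw [this]
    unfold D0 phi1
    simp

end Pool.Agent.W5h40.NH
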