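import Pool.Agent.W5h40.NH.Geo

/-!
# Geometry of the model map, continued
-/

open Set Filter Topology MeasureTheory
open scoped ContDiff

namespace Pool.Agent.W5h40.NH

/-- auxiliary function -/
noncomputable def tc (t : ℝ) : ℝ := t + chi t

lemma tc_hasDeriv (t : ℝ) : HasDerivAt tc (1 + deriv chi t) t :=
  (hasDerivAt_id t).add (chi_diff t).hasDerivAt

lemma tc_mono : StrictMono tc := by
  refine strictMono_of_deriv_pos fun y => ?_
  rw [(tc_hasDeriv y).deriv]
  linarith [chi_d1 y]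

lemma tc_neg (t : ℝ) : tc (-t) = -tc t := by unfold tc; rw [chi_odd]; ring

lemma tc_21 : 201 / 10 ≤ tc (21 / 10) := by unfold tc; linarith [chi_21]

lemma tc_4 : tc 4 ≤ 45 / 2 := by unfold tc; linarith [chi_4]

lemma tc_abs {t : ℝ} (h : 21 / 10 ≤ |t|) : 201 / 10 ≤ |tc t| := by
  rcases abs_cases t with ⟨h1, h2⟩ | ⟨h1, h2⟩
  · rw [h1] at h
    have := tc_mono.monotone h
    exact (tc_21.trans this).trans (le_abs_self _)
  · rw [h1] at h
    have := tc_mono.monotone h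
    rw [tc_neg] at this
    exact (tc_21.trans this).trans (neg_le_abs _)

lemma tc_scale (y : ℝ) : y + sg * chi (y / sg) = sg * tc (y / sg) := by
  unfold tc
  have := sg_pos.ne'
  field_simp

lemma lower {z : V} (h1 : |z.1| ≤ 1 / 2) (h2 : 21 / 10 * sg ≤ |z.2|) :
    34 / 10 * sg ≤ |(G0 z).2| := by
  have h0 := sg_pos
  have hs := sg_le
  obtain ⟨hn1, hn2⟩ := nu_bounds
  have hn := nu_pos
  by_cases h3 : |z.2| ≤ 82 * sg
  · rw [G0_mid h1 (by linarith) h3]
    simp only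
    rw [tc_scale, abs_mul, abs_mul, abs_of_pos h0, abs_of_pos hn]
    have h4 : 21 / 10 ≤ |z.2 / sg| := by
      rw [abs_div, abs_of_pos h0, le_div_iff₀ h0]; exact h2
    have h5 := tc_abs h4
    nlinarith [mul_pos hn h0]
  · have h3 := not_le.1 h3
    by_cases h : z ∈ TBX (3 / 4) Hs
    · obtain ⟨κ, hκ, hb⟩ := h
      have hb1 := hb.1
      have hb2 := hb.2
      simp only [Prod.fst_sub, Prod.snd_sub] at hb1 hb2
      unfold Hs at hb2
      have hκ0 : κ ≠ 0 := by
        rintro rfl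
        simp only [Prod.snd_zero, sub_zero] at hb2
        linarith
      have h5 : |κ.1| ≤ 5 / 4 := by
        have e : κ.1 = z.1 - (z.1 - κ.1) := by ring
        rw [e]
        have := abs_sub z.1 (z.1 - κ.1)
        linarith
      have h6 : 4 / 5 ≤ |κ.2| := by
        by_contra h7
        have h7 := not_le.1 h7
        apply hκ0
        refine lat_zero hκ ?_
        have := abs_nonneg κ.1
        have := abs_nonneg κ.2
        nlinarith
      have h8 := phi_box hb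
      have h9 := h8.2
      unfold Hs at h9
      rw [G0_chart hκ ⟨hb.1.trans (by norm_num), hb.2.trans (by unfold Hs; linarith)⟩]
      unfold D0
      simp only [Prod.snd_add]
      rw [abs_mul, abs_of_pos hn]
      have h10 := abs_sub_abs_le_abs_sub κ.2 (-(phi (z - κ)).2)
      rw [abs_neg, sub_neg_eq_add, add_comm κ.2] at h10
      have h11 : 7 / 10 ≤ |(phi (z - κ)).2 + κ.2| := by linarith
      nlinarith
    · rw [G0_far h]
      unfold D0
      simp only
      rw [abs_mul, abs_of_pos hn]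
      nlinarith

lemma D0_sub (z w : V) : D0 (z - w) = D0 z - D0 w := (diagL lam nu).map_sub z w

lemma RR_step {z : V} (hz : z ∈ RR) {γ : V} (hγ : γ ∈ Lat b0) :
    3 / 2 ≤ |(G0 z).1 - γ.1| ∨ 34 / 10 * sg ≤ |(G0 z).2 - γ.2| := by
  by_cases h : 3 / 2 ≤ |(G0 z).1 - γ.1|
  · left; exact h
  · right
    have h := not_le.1 h
    have hκ : D0i γ ∈ Lat b0 := D0i_lat hγ
    have h1 : z - D0i γ ∈ RR := by
      have := RR_add hz (neg_mem hκ); rwa [← sub_eq_add_neg] at this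
    have h2 : G0 z = G0 (z - D0i γ) + γ := by
      have := G0_add (z - D0i γ) hκ
      rw [sub_add_cancel, D0_D0i] at this
      exact this
    have h3 : G0 z - γ = G0 (z - D0i γ) := by rw [h2]; abel
    have e1 : (G0 z).1 - γ.1 = (G0 (z - D0i γ)).1 := by rw [← h3]; rfl
    have e2 : (G0 z).2 - γ.2 = (G0 (z - D0i γ)).2 := by rw [← h3]; rfl
    rw [e1, GG_fst (RR_sub_GG h1), abs_mul, abs_of_pos lam_pos] at h
    rw [e2]
    have h4 := lam_bounds.1
    have h5 : |(z - D0i γ).1| ≤ 1 / 2 := by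
      have := abs_nonneg (z - D0i γ).1
      nlinarith
    refine lower h5 ?_
    have h6 := h1 0 (zero_mem _)
    simp only [Prod.fst_zero, Prod.snd_zero, sub_zero] at h6
    rcases h6 with h6 | h6
    · linarith
    · exact h6

/-- Segments between points of `RR`. -/
lemma seg_GG {a b : V} (ha : a ∈ RR) (hb : b ∈ RR) (h1 : |b.1 - a.1| ≤ 1 / 4)
    (h2 : |b.2 - a.2| ≤ 21 / 10 * sg) {s : ℝ} (hs0 : 0 ≤ s) (hs1 : s ≤ 1) :
    a + s • (b - a) ∈ GG := by
  intro γ hγ
  by_contra hcon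
  push Not at hcon
  obtain ⟨hc1, hc2⟩ := hcon
  simp only [Prod.fst_add, Prod.snd_add, Prod.smul_fst, Prod.smul_snd, Prod.fst_sub,
    Prod.snd_sub, smul_eq_mul] at hc1 hc2
  have h0 := sg_pos
  have e1 : |a.1 - γ.1| < 1 := by
    have h3 : |s * (b.1 - a.1)| ≤ 1 / 4 := by
      rw [abs_mul, abs_of_nonneg hs0]
      have := abs_nonneg (b.1 - a.1)
      nlinarith
    have e : a.1 - γ.1 = (a.1 + s * (b.1 - a.1) - γ.1) - s * (b.1 - a.1) := by ring
    rw [e]
    have := abs_sub (a.1 + s * (b.1 - a.1) - γ.1) (s * (b.1 - a.1))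
    linarith
  have e2 : |b.1 - γ.1| < 1 := by
    have h3 : |(1 - s) * (b.1 - a.1)| ≤ 1 / 4 := by
      rw [abs_mul, abs_of_nonneg (by linarith)]
      have := abs_nonneg (b.1 - a.1)
      nlinarith
    have e : b.1 - γ.1 = (a.1 + s * (b.1 - a.1) - γ.1) + (1 - s) * (b.1 - a.1) := by ring
    rw [e]
    have := abs_add_le (a.1 + s * (b.1 - a.1) - γ.1) ((1 - s) * (b.1 - a.1))
    linarith
  have h3 := (ha γ hγ).resolve_left (not_le.2 e1)
  have h4 := (hb γ hγ).resolve_left (not_le.2 e2)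
  have hc3 := abs_lt.1 hc2
  have h5 := abs_le.1 h2
  rcases abs_cases (a.2 - γ.2) with ⟨h6, h7⟩ | ⟨h6, h7⟩ <;>
  rcases abs_cases (b.2 - γ.2) with ⟨h8, h9⟩ | ⟨h8, h9⟩ <;> rw [h6] at h3 <;> rw [h8] at h4
  · nlinarith
  · linarith
  · linarith
  · nlinarith

/-- Vertical displacement of the images. -/
lemma FD0 {a b : V} (h : ∀ s : ℝ, 0 ≤ s → s ≤ 1 → a + s • (b - a) ∈ GG) :
    |(G0 b).2 - (G0 a).2| ≤ nu * (|b.2 - a.2| + 84 / 1000 * |b.1 - a.1|) := by
  set f : ℝ → ℝ := fun s => (G0 (a + s • (b - a))).2 with hf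
  have hd : ∀ s, HasDerivAt f (fderiv ℝ G0 (a + s • (b - a)) (b - a)).2 s := by
    intro s
    have h1 : HasDerivAt (fun s : ℝ => a + s • (b - a)) (b - a) s := by
      have := ((hasDerivAt_id s).smul_const (b - a)).const_add a
      simpa using this
    have h2 := (G0_diff (a + s • (b - a))).hasFDerivAt.comp_hasDerivAt s h1
    exact (hasFDerivAt_snd (p := G0 (a + s • (b - a)))).comp_hasDerivAt s h2
  obtain ⟨c, hc, he⟩ := exists_deriv_eq_slope f (a := 0) (b := 1) one_pos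
    (fun s _ => (hd s).continuousAt.continuousWithinAt)
    (fun s _ => (hd s).differentiableAt.differentiableWithinAt)
  rw [(hd c).deriv] at he
  have h1 : f 1 = (G0 b).2 := by simp [hf]
  have h0 : f 0 = (G0 a).2 := by simp [hf]
  rw [h1, h0, sub_zero, div_one] at he
  rw [← he]
  exact (GG_fderiv (h c hc.1.le hc.2.le) (b - a)).2

/-! ### The linear strip -/

lemma strip_RR {z : V} (h1 : 1 ≤ z.1) (h2 : z.1 ≤ 295 / 100) (h3 : |z.2| ≤ 4 * sg) : z ∈ RR := by
  intro γ hγ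
  by_contra hcon
  push Not at hcon
  obtain ⟨hc1, hc2⟩ := hcon
  have hs := sg_le
  have h4 : |γ.1| ≤ 395 / 100 := by
    have e : γ.1 = z.1 - (z.1 - γ.1) := by ring
    rw [e]
    have := abs_sub z.1 (z.1 - γ.1)
    rw [abs_of_pos (by linarith : 0 < z.1)] at this
    linarith
  have h5 : |γ.2| ≤ 61 / 10 * sg := by
    have e : γ.2 = z.2 - (z.2 - γ.2) := by ring
    rw [e]
    have := abs_sub z.2 (z.2 - γ.2)
    linarith
  have h6 := lat_zero' hγ h4 h5 (by linarith)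
  rw [h6] at hc1
  simp only [Prod.fst_zero, sub_zero] at hc1
  have := le_abs_self z.1
  linarith

lemma strip_lin {z : V} (h1 : 1 ≤ z.1) (h2 : z.1 ≤ 295 / 100) (h3 : |z.2| ≤ 4 * sg) :
    G0 z = D0 z := by
  apply G0_far
  rintro ⟨γ, hγ, hc1, hc2⟩
  simp only [Prod.fst_sub, Prod.snd_sub] at hc1 hc2
  unfold Hs at hc2
  have hs := sg_le
  have h4 : |γ.1| ≤ 37 / 10 := by
    have e : γ.1 = z.1 - (z.1 - γ.1) := by ring
    rw [e]
    have := abs_sub z.1 (z.1 - γ.1)
    rw [abs_of_pos (by linarith : 0 < z.1)] at this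
    linarith
  have h5 : |γ.2| ≤ 45 * sg := by
    have e : γ.2 = z.2 - (z.2 - γ.2) := by ring
    rw [e]
    have := abs_sub z.2 (z.2 - γ.2)
    linarith
  have h6 := lat_zero' hγ h4 h5 (by linarith)
  rw [h6] at hc1
  simp only [Prod.fst_zero, sub_zero] at hc1
  have := le_abs_self z.1
  linarith

/-! ### The upper strip -/

lemma upper_RR {z : V} (h1 : |z.1| ≤ 1 / 2) (h2 : 21 / 10 * sg ≤ z.2) (h3 : z.2 ≤ 4 * sg) :
    z ∈ RR := by
  intro γ hγ
  by_contra hcon
  push Not at hcon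
  obtain ⟨hc1, hc2⟩ := hcon
  have hs := sg_le
  have h0 := sg_pos
  have hz2 : |z.2| = z.2 := abs_of_nonneg (by nlinarith)
  have h4 : |γ.1| ≤ 3 / 2 := by
    have e : γ.1 = z.1 - (z.1 - γ.1) := by ring
    rw [e]
    have := abs_sub z.1 (z.1 - γ.1)
    linarith
  have h5 : |γ.2| ≤ 61 / 10 * sg := by
    have e : γ.2 = z.2 - (z.2 - γ.2) := by ring
    rw [e]
    have := abs_sub z.2 (z.2 - γ.2)
    linarith
  have h6 := lat_zero' hγ h4 h5 (by linarith)
  rw [h6] at hc2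
  simp only [Prod.snd_zero, sub_zero] at hc2
  linarith

lemma upper_map {z : V} (h1 : |z.1| ≤ 1 / 2) (h2 : 21 / 10 * sg ≤ z.2) (h3 : z.2 ≤ 4 * sg) :
    (G0 z).1 = lam * z.1 ∧ 34 / 10 * sg ≤ (G0 z).2 ∧ (G0 z).2 ≤ 387 / 100 * sg := by
  have hs := sg_le
  have h0 := sg_pos
  obtain ⟨hn1, hn2⟩ := nu_bounds
  have hn := nu_pos
  have hz2 : |z.2| = z.2 := abs_of_nonneg (by nlinarith)
  rw [G0_mid h1 (by linarith) (by linarith)]
  refine ⟨rfl, ?_⟩
  simp only
  rw [tc_scale]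
  have h4 : 21 / 10 ≤ z.2 / sg := by rw [le_div_iff₀ h0]; exact h2
  have h5 : z.2 / sg ≤ 4 := by rw [div_le_iff₀ h0]; exact h3
  have h6 := tc_mono.monotone h4
  have h7 := tc_mono.monotone h5
  have h8 := tc_21
  have h9 := tc_4
  have h10 := mul_pos hn h0
  constructor
  · have : nu * (sg * tc (z.2 / sg)) = (nu * sg) * tc (z.2 / sg) := by ring
    rw [this]
    nlinarith
  · have : nu * (sg * tc (z.2 / sg)) = (nu * sg) * tc (z.2 / sg) := by ring
    rw [this]
    nlinarith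

/-! ### The region of the twist -/

lemma twist_region {z : V} (h1 : 19 / 100 ≤ z.1) (h2 : z.1 ≤ 45 / 100) (h3 : |z.2| ≤ r1) :
    1105 / 1000 ≤ (G0 z).1 ∧ (G0 z).1 ≤ 2625 / 1000 ∧ |(G0 z).2| ≤ sg / 4 := by
  have hs := sg_le
  have h0 := sg_pos
  have hr0 := r1_pos
  have hr := r1_le
  have hrs : r1 = sg / 2 := rfl
  obtain ⟨hl1, hl2⟩ := lam_bounds
  have key : 19 / 100 ≤ (phi2 z).1 ∧ (phi2 z).1 ≤ 45 / 100 ∧ |(phi2 z).2| ≤ r1 := by
    by_cases h : r1 ^ 2 ≤ sq2 (z - cc)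
    · rw [phi2_out h]; exact ⟨h1, h2, h3⟩
    · have h4 := (not_le.1 h).le
      rw [← phi2_sq] at h4
      obtain ⟨h5, h6⟩ := sq2_small hr0.le h4
      unfold cc at h5 h6
      simp only [Prod.fst_sub, Prod.snd_sub, sub_zero] at h5 h6
      have h7 := abs_le.1 h5
      exact ⟨by linarith, by linarith, h6⟩
  obtain ⟨k1, k2, k3⟩ := key
  rw [G0_chart0 (abs_le.2 ⟨by linarith, by linarith⟩) (by linarith)]
  unfold phi phi1 D0
  simp only
  rw [F1_lin (abs_le.2 ⟨by linarith, by linarith⟩) (by linarith)]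
  refine ⟨by nlinarith, by nlinarith, ?_⟩
  have e : nu * (lam / 2 * (phi2 z).2) = (phi2 z).2 / 2 := by
    linear_combination ((phi2 z).2 / 2) * lam_nu
  rw [e, abs_div, abs_of_pos (by norm_num : (0 : ℝ) < 2)]
  linarith

end Pool.Agent.W5h40.NH
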