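import Pool.Agent.W5h40.NH.Area

/-!
# Cones
-/

open Set Filter Topology MeasureTheory

namespace Pool.Agent.W5h40.NH

/-- The expansion factor. -/
noncomputable def lam : ℝ := 3 + 2 * Real.sqrt 2

lemma sqrt2_bounds : 1.414 < Real.sqrt 2 ∧ Real.sqrt 2 < 1.415 := by
  constructor
  · exact Real.lt_sqrt_of_sq_lt (by norm_num)
  · rw [Real.sqrt_lt' (by norm_num)]; norm_num

lemma lam_bounds : 5.828 < lam ∧ lam < 5.83 := by
  unfold lam
  obtain ⟨h1, h2⟩ := sqrt2_bounds
  constructor <;> linarith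

/-- One step of the action on vectors. -/
def HypStep (v w : V) : Prop := |w.1 - lam * v.1| ≤ ‖v‖ / 10 ∧ |w.2| ≤ 3 / 5 * ‖v‖

/-- horizontal cone -/
def CU (v : V) : Prop := |v.2| ≤ |v.1|

/-- vertical cone -/
def CS (v : V) : Prop := |v.1| ≤ |v.2|

lemma CU.norm {v : V} (h : CU v) : ‖v‖ = |v.1| := by
  rw [Prod.norm_def, Real.norm_eq_abs, Real.norm_eq_abs]; exact max_eq_left h

lemma CS.norm {v : V} (h : CS v) : ‖v‖ = |v.2| := by
  rw [Prod.norm_def, Real.norm_eq_abs, Real.norm_eq_abs]; exact max_eq_right h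

lemma CU_or_CS (v : V) : CU v ∨ CS v := le_total _ _

lemma step_abs {v w : V} (h : HypStep v w) (hv : CU v) : 5 * |v.1| ≤ |w.1| := by
  have h1 := h.1
  rw [hv.norm] at h1
  have h2 := lam_bounds.1
  have h3 : |lam * v.1| = lam * |v.1| := by rw [abs_mul, abs_of_pos (by linarith)]
  have h4 : |lam * v.1| ≤ |w.1| + |w.1 - lam * v.1| := by
    have := abs_sub_abs_le_abs_sub (lam * v.1) w.1
    rw [abs_sub_comm (lam * v.1) w.1] at this
    linarith
  have h5 := abs_nonneg v.1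
  nlinarith

lemma stepU {v w : V} (h : HypStep v w) (hv : CU v) : CU w ∧ 5 * ‖v‖ ≤ ‖w‖ := by
  have h1 := step_abs h hv
  have h2 := h.2
  rw [hv.norm] at h2
  have h3 := abs_nonneg v.1
  have h4 : CU w := by unfold CU; linarith
  refine ⟨h4, ?_⟩
  rw [h4.norm, hv.norm]; exact h1

lemma step_pos {v w : V} (h : HypStep v w) (hv : CU v) (h0 : 0 < v.1) : 5 * v.1 ≤ w.1 := by
  have h1 := (abs_le.1 h.1).1
  rw [hv.norm, abs_of_pos h0] at h1
  have h2 := lam_bounds.1
  nlinarith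

lemma step_strict {v w : V} (h : HypStep v w) (hv : CU v) : |w.2| ≤ 3 / 25 * |w.1| := by
  have h1 := step_abs h hv
  have h2 := h.2
  rw [hv.norm] at h2
  linarith

lemma stepS {v w : V} (h : HypStep v w) (hw : CS w) : CS v ∧ ‖w‖ ≤ 3 / 5 * ‖v‖ := by
  constructor
  · by_contra hv
    have hv' : CU v := (CU_or_CS v).resolve_right hv
    have h1 := step_abs h hv'
    have h2 := h.2
    rw [hv'.norm] at h2
    unfold CS at hv hw
    have h3 : 0 < |v.1| := lt_of_le_of_lt (abs_nonneg _) (not_le.1 hv)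
    linarith
  · rw [hw.norm]; exact h.2

lemma forward_growth {v : ℕ → V} (h : ∀ n, HypStep (v n) (v (n + 1))) {m : ℕ} (hm : CU (v m))
    (k : ℕ) : CU (v (m + k)) ∧ 5 ^ k * ‖v m‖ ≤ ‖v (m + k)‖ := by
  induction k with
  | zero => simpa using hm
  | succ k ih =>
    have h1 := stepU (h (m + k)) ih.1
    refine ⟨h1.1, ?_⟩
    have h2 := h1.2
    rw [pow_succ]
    have h3 : ‖v (m + k + 1)‖ = ‖v (m + (k + 1))‖ := rfl
    rw [← h3]
    linarith [ih.2]

lemma forward_CS {v : ℕ → V} (h : ∀ n, HypStep (v n) (v (n + 1)))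
    (h0 : Tendsto (fun n => ‖v n‖) atTop (𝓝 0)) (m : ℕ) : CS (v m) := by
  by_contra hm
  have hm' : CU (v m) := (CU_or_CS _).resolve_right hm
  have hpos : 0 < ‖v m‖ := by
    rw [hm'.norm]
    exact lt_of_le_of_lt (abs_nonneg _) (not_le.1 hm)
  have h1 : ∀ k, ‖v m‖ ≤ ‖v (m + k)‖ := by
    intro k
    refine le_trans ?_ (forward_growth h hm' k).2
    have : (1 : ℝ) ≤ 5 ^ k := one_le_pow₀ (by norm_num)
    nlinarith
  have h2 : Tendsto (fun k => ‖v (m + k)‖) atTop (𝓝 0) := by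
    have := (tendsto_add_atTop_iff_nat m).2 h0
    simpa [add_comm] using this
  have h3 := ge_of_tendsto' h2 h1
  linarith

lemma forward_decay {v : ℕ → V} (h : ∀ n, HypStep (v n) (v (n + 1))) (hc : ∀ n, CS (v n))
    (n : ℕ) : ‖v n‖ ≤ (3 / 5) ^ n * ‖v 0‖ := by
  induction n with
  | zero => simp
  | succ n ih =>
    have h1 := (stepS (h n) (hc (n + 1))).2
    rw [pow_succ]
    linarith

lemma backward_growth {u : ℕ → V} (h : ∀ n, HypStep (u (n + 1)) (u n)) {m : ℕ} (hm : CS (u m))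
    (k : ℕ) : CS (u (m + k)) ∧ ‖u m‖ ≤ ‖u (m + k)‖ := by
  induction k with
  | zero => simpa using hm
  | succ k ih =>
    have h1 := stepS (h (m + k)) ih.1
    refine ⟨h1.1, ?_⟩
    have h2 := h1.2
    have h3 := norm_nonneg (u (m + k + 1))
    have h4 : ‖u (m + k + 1)‖ = ‖u (m + (k + 1))‖ := rfl
    rw [← h4]
    linarith [ih.2]

lemma backward_CU {u : ℕ → V} (h : ∀ n, HypStep (u (n + 1)) (u n))
    (h0 : Tendsto (fun n => ‖u n‖) atTop (𝓝 0)) (m : ℕ) : CU (u m) := by
  by_contra hm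
  have hm' : CS (u m) := (CU_or_CS _).resolve_left hm
  have hpos : 0 < ‖u m‖ := by
    rw [hm'.norm]
    exact lt_of_le_of_lt (abs_nonneg _) (not_le.1 hm)
  have h1 : ∀ k, ‖u m‖ ≤ ‖u (m + k)‖ := fun k => (backward_growth h hm' k).2
  have h2 : Tendsto (fun k => ‖u (m + k)‖) atTop (𝓝 0) := by
    have := (tendsto_add_atTop_iff_nat m).2 h0
    simpa [add_comm] using this
  have h3 := ge_of_tendsto' h2 h1
  linarith

lemma backward_decay {u : ℕ → V} (h : ∀ n, HypStep (u (n + 1)) (u n)) (hc : ∀ n, CU (u n))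
    (n : ℕ) : ‖u n‖ ≤ (3 / 5) ^ n * ‖u 0‖ := by
  induction n with
  | zero => simp
  | succ n ih =>
    have h1 := (stepU (h n) (hc (n + 1))).2
    rw [pow_succ]
    have := norm_nonneg (u (n + 1))
    linarith

lemma isClosed_CU : IsClosed {v : V | CU v} := by
  unfold CU
  exact isClosed_le (by fun_prop) (by fun_prop)

lemma isClosed_CS : IsClosed {v : V | CS v} := by
  unfold CS
  exact isClosed_le (by fun_prop) (by fun_prop)

lemma CU.smul {v : V} (h : CU v) (c : ℝ) : CU (c • v) := by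
  unfold CU at *
  simp only [Prod.smul_fst, Prod.smul_snd, smul_eq_mul, abs_mul]
  exact mul_le_mul_of_nonneg_left h (abs_nonneg c)

lemma CS.smul {v : V} (h : CS v) (c : ℝ) : CS (c • v) := by
  unfold CS at *
  simp only [Prod.smul_fst, Prod.smul_snd, smul_eq_mul, abs_mul]
  exact mul_le_mul_of_nonneg_left h (abs_nonneg c)

variable {b : Module.Basis (Fin 2) ℝ V} {r : ℕ}

/-- The contracted vectors form a subspace. -/
def EsM (g : TorusDiffeo b r) (z : V) : Submodule ℝ V where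
  carrier := TStable g z
  add_mem' := by
    intro v w hv hw
    simp only [TStable, mem_ofPred_eq] at *
    refine squeeze_zero (fun n => norm_nonneg _) (g := fun n => ‖Dn g n z v‖ + ‖Dn g n z w‖)
      (fun n => ?_) (by simpa using hv.add hw)
    rw [map_add]; exact norm_add_le _ _
  zero_mem' := by simp [TStable]
  smul_mem' := by
    intro c v hv
    simp only [TStable, mem_ofPred_eq] at *
    simp only [map_smul, norm_smul]
    simpa using hv.const_mul ‖c‖

/-- The vectors contracted by the inverse. -/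
def EuM (g : TorusDiffeo b r) (z : V) : Submodule ℝ V := EsM g.symm z

lemma mem_EsM {g : TorusDiffeo b r} {z v : V} :
    v ∈ EsM g z ↔ Tendsto (fun n => ‖Dn g n z v‖) atTop (𝓝 0) := Iff.rfl

lemma mem_EuM {g : TorusDiffeo b r} {z v : V} :
    v ∈ EuM g z ↔ Tendsto (fun n => ‖Dinv g n z v‖) atTop (𝓝 0) := Iff.rfl

lemma Dinv_succ (g : TorusDiffeo b r) (hr : 1 ≤ r) (n : ℕ) (z : V) :
    Dinv g (n + 1) z = (fderiv ℝ g.inv (g.inv^[n] z)).comp (Dinv g n z) :=
  Dn_succ g.symm hr n z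

lemma Dn_succ' (g : TorusDiffeo b r) (hr : 1 ≤ r) (n : ℕ) (z : V) :
    Dn g (n + 1) z = (Dn g n (g.toFun z)).comp (fderiv ℝ g.toFun z) := by
  unfold Dn
  rw [Function.iterate_succ]
  exact fderiv_comp z (((diff_toFun g hr).iterate n) _) ((diff_toFun g hr) _)

lemma fderiv_comp_inv (g : TorusDiffeo b r) (hr : 1 ≤ r) (z : V) :
    (fderiv ℝ g.toFun (g.inv z)).comp (fderiv ℝ g.inv z) = ContinuousLinearMap.id ℝ V :=
  fderiv_inv_comp g.symm hr z

lemma Dn_Dinv (g : TorusDiffeo b r) (hr : 1 ≤ r) (n : ℕ) (z w : V) :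
    Dn g n z (Dinv g n (g.toFun^[n] z) w) = w := by
  have h1 : fderiv ℝ (g.toFun^[n] ∘ g.inv^[n]) (g.toFun^[n] z) =
      (fderiv ℝ (g.toFun^[n]) (g.inv^[n] (g.toFun^[n] z))).comp
        (fderiv ℝ (g.inv^[n]) (g.toFun^[n] z)) :=
    fderiv_comp _ (((diff_toFun g hr).iterate n) _) (((diff_toFun g.symm hr).iterate n) _)
  have h2 : g.toFun^[n] ∘ g.inv^[n] = id := funext (iter_right_inv g n)
  rw [h2, fderiv_id, iter_left_inv] at h1
  have h3 := congrArg (fun L : V →L[ℝ] V => L w) h1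
  exact h3.symm

lemma Dinv_Dn (g : TorusDiffeo b r) (hr : 1 ≤ r) (n : ℕ) (z w : V) :
    Dinv g n z (Dn g n (g.inv^[n] z) w) = w := Dn_Dinv g.symm hr n z w

lemma map_EsM (g : TorusDiffeo b r) (hr : 1 ≤ r) (z : V) :
    (EsM g z).map (fderiv ℝ g.toFun z : V →ₗ[ℝ] V) = EsM g (g.toFun z) := by
  ext w
  rw [Submodule.mem_map]
  constructor
  · rintro ⟨v, hv, rfl⟩
    rw [mem_EsM] at *
    have := (tendsto_add_atTop_iff_nat 1).2 hv
    refine this.congr fun n => ?_
    rw [Dn_succ' g hr]; rfl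
  · intro hw
    have e : fderiv ℝ g.toFun z (fderiv ℝ g.inv (g.toFun z) w) = w := by
      have h := fderiv_comp_inv g hr (g.toFun z)
      rw [g.left_inv] at h
      exact congrArg (fun L : V →L[ℝ] V => L w) h
    refine ⟨fderiv ℝ g.inv (g.toFun z) w, ?_, e⟩
    rw [mem_EsM] at *
    refine (tendsto_add_atTop_iff_nat 1).1 (hw.congr fun n => ?_)
    rw [Dn_succ' g hr]
    simp only [ContinuousLinearMap.comp_apply]
    rw [e]

lemma map_EuM (g : TorusDiffeo b r) (hr : 1 ≤ r) (z : V) :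
    (EuM g z).map (fderiv ℝ g.toFun z : V →ₗ[ℝ] V) = EuM g (g.toFun z) := by
  have h := map_EsM g.symm hr (g.toFun z)
  have e1 : g.symm.toFun (g.toFun z) = z := g.left_inv z
  rw [e1] at h
  unfold EuM
  rw [← h]
  ext w
  simp only [Submodule.mem_map]
  have hid : ∀ w, fderiv ℝ g.toFun z (fderiv ℝ g.inv (g.toFun z) w) = w := by
    intro w
    have h := fderiv_comp_inv g hr (g.toFun z)
    rw [g.left_inv] at h
    exact congrArg (fun L : V →L[ℝ] V => L w) h
  constructor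
  · rintro ⟨_, ⟨v, hv, rfl⟩, rfl⟩
    have : (fderiv ℝ g.toFun z : V →ₗ[ℝ] V) ((fderiv ℝ g.symm.toFun (g.toFun z) : V →ₗ[ℝ] V) v)
      = v := hid v
    rw [this]; exact hv
  · intro hw
    exact ⟨_, ⟨w, hw, rfl⟩, hid w⟩

/-- The derivative at every point of the forward orbit of `z` satisfies the cone estimate. -/
def HypF (g : TorusDiffeo b r) (z : V) : Prop :=
  ∀ n v, HypStep v (fderiv ℝ g.toFun (g.toFun^[n] z) v)

/-- The derivative at every point of the backward orbit of `z` satisfies the cone estimate. -/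
def HypB (g : TorusDiffeo b r) (z : V) : Prop :=
  ∀ n v, HypStep v (fderiv ℝ g.toFun (g.inv^[n + 1] z) v)

lemma HypF.step {g : TorusDiffeo b r} (hr : 1 ≤ r) {z : V} (h : HypF g z) (v : V) (n : ℕ) :
    HypStep (Dn g n z v) (Dn g (n + 1) z v) := by
  rw [Dn_succ g hr]
  exact h n _

lemma HypB.step {g : TorusDiffeo b r} (hr : 1 ≤ r) {z : V} (h : HypB g z) (v : V) (n : ℕ) :
    HypStep (Dinv g (n + 1) z v) (Dinv g n z v) := by
  have h1 := h n (Dinv g (n + 1) z v)
  have e : fderiv ℝ g.toFun (g.inv^[n + 1] z) (Dinv g (n + 1) z v) = Dinv g n z v := by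
    rw [Dinv_succ g hr, Function.iterate_succ_apply']
    have h := fderiv_comp_inv g hr (g.inv^[n] z)
    exact congrArg (fun L : V →L[ℝ] V => L (Dinv g n z v)) h
  rwa [e] at h1

lemma unit_compact : IsCompact {v : V | ‖v‖ = 1} := by
  have : {v : V | ‖v‖ = 1} = Metric.sphere 0 1 := by ext v; simp
  rw [this]; exact isCompact_sphere 0 1

lemma exists_stable {g : TorusDiffeo b r} (hr : 1 ≤ r) {z : V} (h : HypF g z) :
    ∃ v : V, ‖v‖ = 1 ∧ ∀ n, CS (Dn g n z v) := by
  have key : (⋂ n, {v : V | ‖v‖ = 1 ∧ CS (Dn g n z v)}).Nonempty := by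
    refine IsCompact.nonempty_iInter_of_sequence_nonempty_isCompact_isClosed _ ?_ ?_ ?_ ?_
    · rintro n v ⟨hv, hc⟩
      exact ⟨hv, (stepS (h.step hr v n) hc).1⟩
    · intro n
      set w := Dinv g n (g.toFun^[n] z) ((0 : ℝ), (1 : ℝ)) with hw
      have hw0 : w ≠ 0 := by
        intro h0
        have := Dn_Dinv g hr n z ((0 : ℝ), (1 : ℝ))
        rw [← hw, h0, map_zero] at this
        simpa using congrArg Prod.snd this
      refine ⟨‖w‖⁻¹ • w, ?_, ?_⟩
      · rw [norm_smul, norm_inv, norm_norm, inv_mul_cancel₀ (norm_ne_zero_iff.2 hw0)]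
      · rw [map_smul, hw, Dn_Dinv g hr]
        apply CS.smul
        unfold CS; simp
    · refine unit_compact.inter_right (isClosed_CS.preimage (Dn g 0 z).continuous)
    · intro n
      exact unit_compact.isClosed.inter (isClosed_CS.preimage (Dn g n z).continuous)
  obtain ⟨v, hv⟩ := key
  rw [mem_iInter] at hv
  exact ⟨v, (hv 0).1, fun n => (hv n).2⟩

lemma exists_unstable {g : TorusDiffeo b r} (hr : 1 ≤ r) {z : V} (h : HypB g z) :
    ∃ v : V, ‖v‖ = 1 ∧ ∀ n, CU (Dinv g n z v) := by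
  have key : (⋂ n, {v : V | ‖v‖ = 1 ∧ CU (Dinv g n z v)}).Nonempty := by
    refine IsCompact.nonempty_iInter_of_sequence_nonempty_isCompact_isClosed _ ?_ ?_ ?_ ?_
    · rintro n v ⟨hv, hc⟩
      exact ⟨hv, (stepU (h.step hr v n) hc).1⟩
    · intro n
      set w := Dn g n (g.inv^[n] z) ((1 : ℝ), (0 : ℝ)) with hw
      have hw0 : w ≠ 0 := by
        intro h0
        have := Dinv_Dn g hr n z ((1 : ℝ), (0 : ℝ))
        rw [← hw, h0, map_zero] at this
        simpa using congrArg Prod.fst this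
      refine ⟨‖w‖⁻¹ • w, ?_, ?_⟩
      · rw [norm_smul, norm_inv, norm_norm, inv_mul_cancel₀ (norm_ne_zero_iff.2 hw0)]
      · rw [map_smul, hw, Dinv_Dn g hr]
        apply CU.smul
        unfold CU; simp
    · refine unit_compact.inter_right (isClosed_CU.preimage (Dinv g 0 z).continuous)
    · intro n
      exact unit_compact.isClosed.inter (isClosed_CU.preimage (Dinv g n z).continuous)
  obtain ⟨v, hv⟩ := key
  rw [mem_iInter] at hv
  exact ⟨v, (hv 0).1, fun n => (hv n).2⟩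

lemma indep_span {v w : V} (h : v.1 * w.2 - v.2 * w.1 ≠ 0) (x : V) :
    ∃ s t : ℝ, x = s • v + t • w := by
  refine ⟨(x.1 * w.2 - x.2 * w.1) / (v.1 * w.2 - v.2 * w.1),
    (v.1 * x.2 - v.2 * x.1) / (v.1 * w.2 - v.2 * w.1), ?_⟩
  ext
  · simp only [Prod.fst_add, Prod.smul_fst, smul_eq_mul]
    rw [div_mul_eq_mul_div, div_mul_eq_mul_div, ← add_div, eq_div_iff h]; ring
  · simp only [Prod.snd_add, Prod.smul_snd, smul_eq_mul]
    rw [div_mul_eq_mul_div, div_mul_eq_mul_div, ← add_div, eq_div_iff h]; ring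

lemma tendsto_of_decay {v : ℕ → V} {C : ℝ} (h : ∀ n, ‖v n‖ ≤ (3 / 5) ^ n * C) :
    Tendsto (fun n => ‖v n‖) atTop (𝓝 0) := by
  refine squeeze_zero (fun n => norm_nonneg _) h ?_
  have : Tendsto (fun n : ℕ => ((3 : ℝ) / 5) ^ n) atTop (𝓝 0) :=
    tendsto_pow_atTop_nhds_zero_of_lt_one (by norm_num) (by norm_num)
  simpa using this.mul_const C

/-- A vector of the unstable cone and one of the stable cone are independent. -/
lemma cone_indep {v w u : V} (hu : CU u) (huv : HypStep u v) (hv0 : v ≠ 0) (hw : CS w)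
    (hw0 : w ≠ 0) : v.1 * w.2 - v.2 * w.1 ≠ 0 := by
  have h1 := step_strict huv hu
  have h2 := (stepU huv hu).1
  have hv1 : 0 < |v.1| := by
    rw [← h2.norm]; exact norm_pos_iff.2 hv0
  have hw2 : 0 < |w.2| := by
    rw [← hw.norm]; exact norm_pos_iff.2 hw0
  intro h0
  have h3 : |v.1| * |w.2| = |v.2| * |w.1| := by
    rw [← abs_mul, ← abs_mul]
    congr 1; linarith
  unfold CS at hw
  have h4 : |v.2| * |w.1| ≤ (3 / 25 * |v.1|) * |w.2| :=
    mul_le_mul h1 hw (abs_nonneg _) (by positivity)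
  have h5 : 0 < |v.1| * |w.2| := mul_pos hv1 hw2
  nlinarith

lemma hyp_splitting {g : TorusDiffeo b r} (hr : 1 ≤ r) {z : V} (hF : HypF g z) (hB : HypB g z) :
    IsCompl (EsM g z) (EuM g z) ∧
    (∀ v ∈ EsM g z, ∀ n, ‖Dn g n z v‖ ≤ 1 * (3 / 5) ^ n * ‖v‖) ∧
    (∀ v ∈ EuM g z, ∀ n, ‖Dinv g n z v‖ ≤ 1 * (3 / 5) ^ n * ‖v‖) := by
  have hsCS : ∀ v ∈ EsM g z, ∀ n, CS (Dn g n z v) := fun v hv n =>
    forward_CS (fun n => hF.step hr v n) hv n
  have huCU : ∀ v ∈ EuM g z, ∀ n, CU (Dinv g n z v) := fun v hv n =>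
    backward_CU (fun n => hB.step hr v n) hv n
  have e0 : ∀ v, Dn g 0 z v = v := fun v => by simp [Dn]
  have e0' : ∀ v, Dinv g 0 z v = v := fun v => by simp [Dinv]
  refine ⟨⟨?_, ?_⟩, ?_, ?_⟩
  · rw [Submodule.disjoint_def]
    intro v hs hu
    by_contra hv0
    have h1 := hsCS v hs 0
    rw [e0] at h1
    have h2 := huCU v hu 1
    have h3 := hB.step hr v 0
    rw [e0'] at h3
    have := cone_indep h2 h3 hv0 h1 hv0
    apply this; ring
  · obtain ⟨w, hw1, hw⟩ := exists_stable hr hF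
    obtain ⟨v, hv1, hv⟩ := exists_unstable hr hB
    have hws : w ∈ EsM g z := tendsto_of_decay
      (fun n => forward_decay (fun n => hF.step hr w n) hw n)
    have hvu : v ∈ EuM g z := tendsto_of_decay
      (fun n => backward_decay (fun n => hB.step hr v n) hv n)
    have h3 := hB.step hr v 0
    rw [e0'] at h3
    have hwc := hw 0
    rw [e0] at hwc
    have hv0 : v ≠ 0 := by rintro rfl; simp at hv1
    have hw0 : w ≠ 0 := by rintro rfl; simp at hw1
    have hne := cone_indep (hv 1) h3 hv0 hwc hw0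
    rw [codisjoint_iff, eq_top_iff]
    intro x _
    obtain ⟨s, t, rfl⟩ := indep_span hne x
    exact Submodule.add_mem _ (Submodule.mem_sup_right (Submodule.smul_mem _ _ hvu))
      (Submodule.mem_sup_left (Submodule.smul_mem _ _ hws))
  · intro v hv n
    have := forward_decay (fun n => hF.step hr v n) (hsCS v hv) n
    rw [e0] at this
    linarith
  · intro v hv n
    have := backward_decay (fun n => hB.step hr v n) (huCU v hv) n
    rw [e0'] at this
    linarith

end Pool.Agent.W5h40.NH
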