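import Pool.Agent.W5h40.NH.Geo2

/-!
# Maps close to the model map
-/

open Set Filter Topology MeasureTheory
open scoped ContDiff

namespace Pool.Agent.W5h40.NH

variable {r : ℕ}

/-- `g` is `e`-close to the model map in the `C^1` sense. -/
def Near (e : ℝ) (g : TorusDiffeo b0 r) : Prop :=
  ∀ z, ‖g.toFun z - G0 z‖ ≤ e ∧ ‖fderiv ℝ g.toFun z - fderiv ℝ G0 z‖ ≤ e

/-- the allowed distance -/
noncomputable def ep : ℝ := sg / 1000

lemma ep_pos : 0 < ep := by unfold ep; linarith [sg_pos]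

lemma ep_le : ep ≤ 1 / 1000000 := by unfold ep; linarith [sg_le]

lemma Near.mono {e e' : ℝ} (h : e ≤ e') {g : TorusDiffeo b0 r} (hg : Near e g) : Near e' g :=
  fun z => ⟨(hg z).1.trans h, (hg z).2.trans h⟩

lemma abs_fst_le (v : V) : |v.1| ≤ ‖v‖ := by
  rw [← Real.norm_eq_abs]; exact norm_fst_le v

lemma abs_snd_le (v : V) : |v.2| ≤ ‖v‖ := by
  rw [← Real.norm_eq_abs]; exact norm_snd_le v

variable {g : TorusDiffeo b0 r}

lemma Near.fst (h : Near ep g) (z : V) : |(g.toFun z).1 - (G0 z).1| ≤ ep :=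
  (abs_fst_le (g.toFun z - G0 z)).trans (h z).1

lemma Near.snd (h : Near ep g) (z : V) : |(g.toFun z).2 - (G0 z).2| ≤ ep :=
  (abs_snd_le (g.toFun z - G0 z)).trans (h z).1

lemma Near.d (h : Near ep g) (z v : V) :
    ‖fderiv ℝ g.toFun z v - fderiv ℝ G0 z v‖ ≤ ep * ‖v‖ := by
  have := (fderiv ℝ g.toFun z - fderiv ℝ G0 z).le_opNorm v
  exact this.trans (mul_le_mul_of_nonneg_right (h z).2 (norm_nonneg _))

lemma Near.lip (h : Near ep g) (hr : 1 ≤ r) (a b : V) :
    ‖(g.toFun b - g.toFun a) - (G0 b - G0 a)‖ ≤ ep * ‖b - a‖ := by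
  have h1 : ‖(g.toFun b - G0 b) - (g.toFun a - G0 a)‖ ≤ ep * ‖b - a‖ := by
    refine Convex.norm_image_sub_le_of_norm_fderiv_le (𝕜 := ℝ)
      (f := fun z => g.toFun z - G0 z) (s := univ) (fun z _ => ?_) (fun z _ => ?_)
      convex_univ (mem_univ _) (mem_univ _)
    · exact ((diff_toFun g hr) z).sub (G0_diff z)
    · rw [fderiv_fun_sub ((diff_toFun g hr) z) (G0_diff z)]
      exact (h z).2
  have e : (g.toFun b - g.toFun a) - (G0 b - G0 a) = (g.toFun b - G0 b) - (g.toFun a - G0 a) := by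
    abel
  rw [e]; exact h1

lemma Near.add (h : Near ep g) (z : V) {γ : V} (hγ : γ ∈ Lat b0) :
    g.toFun (z + γ) = g.toFun z + D0 γ := by
  have h1 : g.toFun (z + γ) - g.toFun z - D0 γ ∈ Lat b0 :=
    sub_mem (g.lattice z γ hγ) (D0_lat hγ)
  have h2 : g.toFun (z + γ) - g.toFun z - D0 γ =
      (g.toFun (z + γ) - G0 (z + γ)) - (g.toFun z - G0 z) := by
    rw [G0_add z hγ]; abel
  have h3 : ‖g.toFun (z + γ) - g.toFun z - D0 γ‖ ≤ 1 / 10 := by
    rw [h2]
    have := norm_sub_le (g.toFun (z + γ) - G0 (z + γ)) (g.toFun z - G0 z)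
    linarith [(h (z + γ)).1, (h z).1, ep_le]
  have h4 := lat_zero' h1 ((abs_fst_le _).trans h3) ((abs_snd_le _).trans h3) (by norm_num)
  have h5 := sub_eq_zero.1 h4
  rw [← h5]; abel

lemma RR_stepg (h : Near ep g) {z : V} (hz : z ∈ RR) {γ : V} (hγ : γ ∈ Lat b0) :
    7 / 5 ≤ |(g.toFun z).1 - γ.1| ∨ 33 / 10 * sg ≤ |(g.toFun z).2 - γ.2| := by
  have h0 := sg_pos
  have he : ep = sg / 1000 := rfl
  have he2 := ep_le
  rcases RR_step hz hγ with h1 | h1
  · left
    have h2 := h.fst z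
    have h3 := abs_sub_abs_le_abs_sub ((G0 z).1 - γ.1) ((g.toFun z).1 - γ.1)
    have e : (G0 z).1 - γ.1 - ((g.toFun z).1 - γ.1) = -((g.toFun z).1 - (G0 z).1) := by ring
    rw [e, abs_neg] at h3
    linarith
  · right
    have h2 := h.snd z
    have h3 := abs_sub_abs_le_abs_sub ((G0 z).2 - γ.2) ((g.toFun z).2 - γ.2)
    have e : (G0 z).2 - γ.2 - ((g.toFun z).2 - γ.2) = -((g.toFun z).2 - (G0 z).2) := by ring
    rw [e, abs_neg] at h3
    linarith

lemma RR_map (h : Near ep g) {z : V} (hz : z ∈ RR) : g.toFun z ∈ RR := by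
  intro γ hγ
  rcases RR_stepg h hz hγ with h1 | h1
  · left; linarith
  · right; linarith [sg_pos]

lemma RR_iter (h : Near ep g) {z : V} (hz : z ∈ RR) (n : ℕ) : g.toFun^[n] z ∈ RR := by
  induction n with
  | zero => exact hz
  | succ n ih => rw [Function.iterate_succ_apply']; exact RR_map h ih

lemma GG_hyp (h : Near ep g) {z : V} (hz : z ∈ GG) (v : V) :
    HypStep v (fderiv ℝ g.toFun z v) := by
  obtain ⟨h1, h2⟩ := GG_fderiv hz v
  have h3 := h.d z v
  have h4 := (abs_fst_le _).trans h3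
  have h5 := (abs_snd_le _).trans h3
  have h6 := ep_le
  have hv1 := abs_fst_le v
  have hv2 := abs_snd_le v
  have hv0 := norm_nonneg v
  obtain ⟨hn1, hn2⟩ := nu_bounds
  simp only [Prod.fst_sub, Prod.snd_sub] at h4 h5
  constructor
  · rw [← h1]
    refine h4.trans ?_
    nlinarith
  · have h7 := abs_sub_abs_le_abs_sub (fderiv ℝ g.toFun z v).2 (fderiv ℝ G0 z v).2
    have h8 : |v.2| + 84 / 1000 * |v.1| ≤ 1084 / 1000 * ‖v‖ := by linarith
    have h9 : nu * (|v.2| + 84 / 1000 * |v.1|) ≤ nu * (1084 / 1000 * ‖v‖) :=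
      mul_le_mul_of_nonneg_left h8 (by linarith)
    nlinarith

lemma box_hyp (h : Near ep g) {z : V} (h1 : |z.1| < 39 / 100) (h2 : |z.2| < sg) (v : V) :
    HypStep v (fderiv ℝ g.toFun z v) := by
  have e := G0_lin_fderiv h1 h2 v
  have h3 := h.d z v
  have h4 := (abs_fst_le _).trans h3
  have h5 := (abs_snd_le _).trans h3
  have h6 := ep_le
  have hv2 := abs_snd_le v
  have hv0 := norm_nonneg v
  rw [e] at h4 h5
  simp only [Prod.fst_sub, Prod.snd_sub] at h4 h5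
  constructor
  · refine h4.trans ?_
    nlinarith
  · have h7 := abs_sub_abs_le_abs_sub (fderiv ℝ g.toFun z v).2 (v.2 / 2)
    have h8 : |v.2 / 2| = |v.2| / 2 := by rw [abs_div, abs_of_pos (by norm_num : (0 : ℝ) < 2)]
    nlinarith

lemma flip_hyp (h : Near ep g) {z : V} (h1 : sq2 (z - cc) < r1 ^ 2 / 4) (v : V) :
    HypStep v (-fderiv ℝ g.toFun z v) := by
  have e := G0_flip_fderiv h1 v
  have h3 := h.d z v
  have h4 := (abs_fst_le _).trans h3
  have h5 := (abs_snd_le _).trans h3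
  have h6 := ep_le
  have hv2 := abs_snd_le v
  have hv0 := norm_nonneg v
  rw [e] at h4 h5
  simp only [Prod.fst_sub, Prod.snd_sub] at h4 h5
  unfold HypStep
  simp only [Prod.fst_neg, Prod.snd_neg]
  constructor
  · have e1 : -(fderiv ℝ g.toFun z v).1 - lam * v.1 =
        -((fderiv ℝ g.toFun z v).1 - -(lam * v.1)) := by ring
    rw [e1, abs_neg]
    refine h4.trans ?_
    nlinarith
  · have h7 := abs_sub_abs_le_abs_sub (fderiv ℝ g.toFun z v).2 (-(v.2 / 2))
    have h8 : |-(v.2 / 2)| = |v.2| / 2 := by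
      rw [abs_neg, abs_div, abs_of_pos (by norm_num : (0 : ℝ) < 2)]
    rw [abs_neg]
    nlinarith

lemma box_map (h : Near ep g) {z : V} (h1 : |z.1| ≤ 39 / 100) (h2 : |z.2| ≤ sg) :
    |(g.toFun z).1 - lam * z.1| ≤ ep ∧ |(g.toFun z).2 - z.2 / 2| ≤ ep := by
  have h3 := h.fst z
  have h4 := h.snd z
  rw [G0_lin h1 h2] at h3 h4
  exact ⟨h3, h4⟩

/-! ### Finite differences -/

lemma FD_step (h : Near ep g) (hr : 1 ≤ r) {a b : V} (ha : a ∈ RR) (hb : b ∈ RR)
    (h1 : |(b - a).1| ≤ 50 * sg) (h2 : |(b - a).2| ≤ 21 / 10 * sg) :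
    HypStep (b - a) (g.toFun b - g.toFun a) ∧ |(g.toFun b - g.toFun a).2| ≤ 21 / 10 * sg := by
  have h0 := sg_pos
  have hs := sg_le
  have h3 := h.lip hr a b
  have h4 := (abs_fst_le _).trans h3
  have h5 := (abs_snd_le _).trans h3
  have h6 := ep_le
  have hv1 := abs_fst_le (b - a)
  have hv2 := abs_snd_le (b - a)
  have hv0 := norm_nonneg (b - a)
  have hvn : ‖b - a‖ ≤ 50 * sg := by
    rw [Prod.norm_def, Real.norm_eq_abs, Real.norm_eq_abs]
    exact max_le h1 (by linarith)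
  obtain ⟨hn1, hn2⟩ := nu_bounds
  have hseg : ∀ s : ℝ, 0 ≤ s → s ≤ 1 → a + s • (b - a) ∈ GG := fun s hs0 hs1 =>
    seg_GG ha hb (by
      have : |b.1 - a.1| ≤ 50 * sg := h1
      linarith) h2 hs0 hs1
  have h7 := FD0 hseg
  have h7' : |(G0 b - G0 a).2| ≤ nu * (|(b - a).2| + 84 / 1000 * |(b - a).1|) := h7
  have h8 : (G0 b - G0 a).1 = lam * (b - a).1 := by
    simp only [Prod.fst_sub]
    rw [GG_fst (RR_sub_GG ha), GG_fst (RR_sub_GG hb)]; ring
  rw [Prod.fst_sub (g.toFun b - g.toFun a), h8] at h4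
  rw [Prod.snd_sub (g.toFun b - g.toFun a)] at h5
  have h9 := abs_sub_abs_le_abs_sub (g.toFun b - g.toFun a).2 (G0 b - G0 a).2
  refine ⟨⟨?_, ?_⟩, ?_⟩
  · refine h4.trans ?_
    nlinarith
  · have h10 : |(b - a).2| + 84 / 1000 * |(b - a).1| ≤ 1084 / 1000 * ‖b - a‖ := by linarith
    have h11 : nu * (|(b - a).2| + 84 / 1000 * |(b - a).1|) ≤ nu * (1084 / 1000 * ‖b - a‖) :=
      mul_le_mul_of_nonneg_left h10 (by linarith)
    nlinarith
  · have h10 : |(b - a).2| + 84 / 1000 * |(b - a).1| ≤ 63 / 10 * sg := by linarith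
    have h11 : nu * (|(b - a).2| + 84 / 1000 * |(b - a).1|) ≤ nu * (63 / 10 * sg) :=
      mul_le_mul_of_nonneg_left h10 (by linarith)
    nlinarith

lemma FD_sep (h : Near ep g) {a b : V} (ha : a ∈ RR) (hb : b ∈ RR)
    (h1 : 50 * sg ≤ b.1 - a.1) : 50 * sg ≤ (g.toFun b).1 - (g.toFun a).1 := by
  have h0 := sg_pos
  have he : ep = sg / 1000 := rfl
  have h2 := abs_le.1 (h.fst a)
  have h3 := abs_le.1 (h.fst b)
  rw [GG_fst (RR_sub_GG ha)] at h2
  rw [GG_fst (RR_sub_GG hb)] at h3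
  have h4 := lam_bounds.1
  nlinarith

lemma FD_sep_iter (h : Near ep g) {a b : V} (ha : a ∈ RR) (hb : b ∈ RR)
    (h1 : 50 * sg ≤ b.1 - a.1) (n : ℕ) :
    50 * sg ≤ (g.toFun^[n] b).1 - (g.toFun^[n] a).1 := by
  induction n with
  | zero => exact h1
  | succ n ih =>
    rw [Function.iterate_succ_apply', Function.iterate_succ_apply']
    exact FD_sep h (RR_iter h ha n) (RR_iter h hb n) ih

lemma chain {d : ℕ → V} {n : ℕ} (h : ∀ j < n, HypStep (d j) (d (j + 1))) (hn : CS (d n)) :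
    ∀ j ≤ n, CS (d j) ∧ ‖d j‖ ≤ (3 / 5) ^ j * ‖d 0‖ := by
  have h1 : ∀ k ≤ n, CS (d (n - k)) := by
    intro k
    induction k with
    | zero => intro _; simpa using hn
    | succ k ih =>
      intro hk
      have h2 := ih (by omega)
      have h3 := h (n - (k + 1)) (by omega)
      have e : n - (k + 1) + 1 = n - k := by omega
      rw [e] at h3
      exact (stepS h3 h2).1
  have h2 : ∀ j ≤ n, CS (d j) := by
    intro j hj
    have := h1 (n - j) (by omega)
    rwa [Nat.sub_sub_self hj] at this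
  intro j hj
  refine ⟨h2 j hj, ?_⟩
  induction j with
  | zero => simp
  | succ j ih =>
    have h3 := (stepS (h j (by omega)) (h2 (j + 1) hj)).2
    have h4 := ih (by omega)
    rw [pow_succ]
    linarith

lemma strip_step (h : Near ep g) (hr : 1 ≤ r) {a b : V} (ha1 : 1 ≤ a.1) (ha2 : a.1 ≤ 295 / 100)
    (ha3 : |a.2| ≤ 4 * sg) (hb1 : 1 ≤ b.1) (hb2 : b.1 ≤ 295 / 100) (hb3 : |b.2| ≤ 4 * sg) :
    HypStep (b - a) (g.toFun b - g.toFun a) ∧ |(g.toFun b - g.toFun a).2| ≤ 21 / 10 * sg := by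
  have h0 := sg_pos
  have hs := sg_le
  have he : ep = sg / 1000 := rfl
  have h3 := h.lip hr a b
  have h4 := (abs_fst_le _).trans h3
  have h5 := (abs_snd_le _).trans h3
  have h6 := ep_le
  have hv1 := abs_fst_le (b - a)
  have hv2 := abs_snd_le (b - a)
  have hv0 := norm_nonneg (b - a)
  have hb2' : |(b - a).2| ≤ 8 * sg := by
    have := abs_sub b.2 a.2
    simp only [Prod.snd_sub]
    linarith
  have hvn : ‖b - a‖ ≤ 2 := by
    rw [Prod.norm_def, Real.norm_eq_abs, Real.norm_eq_abs]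
    refine max_le ?_ (by linarith)
    simp only [Prod.fst_sub]
    exact abs_le.2 ⟨by linarith, by linarith⟩
  obtain ⟨hn1, hn2⟩ := nu_bounds
  have h7 : G0 b - G0 a = D0 (b - a) := by
    rw [strip_lin ha1 ha2 ha3, strip_lin hb1 hb2 hb3, D0_sub]
  rw [h7] at h4 h5
  rw [Prod.fst_sub (g.toFun b - g.toFun a)] at h4
  rw [Prod.snd_sub (g.toFun b - g.toFun a)] at h5
  have h9 := abs_sub_abs_le_abs_sub (g.toFun b - g.toFun a).2 (D0 (b - a)).2
  have h10 : |(D0 (b - a)).2| = nu * |(b - a).2| := by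
    unfold D0; rw [abs_mul, abs_of_pos nu_pos]
  rw [h10] at h9
  refine ⟨⟨?_, ?_⟩, ?_⟩
  · refine h4.trans ?_
    nlinarith
  · nlinarith
  · nlinarith

lemma match_chain (h : Near ep g) (hr : 1 ≤ r) {a b : V} (ha1 : 1 ≤ a.1) (ha2 : a.1 ≤ 295 / 100)
    (ha3 : |a.2| ≤ 4 * sg) (hb1 : 1 ≤ b.1) (hb2 : b.1 ≤ 295 / 100) (hb3 : |b.2| ≤ 4 * sg)
    {n : ℕ} (he : (g.toFun^[n] b).1 = (g.toFun^[n] a).1) :
    ∀ j ≤ n, CS (g.toFun^[j] b - g.toFun^[j] a) ∧
      ‖g.toFun^[j] b - g.toFun^[j] a‖ ≤ (3 / 5) ^ j * ‖b - a‖ := by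
  have h0 := sg_pos
  have ha := strip_RR ha1 ha2 ha3
  have hb := strip_RR hb1 hb2 hb3
  have hsmall : ∀ j ≤ n, |(g.toFun^[j] b - g.toFun^[j] a).1| ≤ 50 * sg := by
    intro j hj
    by_contra hcon
    have hcon := not_le.1 hcon
    obtain ⟨k, rfl⟩ := Nat.exists_eq_add_of_le hj
    rw [add_comm, Function.iterate_add_apply, Function.iterate_add_apply] at he
    simp only [Prod.fst_sub] at hcon
    rcases lt_abs.1 hcon with h1 | h1
    · have := FD_sep_iter h (RR_iter h ha j) (RR_iter h hb j) h1.le k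
      linarith
    · have := FD_sep_iter h (RR_iter h hb j) (RR_iter h ha j) (by linarith) k
      linarith
  have hst : ∀ j < n, HypStep (g.toFun^[j] b - g.toFun^[j] a)
      (g.toFun^[j + 1] b - g.toFun^[j + 1] a) ∧
      |(g.toFun^[j + 1] b - g.toFun^[j + 1] a).2| ≤ 21 / 10 * sg := by
    intro j
    induction j with
    | zero =>
      intro _
      exact strip_step h hr ha1 ha2 ha3 hb1 hb2 hb3
    | succ j ih =>
      intro hj
      have h1 := (ih (by omega)).2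
      have h2 := hsmall (j + 1) (by omega)
      have h3 := FD_step h hr (RR_iter h ha (j + 1)) (RR_iter h hb (j + 1)) h2 h1
      rw [Function.iterate_succ_apply' _ (j + 1), Function.iterate_succ_apply' _ (j + 1)]
      exact h3
  have hCS : CS (g.toFun^[n] b - g.toFun^[n] a) := by
    unfold CS
    simp only [Prod.fst_sub]
    rw [he, sub_self, abs_zero]
    exact abs_nonneg _
  exact chain (d := fun j => g.toFun^[j] b - g.toFun^[j] a) (fun j hj => (hst j hj).1) hCS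

end Pool.Agent.W5h40.NH
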