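import Pool.Agent.W5h40.NH.Prof

/-!
# The lattice and periodic extensions
-/

open Set Filter Topology MeasureTheory
open scoped ContDiff

namespace Pool.Agent.W5h40.NH

/-- The contraction factor. -/
noncomputable def nu : ℝ := 3 - 2 * Real.sqrt 2

lemma nu_bounds : 0.17 < nu ∧ nu < 0.172 := by
  unfold nu
  obtain ⟨h1, h2⟩ := sqrt2_bounds
  constructor <;> linarith

lemma sqrt2_sq : Real.sqrt 2 * Real.sqrt 2 = 2 := Real.mul_self_sqrt (by norm_num)

lemma lam_nu : lam * nu = 1 := by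
  unfold lam nu
  nlinarith [sqrt2_sq]

lemma sqrt2_pos : 0 < Real.sqrt 2 := by linarith [sqrt2_bounds.1]

lemma b0_indep : LinearIndependent ℝ ![((1 : ℝ), (1 : ℝ)), (Real.sqrt 2, -Real.sqrt 2)] := by
  rw [LinearIndependent.pair_iff]
  intro s t h
  have h1 := congrArg Prod.fst h
  have h2 := congrArg Prod.snd h
  simp at h1 h2
  have h3 := sqrt2_pos
  constructor
  · linarith
  · have : t * Real.sqrt 2 = 0 := by linarith
    rcases mul_eq_zero.1 this with h | h
    · exact h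
    · exact absurd h h3.ne'

/-- The basis of the lattice. -/
noncomputable def b0 : Module.Basis (Fin 2) ℝ V :=
  basisOfLinearIndependentOfCardEqFinrank b0_indep (by simp)

lemma b0_coe : (b0 : Fin 2 → V) = ![((1 : ℝ), (1 : ℝ)), (Real.sqrt 2, -Real.sqrt 2)] :=
  coe_basisOfLinearIndependentOfCardEqFinrank _ _

lemma mem_Lat {γ : V} : γ ∈ Lat b0 ↔
    ∃ m n : ℤ, γ = (m + n * Real.sqrt 2, m - n * Real.sqrt 2) := by
  unfold Lat
  rw [Submodule.mem_toAddSubgroup, b0_coe, Submodule.mem_span_range_iff_exists_fun]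
  constructor
  · rintro ⟨c, hc⟩
    refine ⟨c 0, c 1, ?_⟩
    rw [← hc, Fin.sum_univ_two]
    refine Prod.ext ?_ ?_
    · simp only [Matrix.cons_val_zero, Matrix.cons_val_one, Prod.fst_add, Prod.smul_fst]
      simp only [zsmul_eq_mul, mul_one]
    · simp only [Matrix.cons_val_zero, Matrix.cons_val_one, Prod.snd_add, Prod.smul_snd]
      simp only [zsmul_eq_mul, mul_one]
      ring
  · rintro ⟨m, n, rfl⟩
    refine ⟨![m, n], ?_⟩
    rw [Fin.sum_univ_two]
    refine Prod.ext ?_ ?_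
    · simp only [Matrix.cons_val_zero, Matrix.cons_val_one, Prod.fst_add, Prod.smul_fst]
      simp only [zsmul_eq_mul, mul_one]
    · simp only [Matrix.cons_val_zero, Matrix.cons_val_one, Prod.snd_add, Prod.smul_snd]
      simp only [zsmul_eq_mul, mul_one]
      ring

/-- The norm form of the lattice. -/
lemma lat_zero {γ : V} (hγ : γ ∈ Lat b0) (h : |γ.1| * |γ.2| < 1) : γ = 0 := by
  obtain ⟨m, n, rfl⟩ := mem_Lat.1 hγ
  simp only at h
  have e : ((m : ℝ) + n * Real.sqrt 2) * (m - n * Real.sqrt 2) = ((m ^ 2 - 2 * n ^ 2 : ℤ) : ℝ) := by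
    push_cast
    nlinarith [sqrt2_sq]
  rw [← abs_mul, e, ← Int.cast_abs] at h
  have h2 : |m ^ 2 - 2 * n ^ 2| < 1 := by exact_mod_cast h
  have h3 : m ^ 2 - 2 * n ^ 2 = 0 := Int.abs_lt_one_iff.1 h2
  have hn : n = 0 := by
    by_contra hn
    have h4 : (m : ℝ) ^ 2 = 2 * (n : ℝ) ^ 2 := by
      have : m ^ 2 = 2 * n ^ 2 := by linarith
      exact_mod_cast this
    have hn' : (n : ℝ) ≠ 0 := by exact_mod_cast hn
    have h5 : ((m : ℝ) / n) ^ 2 = 2 := by
      rw [div_pow, h4]; field_simp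
    have h6 : Real.sqrt 2 = |(m : ℝ) / n| := by
      rw [← h5, Real.sqrt_sq_eq_abs]
    have h7 : Irrational (Real.sqrt 2) := irrational_sqrt_two
    apply h7
    refine ⟨|(m : ℚ) / n|, ?_⟩
    rw [h6]; push_cast; rfl
  subst hn
  have hm : m = 0 := by
    have : m ^ 2 = 0 := by linarith
    exact pow_eq_zero_iff (two_ne_zero) |>.1 this
  subst hm
  ext <;> simp

lemma lat_zero' {γ : V} (hγ : γ ∈ Lat b0) {A B : ℝ} (h1 : |γ.1| ≤ A) (h2 : |γ.2| ≤ B)
    (h : A * B < 1) : γ = 0 := by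
  refine lat_zero hγ (lt_of_le_of_lt ?_ h)
  exact mul_le_mul h1 h2 (abs_nonneg _) ((abs_nonneg _).trans h1)

/-- The linear map. -/
noncomputable def D0 (z : V) : V := (lam * z.1, nu * z.2)

/-- Its inverse. -/
noncomputable def D0i (z : V) : V := (nu * z.1, lam * z.2)

lemma D0_D0i (z : V) : D0 (D0i z) = z := by
  unfold D0 D0i
  ext
  · simp only; rw [← mul_assoc, lam_nu, one_mul]
  · simp only; rw [← mul_assoc, mul_comm nu, lam_nu, one_mul]

lemma D0i_D0 (z : V) : D0i (D0 z) = z := by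
  unfold D0 D0i
  ext
  · simp only; rw [← mul_assoc, mul_comm nu, lam_nu, one_mul]
  · simp only; rw [← mul_assoc, lam_nu, one_mul]

lemma D0_add (z w : V) : D0 (z + w) = D0 z + D0 w := by
  unfold D0; ext <;> simp <;> ring

lemma D0i_add (z w : V) : D0i (z + w) = D0i z + D0i w := by
  unfold D0i; ext <;> simp <;> ring

lemma D0_lat {γ : V} (h : γ ∈ Lat b0) : D0 γ ∈ Lat b0 := by
  obtain ⟨m, n, rfl⟩ := mem_Lat.1 h
  rw [mem_Lat]
  refine ⟨3 * m + 4 * n, 2 * m + 3 * n, ?_⟩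
  unfold D0 lam nu
  ext
  · simp only; push_cast; linear_combination (2 * (n : ℝ)) * sqrt2_sq
  · simp only; push_cast; linear_combination (2 * (n : ℝ)) * sqrt2_sq

lemma D0i_lat {γ : V} (h : γ ∈ Lat b0) : D0i γ ∈ Lat b0 := by
  obtain ⟨m, n, rfl⟩ := mem_Lat.1 h
  rw [mem_Lat]
  refine ⟨3 * m - 4 * n, 3 * n - 2 * m, ?_⟩
  unfold D0i lam nu
  ext
  · simp only; push_cast; linear_combination (-2 * (n : ℝ)) * sqrt2_sq
  · simp only; push_cast; linear_combination (-2 * (n : ℝ)) * sqrt2_sq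

lemma D0_smooth : ContDiff ℝ ∞ D0 := by unfold D0; fun_prop

lemma D0i_smooth : ContDiff ℝ ∞ D0i := by unfold D0i; fun_prop

/-- The box of half sizes `A`, `B`. -/
def BX (A B : ℝ) : Set V := {w | |w.1| ≤ A ∧ |w.2| ≤ B}

lemma BX_closed (A B : ℝ) : IsClosed (BX A B) := by
  unfold BX
  exact (isClosed_le (continuous_abs.comp continuous_fst) continuous_const).inter
    (isClosed_le (continuous_abs.comp continuous_snd) continuous_const)

lemma BX_compact (A B : ℝ) : IsCompact (BX A B) := by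
  refine Metric.isCompact_of_isClosed_isBounded (BX_closed A B) ?_
  refine (Metric.isBounded_iff_subset_closedBall 0).2 ⟨max A B, fun w hw => ?_⟩
  rw [mem_closedBall_zero_iff, Prod.norm_def]
  exact max_le_max hw.1 hw.2

/-- the translates of the box -/
def TBX (A B : ℝ) : Set V := {z | ∃ γ ∈ Lat b0, z - γ ∈ BX A B}

lemma TBX_closed (A B : ℝ) : IsClosed (TBX A B) := by
  have h1 : IsClosed (Lat b0 : Set V) := AddSubgroup.isClosed_of_discrete
  have h2 := h1.add_left_of_isCompact (BX_compact A B)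
  convert h2 using 1
  ext z
  constructor
  · rintro ⟨γ, hγ, hz⟩
    exact ⟨z - γ, hz, γ, hγ, by simp⟩
  · rintro ⟨w, hw, γ, hγ, rfl⟩
    exact ⟨γ, hγ, by simpa using hw⟩

/-- The vertical scale of the support. -/
structure SmallScale (H : ℝ) : Prop where
  pos : 0 < H
  lt : H < 1 / 6

open Classical in
/-- The periodic extension of a map supported in `BX (3/4) H`. -/
noncomputable def per (H : ℝ) (φ : V → V) (z : V) : V :=
  if h : ∃ γ ∈ Lat b0, z - γ ∈ BX (3 / 4) H then φ (z - h.choose) + h.choose else z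

variable {H : ℝ} {φ ψ : V → V}

lemma per_eq (hH : SmallScale H) (hφ : ∀ w, w ∉ BX (3 / 4) H → φ w = w) {z γ : V}
    (hγ : γ ∈ Lat b0) (hz : z - γ ∈ BX 1 (2 * H)) : per H φ z = φ (z - γ) + γ := by
  unfold per
  split_ifs with h
  · have h1 := h.choose_spec
    set κ := h.choose
    have e : κ - γ = 0 := by
      refine lat_zero' (sub_mem h1.1 hγ) (A := 7 / 4) (B := 3 * H) ?_ ?_ ?_
      · have e2 : (κ - γ).1 = (z - γ).1 - (z - κ).1 := by simp
        rw [e2]
        have := abs_sub (z - γ).1 (z - κ).1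
        linarith [hz.1, h1.2.1]
      · have e2 : (κ - γ).2 = (z - γ).2 - (z - κ).2 := by simp
        rw [e2]
        have := abs_sub (z - γ).2 (z - κ).2
        linarith [hz.2, h1.2.2]
      · have := hH.lt; linarith
    rw [sub_eq_zero.1 e]
  · have h1 : z - γ ∉ BX (3 / 4) H := fun h2 => h ⟨γ, hγ, h2⟩
    rw [hφ _ h1]; simp

lemma per_id {z : V} (hz : z ∉ TBX (3 / 4) H) : per H φ z = z := by
  have hz' : ¬ ∃ γ ∈ Lat b0, z - γ ∈ BX (3 / 4) H := hz
  unfold per
  rw [dif_neg hz']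

lemma BX_sub (hH : SmallScale H) {w : V} (hw : w ∈ BX (3 / 4) H) : w ∈ BX 1 (2 * H) :=
  ⟨hw.1.trans (by norm_num), hw.2.trans (by linarith [hH.pos])⟩

lemma per_add (hH : SmallScale H) (hφ : ∀ w, w ∉ BX (3 / 4) H → φ w = w) (z : V) {γ : V}
    (hγ : γ ∈ Lat b0) : per H φ (z + γ) = per H φ z + γ := by
  by_cases h : z ∈ TBX (3 / 4) H
  · obtain ⟨κ, hκ, hz⟩ := h
    rw [per_eq hH hφ hκ (BX_sub hH hz), per_eq hH hφ (add_mem hκ hγ) (z := z + γ) (by
      rw [add_sub_add_right_eq_sub]; exact BX_sub hH hz)]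
    rw [add_sub_add_right_eq_sub]; abel
  · rw [per_id h, per_id]
    rintro ⟨κ, hκ, hz⟩
    refine h ⟨κ - γ, sub_mem hκ hγ, ?_⟩
    have : z - (κ - γ) = z + γ - κ := by abel
    rw [this]; exact hz

lemma per_inv (hH : SmallScale H) (hφ : ∀ w, w ∉ BX (3 / 4) H → φ w = w)
    (hψ : ∀ w, w ∉ BX (3 / 4) H → ψ w = w) (hinv : ∀ w, ψ (φ w) = w) (z : V) :
    per H ψ (per H φ z) = z := by
  by_cases h : z ∈ TBX (3 / 4) H
  · obtain ⟨κ, hκ, hz⟩ := h
    rw [per_eq hH hφ hκ (BX_sub hH hz)]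
    have h1 : φ (z - κ) ∈ BX (3 / 4) H := by
      by_contra h2
      have h3 := hψ _ h2
      rw [hinv] at h3
      rw [← h3] at h2
      exact h2 hz
    rw [per_eq hH hψ hκ (z := φ (z - κ) + κ) (by rw [add_sub_cancel_right]; exact BX_sub hH h1),
      add_sub_cancel_right, hinv]
    simp
  · rw [per_id h, per_id h]

lemma int_BX {A B A' B' : ℝ} (hA : A < A') (hB : B < B') {w : V} (hw : w ∈ BX A B) :
    BX A' B' ∈ 𝓝 w := by
  have : {w : V | |w.1| < A' ∧ |w.2| < B'} ∈ 𝓝 w := by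
    refine (IsOpen.inter (isOpen_lt (continuous_abs.comp continuous_fst) continuous_const)
      (isOpen_lt (continuous_abs.comp continuous_snd) continuous_const)).mem_nhds ⟨?_, ?_⟩
    · exact lt_of_le_of_lt hw.1 hA
    · exact lt_of_le_of_lt hw.2 hB
  exact Filter.mem_of_superset this fun w hw => ⟨hw.1.le, hw.2.le⟩

/-- local formula for the periodic extension -/
lemma per_eventually (hH : SmallScale H) (hφ : ∀ w, w ∉ BX (3 / 4) H → φ w = w) {z γ : V}
    (hγ : γ ∈ Lat b0) (hz : z - γ ∈ BX (3 / 4) H) :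
    per H φ =ᶠ[𝓝 z] fun w => φ (w - γ) + γ := by
  have h1 : BX 1 (2 * H) ∈ 𝓝 (z - γ) := int_BX (by norm_num) (by linarith [hH.pos]) hz
  have h2 : ∀ᶠ w in 𝓝 z, w - γ ∈ BX 1 (2 * H) :=
    (continuous_id.sub continuous_const).continuousAt.eventually h1
  filter_upwards [h2] with w hw
  exact per_eq hH hφ hγ hw

lemma per_eventually_id {z : V} (hz : z ∉ TBX (3 / 4) H) : per H φ =ᶠ[𝓝 z] id := by
  have h1 : (TBX (3 / 4) H)ᶜ ∈ 𝓝 z := (TBX_closed _ _).isOpen_compl.mem_nhds hz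
  filter_upwards [h1] with w hw
  exact per_id hw

lemma per_smooth (hH : SmallScale H) (hφ : ∀ w, w ∉ BX (3 / 4) H → φ w = w)
    (hs : ContDiff ℝ ∞ φ) : ContDiff ℝ ∞ (per H φ) := by
  rw [contDiff_iff_contDiffAt]
  intro z
  by_cases h : z ∈ TBX (3 / 4) H
  · obtain ⟨κ, hκ, hz⟩ := h
    refine ContDiffAt.congr_of_eventuallyEq ?_ (per_eventually hH hφ hκ hz)
    have : ContDiff ℝ ∞ fun w => φ (w - κ) + κ :=
      (hs.comp (contDiff_id.sub contDiff_const)).add contDiff_const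
    exact this.contDiffAt
  · exact ContDiffAt.congr_of_eventuallyEq contDiff_id.contDiffAt (per_eventually_id h)

/-- The diffeomorphism of the torus. -/
noncomputable def mkD (r : ℕ) (hH : SmallScale H) (hφ : ∀ w, w ∉ BX (3 / 4) H → φ w = w)
    (hψ : ∀ w, w ∉ BX (3 / 4) H → ψ w = w) (h1 : ∀ w, ψ (φ w) = w) (h2 : ∀ w, φ (ψ w) = w)
    (hs1 : ContDiff ℝ ∞ φ) (hs2 : ContDiff ℝ ∞ ψ) : TorusDiffeo b0 r where
  toFun z := D0 (per H φ z)
  inv z := per H ψ (D0i z)
  left_inv z := by rw [D0i_D0, per_inv hH hφ hψ h1]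
  right_inv z := by rw [per_inv hH hψ hφ h2, D0_D0i]
  smooth := (D0_smooth.comp (per_smooth hH hφ hs1)).of_le (by exact_mod_cast le_top)
  smooth_inv := ((per_smooth hH hψ hs2).comp D0i_smooth).of_le (by exact_mod_cast le_top)
  lattice z γ hγ := by
    rw [per_add hH hφ z hγ, D0_add, add_sub_cancel_left]
    exact D0_lat hγ
  lattice_inv z γ hγ := by
    rw [D0i_add, per_add hH hψ _ (D0i_lat hγ), add_sub_cancel_left]
    exact D0i_lat hγ

end Pool.Agent.W5h40.NH
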