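import Pool.Agent.W5h40.NH.Per

/-!
# The local map
-/

open Set Filter Topology MeasureTheory
open scoped ContDiff

namespace Pool.Agent.W5h40.NH

/-- The inverse of a smooth bijection with invertible derivatives is smooth. -/
lemma inv_smooth {φ ψ : V → V} (hs : ContDiff ℝ ∞ φ) (h1 : ∀ z, ψ (φ z) = z)
    (h2 : ∀ z, φ (ψ z) = z) (hd : ∀ z v, fderiv ℝ φ z v = 0 → v = 0) : ContDiff ℝ ∞ ψ := by
  have hL : ∀ z, ∃ L : V ≃L[ℝ] V, (L : V →L[ℝ] V) = fderiv ℝ φ z := by
    intro z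
    have hinj : Function.Injective (fderiv ℝ φ z : V →ₗ[ℝ] V) :=
      (injective_iff_map_eq_zero _).2 (hd z)
    refine ⟨(LinearEquiv.ofInjectiveEndo (fderiv ℝ φ z : V →ₗ[ℝ] V)
      hinj).toContinuousLinearEquiv, ?_⟩
    refine ContinuousLinearMap.ext fun v => ?_
    rfl
  choose L hL using hL
  have hder : ∀ z, HasFDerivAt φ (L z : V →L[ℝ] V) z := by
    intro z; rw [hL]
    exact (hs.differentiable (by simp)).differentiableAt.hasFDerivAt
  have hopen : IsOpenMap φ := by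
    rw [isOpenMap_iff_nhds_le]
    intro z
    have hst : HasStrictFDerivAt φ (L z : V →L[ℝ] V) z :=
      hs.contDiffAt.hasStrictFDerivAt' (hder z) (by simp)
    exact (hst.map_nhds_eq_of_equiv).ge
  let e : V ≃ V := ⟨φ, ψ, h1, h2⟩
  let h : V ≃ₜ V := e.toHomeomorphOfContinuousOpen hs.continuous hopen
  exact h.contDiff_symm hder hs

lemma det_formula (L : V →L[ℝ] V) :
    L.det = (L (1, 0)).1 * (L (0, 1)).2 - (L (0, 1)).1 * (L (1, 0)).2 := by
  have := LinearMap.det_toMatrix (Module.Basis.finTwoProd ℝ) (L : V →ₗ[ℝ] V)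
  rw [ContinuousLinearMap.det, ← this, Matrix.det_fin_two]
  simp [LinearMap.toMatrix_apply]

/-! ### The profiles -/

/-- The vertical profile. -/
noncomputable def chi : ℝ → ℝ := exists_profile.choose

lemma chi_spec : ContDiff ℝ ∞ chi ∧ (∀ t, chi (-t) = -chi t) ∧
    (∀ t, -1 / 2 ≤ deriv chi t) ∧ (∀ t, 21 / 10 ≤ |t| → deriv chi t ≤ 0) ∧
    (∀ t, |t| ≤ 1 → chi t = (lam / 2 - 1) * t) ∧ (∀ t, 41 ≤ |t| → chi t = 0) ∧
    (∀ t, 0 < t → t ≤ 11 / 10 → chi t < (lam - 1) * t) ∧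
    (∀ t, 11 / 10 ≤ t → t ≤ 2 → 15 ≤ deriv chi t) ∧
    (∀ t, 2 ≤ t → t ≤ 21 / 10 → (lam - 1) * t < chi t) ∧
    chi 4 ≤ 37 / 2 ∧ 18 ≤ chi (21 / 10) ∧ (∀ t, |chi t| ≤ 84) ∧
    (∀ t, |t| ≤ 2 → 19 / 10 ≤ deriv chi t) ∧ (∀ t, 2 ≤ t → t ≤ 21 / 10 → 15 ≤ chi t) :=
  exists_profile.choose_spec

lemma chi_smooth : ContDiff ℝ ∞ chi := chi_spec.1
lemma chi_odd (t : ℝ) : chi (-t) = -chi t := chi_spec.2.1 t
lemma chi_d1 (t : ℝ) : -1 / 2 ≤ deriv chi t := chi_spec.2.2.1 t
lemma chi_d2 {t : ℝ} (h : 21 / 10 ≤ |t|) : deriv chi t ≤ 0 := chi_spec.2.2.2.1 t h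
lemma chi_lin {t : ℝ} (h : |t| ≤ 1) : chi t = (lam / 2 - 1) * t := chi_spec.2.2.2.2.1 t h
lemma chi_zero {t : ℝ} (h : 41 ≤ |t|) : chi t = 0 := chi_spec.2.2.2.2.2.1 t h
lemma chi_lt {t : ℝ} (h0 : 0 < t) (h : t ≤ 11 / 10) : chi t < (lam - 1) * t :=
  chi_spec.2.2.2.2.2.2.1 t h0 h
lemma chi_d3 {t : ℝ} (h0 : 11 / 10 ≤ t) (h : t ≤ 2) : 15 ≤ deriv chi t :=
  chi_spec.2.2.2.2.2.2.2.1 t h0 h
lemma chi_gt {t : ℝ} (h0 : 2 ≤ t) (h : t ≤ 21 / 10) : (lam - 1) * t < chi t :=
  chi_spec.2.2.2.2.2.2.2.2.1 t h0 h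
lemma chi_4 : chi 4 ≤ 37 / 2 := chi_spec.2.2.2.2.2.2.2.2.2.1
lemma chi_21 : 18 ≤ chi (21 / 10) := chi_spec.2.2.2.2.2.2.2.2.2.2.1
lemma chi_bd (t : ℝ) : |chi t| ≤ 84 := chi_spec.2.2.2.2.2.2.2.2.2.2.2.1 t
lemma chi_d4 {t : ℝ} (h : |t| ≤ 2) : 19 / 10 ≤ deriv chi t :=
  chi_spec.2.2.2.2.2.2.2.2.2.2.2.2.1 t h
lemma chi_gt2 {t : ℝ} (h0 : 2 ≤ t) (h : t ≤ 21 / 10) : 15 ≤ chi t :=
  chi_spec.2.2.2.2.2.2.2.2.2.2.2.2.2 t h0 h

lemma chi_diff : Differentiable ℝ chi := chi_smooth.differentiable (by simp)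

/-- The horizontal profile. -/
noncomputable def rho (x : ℝ) : ℝ := Real.smoothTransition ((9 / 16 - x ^ 2) / (5 / 16))

lemma rho_smooth : ContDiff ℝ ∞ rho :=
  Real.smoothTransition.contDiff.comp (by fun_prop)

lemma rho_diff : Differentiable ℝ rho := rho_smooth.differentiable (by simp)

lemma rho_one {x : ℝ} (h : |x| ≤ 1 / 2) : rho x = 1 := by
  apply Real.smoothTransition.one_of_one_le
  have : x ^ 2 ≤ (1 / 2) ^ 2 := by
    rw [← sq_abs x]; exact pow_le_pow_left₀ (abs_nonneg x) h 2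
  rw [le_div_iff₀ (by norm_num)]
  linarith

lemma rho_zero {x : ℝ} (h : 3 / 4 ≤ |x|) : rho x = 0 := by
  apply Real.smoothTransition.zero_of_nonpos
  have : (3 / 4) ^ 2 ≤ x ^ 2 := by
    rw [← sq_abs x]; exact pow_le_pow_left₀ (by norm_num) h 2
  rw [div_le_iff₀ (by norm_num)]
  linarith

lemma rho_nonneg (x : ℝ) : 0 ≤ rho x := Real.smoothTransition.nonneg _

lemma rho_le_one (x : ℝ) : rho x ≤ 1 := Real.smoothTransition.le_one _

lemma exists_C : ∃ C : ℝ, 1 ≤ C ∧ ∀ x, |deriv rho x| ≤ C := by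
  have hc : Continuous (deriv rho) := rho_smooth.continuous_deriv (by simp)
  obtain ⟨B, hB⟩ := (isCompact_Icc (a := (-1 : ℝ)) (b := 1)).exists_bound_of_continuousOn
    hc.continuousOn
  refine ⟨max B 1, le_max_right _ _, fun x => ?_⟩
  by_cases hx : x ∈ Icc (-1 : ℝ) 1
  · exact (hB x hx).trans (le_max_left _ _)
  · have h1 : 1 < |x| := by
      by_contra h
      exact hx (abs_le.1 (not_lt.1 h))
    have h2 : rho =ᶠ[𝓝 x] fun _ => 0 := by
      have : ∀ᶠ y in 𝓝 x, 1 < |y| := continuous_abs.continuousAt.eventually_const_lt h1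
      filter_upwards [this] with y hy
      exact rho_zero (by linarith)
    rw [h2.deriv_eq]
    simp

/-- The bound of the derivative of `rho`. -/
noncomputable def Cr : ℝ := exists_C.choose

lemma Cr_one : 1 ≤ Cr := exists_C.choose_spec.1

lemma rho_d (x : ℝ) : |deriv rho x| ≤ Cr := exists_C.choose_spec.2 x

/-- The vertical scale. -/
noncomputable def sg : ℝ := 1 / (1000 * Cr)

lemma sg_pos : 0 < sg := by
  have := Cr_one
  unfold sg; positivity

lemma Cr_sg : Cr * sg = 1 / 1000 := by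
  have := Cr_one
  unfold sg; field_simp

lemma sg_le : sg ≤ 1 / 1000 := by
  have h1 := Cr_one
  have h2 := Cr_sg
  have h3 := sg_pos
  nlinarith

/-! ### The vertical map -/

/-- one dimensional map -/
noncomputable def F1 (x y : ℝ) : ℝ := y + rho x * (sg * chi (y / sg))

lemma F1_hasDeriv (x y : ℝ) : HasDerivAt (F1 x) (1 + rho x * deriv chi (y / sg)) y := by
  unfold F1
  have h1 : HasDerivAt (fun y => chi (y / sg)) (deriv chi (y / sg) * (1 / sg)) y :=
    (chi_diff _).hasDerivAt.comp y ((hasDerivAt_id y).div_const sg)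
  have h2 := (hasDerivAt_id y).add ((h1.const_mul sg).const_mul (rho x))
  have e : 1 + rho x * deriv chi (y / sg) =
      1 + rho x * (sg * (deriv chi (y / sg) * (1 / sg))) := by
    have := sg_pos.ne'
    field_simp
  rw [e]
  exact h2

lemma F1_dpos (x y : ℝ) : 1 / 2 ≤ 1 + rho x * deriv chi (y / sg) := by
  have h1 := chi_d1 (y / sg)
  have h2 := rho_nonneg x
  have h3 := rho_le_one x
  nlinarith

lemma F1_mono (x : ℝ) : StrictMono (F1 x) := by
  refine strictMono_of_deriv_pos fun y => ?_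
  rw [(F1_hasDeriv x y).deriv]
  linarith [F1_dpos x y]

lemma F1_close (x y : ℝ) : |F1 x y - y| ≤ 84 * sg := by
  have e : F1 x y - y = rho x * (sg * chi (y / sg)) := by unfold F1; ring
  rw [e, abs_mul, abs_mul, abs_of_nonneg (rho_nonneg x), abs_of_pos sg_pos]
  have h1 := chi_bd (y / sg)
  have h2 := rho_nonneg x
  have h3 := rho_le_one x
  have h4 := sg_pos
  have h5 : sg * |chi (y / sg)| ≤ sg * 84 := by nlinarith
  have h6 : 0 ≤ sg * |chi (y / sg)| := by positivity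
  nlinarith

lemma F1_surj (x : ℝ) : Function.Surjective (F1 x) := by
  have hc : Continuous (F1 x) := by
    have : Differentiable ℝ (F1 x) := fun y => (F1_hasDeriv x y).differentiableAt
    exact this.continuous
  refine hc.surjective ?_ ?_
  · refine tendsto_atTop_mono (f := fun y => y - 84 * sg) (fun y => ?_)
      (tendsto_atTop_add_const_right _ _ tendsto_id)
    linarith [(abs_le.1 (F1_close x y)).1]
  · have h1 : Tendsto (fun y : ℝ => y + 84 * sg) atBot atBot :=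
      tendsto_atBot_add_const_right _ _ tendsto_id
    refine tendsto_atBot_mono (fun y => ?_) h1
    linarith [(abs_le.1 (F1_close x y)).2]

/-- the vertical map -/
noncomputable def phi1 (w : V) : V := (w.1, F1 w.1 w.2)

/-- its inverse -/
noncomputable def psi1 (w : V) : V :=
  (w.1, (Equiv.ofBijective (F1 w.1) ⟨(F1_mono w.1).injective, F1_surj w.1⟩).symm w.2)

lemma psi1_phi1 (w : V) : psi1 (phi1 w) = w := by
  unfold psi1 phi1
  refine Prod.ext rfl ?_
  simp only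
  exact (Equiv.ofBijective (F1 w.1) ⟨(F1_mono w.1).injective, F1_surj w.1⟩).symm_apply_apply w.2

lemma phi1_psi1 (w : V) : phi1 (psi1 w) = w := by
  unfold psi1 phi1
  refine Prod.ext rfl ?_
  simp only
  exact (Equiv.ofBijective (F1 w.1) ⟨(F1_mono w.1).injective, F1_surj w.1⟩).apply_symm_apply w.2

lemma phi1_smooth : ContDiff ℝ ∞ phi1 := by
  unfold phi1 F1
  have h1 : ContDiff ℝ ∞ fun w : V => rho w.1 := rho_smooth.comp contDiff_fst
  have h2 : ContDiff ℝ ∞ fun w : V => chi (w.2 / sg) :=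
    chi_smooth.comp (contDiff_snd.div_const sg)
  exact contDiff_fst.prodMk (contDiff_snd.add (h1.mul (contDiff_const.mul h2)))

lemma phi1_hasFDeriv (w : V) : HasFDerivAt phi1
    ((ContinuousLinearMap.fst ℝ ℝ ℝ).prod (ContinuousLinearMap.snd ℝ ℝ ℝ +
      (rho w.1 • (sg • (deriv chi (w.2 / sg) • ((1 / sg) • ContinuousLinearMap.snd ℝ ℝ ℝ))) +
      (sg * chi (w.2 / sg)) • (deriv rho w.1 • ContinuousLinearMap.fst ℝ ℝ ℝ)))) w := by
  have h1 : HasFDerivAt (fun w : V => rho w.1)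
      (deriv rho w.1 • ContinuousLinearMap.fst ℝ ℝ ℝ) w :=
    (rho_diff w.1).hasDerivAt.comp_hasFDerivAt w hasFDerivAt_fst
  have h0 : HasFDerivAt (fun w : V => w.2 / sg) ((1 / sg) • ContinuousLinearMap.snd ℝ ℝ ℝ) w := by
    have := (hasFDerivAt_snd (𝕜 := ℝ) (E := ℝ) (F := ℝ) (p := w)).const_mul (1 / sg)
    refine this.congr_of_eventuallyEq (Eventually.of_forall fun z => ?_)
    simp only; ring
  have h2 : HasFDerivAt (fun w : V => chi (w.2 / sg))
      (deriv chi (w.2 / sg) • ((1 / sg) • ContinuousLinearMap.snd ℝ ℝ ℝ)) w :=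
    HasDerivAt.comp_hasFDerivAt (f := fun w : V => w.2 / sg) w (chi_diff (w.2 / sg)).hasDerivAt h0
  exact hasFDerivAt_fst.prodMk (hasFDerivAt_snd.add (h1.mul (h2.const_mul sg)))

lemma phi1_fderiv (w v : V) : fderiv ℝ phi1 w v = (v.1,
    (1 + rho w.1 * deriv chi (w.2 / sg)) * v.2 + sg * chi (w.2 / sg) * deriv rho w.1 * v.1) := by
  rw [(phi1_hasFDeriv w).fderiv]
  refine Prod.ext ?_ ?_
  · simp
  · simp
    have := sg_pos.ne'
    field_simp
    ring

/-! ### The twist -/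

/-- radius of the twist -/
noncomputable def r1 : ℝ := sg / 2

lemma r1_pos : 0 < r1 := by unfold r1; linarith [sg_pos]

lemma r1_le : r1 ≤ 1 / 2000 := by unfold r1; linarith [sg_le]

/-- the angle -/
noncomputable def th (s : ℝ) : ℝ :=
  Real.pi * Real.smoothTransition ((r1 ^ 2 - s) / (3 / 4 * r1 ^ 2))

lemma th_smooth : ContDiff ℝ ∞ th := by
  unfold th
  exact contDiff_const.mul (Real.smoothTransition.contDiff.comp (by fun_prop))

lemma th_zero {s : ℝ} (h : r1 ^ 2 ≤ s) : th s = 0 := by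
  unfold th
  rw [Real.smoothTransition.zero_of_nonpos, mul_zero]
  have := r1_pos
  rw [div_le_iff₀ (by positivity)]
  linarith

lemma th_pi {s : ℝ} (h : s ≤ r1 ^ 2 / 4) : th s = Real.pi := by
  unfold th
  rw [Real.smoothTransition.one_of_one_le, mul_one]
  have := r1_pos
  rw [le_div_iff₀ (by positivity)]
  linarith

/-- rotation -/
noncomputable def rot (a : ℝ) (v : V) : V :=
  (Real.cos a * v.1 - Real.sin a * v.2, Real.sin a * v.1 + Real.cos a * v.2)

/-- square of the euclidean norm -/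
def sq2 (v : V) : ℝ := v.1 ^ 2 + v.2 ^ 2

/-- center of the twist -/
noncomputable def cc : V := (2 / 5, 0)

lemma sq2_rot (a : ℝ) (v : V) : sq2 (rot a v) = sq2 v := by
  unfold sq2 rot
  simp only
  linear_combination (v.1 ^ 2 + v.2 ^ 2) * Real.sin_sq_add_cos_sq a

lemma rot_neg (a : ℝ) (v : V) : rot (-a) (rot a v) = v := by
  unfold rot
  rw [Real.cos_neg, Real.sin_neg]
  refine Prod.ext ?_ ?_
  · simp only
    linear_combination v.1 * Real.sin_sq_add_cos_sq a
  · simp only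
    linear_combination v.2 * Real.sin_sq_add_cos_sq a

/-- twist with angle function -/
noncomputable def twist (t : ℝ → ℝ) (w : V) : V := cc + rot (t (sq2 (w - cc))) (w - cc)

lemma twist_inv (t : ℝ → ℝ) (w : V) : twist (fun s => -t s) (twist t w) = w := by
  unfold twist
  simp only [add_sub_cancel_left, sq2_rot, rot_neg]
  abel

/-- the twist -/
noncomputable def phi2 : V → V := twist th

/-- its inverse -/
noncomputable def psi2 : V → V := twist (fun s => -th s)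

lemma psi2_phi2 (w : V) : psi2 (phi2 w) = w := twist_inv th w

lemma phi2_psi2 (w : V) : phi2 (psi2 w) = w := by
  have h := twist_inv (fun s => -th s) w
  have e : (fun s => -(fun s => -th s) s) = th := by funext s; simp
  rw [e] at h
  exact h

lemma twist_smooth {t : ℝ → ℝ} (ht : ContDiff ℝ ∞ t) : ContDiff ℝ ∞ (twist t) := by
  unfold twist rot
  have h1 : ContDiff ℝ ∞ fun w : V => sq2 (w - cc) := by unfold sq2; fun_prop
  have h2 : ContDiff ℝ ∞ fun w : V => t (sq2 (w - cc)) := ht.comp h1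
  have h3 : ContDiff ℝ ∞ fun w : V => Real.cos (t (sq2 (w - cc))) := Real.contDiff_cos.comp h2
  have h4 : ContDiff ℝ ∞ fun w : V => Real.sin (t (sq2 (w - cc))) := Real.contDiff_sin.comp h2
  have h5 : ContDiff ℝ ∞ fun w : V => (w - cc).1 := by fun_prop
  have h6 : ContDiff ℝ ∞ fun w : V => (w - cc).2 := by fun_prop
  exact contDiff_const.add
    (((h3.mul h5).sub (h4.mul h6)).prodMk ((h4.mul h5).add (h3.mul h6)))

lemma phi2_smooth : ContDiff ℝ ∞ phi2 := twist_smooth th_smooth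
lemma psi2_smooth : ContDiff ℝ ∞ psi2 := twist_smooth th_smooth.neg

lemma phi2_out {w : V} (h : r1 ^ 2 ≤ sq2 (w - cc)) : phi2 w = w := by
  unfold phi2 twist rot
  rw [th_zero h, Real.cos_zero, Real.sin_zero]
  refine Prod.ext ?_ ?_ <;> simp

lemma phi2_in {w : V} (h : sq2 (w - cc) ≤ r1 ^ 2 / 4) : phi2 w = (4 / 5 - w.1, -w.2) := by
  unfold phi2 twist rot cc
  unfold cc at h
  rw [th_pi h, Real.cos_pi, Real.sin_pi]
  refine Prod.ext ?_ ?_
  · simp; ring
  · simp

lemma phi2_sq (w : V) : sq2 (phi2 w - cc) = sq2 (w - cc) := by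
  unfold phi2 twist
  rw [add_sub_cancel_left, sq2_rot]

lemma sq2_small {v : V} {a : ℝ} (ha : 0 ≤ a) (h : sq2 v ≤ a ^ 2) : |v.1| ≤ a ∧ |v.2| ≤ a := by
  unfold sq2 at h
  constructor
  · exact abs_le_of_sq_le_sq (by nlinarith [sq_nonneg v.2]) ha
  · exact abs_le_of_sq_le_sq (by nlinarith [sq_nonneg v.1]) ha

/-! ### The local map -/

/-- The local map. -/
noncomputable def phi (w : V) : V := phi1 (phi2 w)

/-- Its inverse. -/
noncomputable def psi (w : V) : V := psi2 (psi1 w)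

lemma psi_phi (w : V) : psi (phi w) = w := by unfold psi phi; rw [psi1_phi1, psi2_phi2]
lemma phi_psi (w : V) : phi (psi w) = w := by unfold psi phi; rw [phi2_psi2, phi1_psi1]

lemma phi_smooth : ContDiff ℝ ∞ phi := phi1_smooth.comp phi2_smooth

lemma psi1_smooth : ContDiff ℝ ∞ psi1 := by
  refine inv_smooth phi1_smooth psi1_phi1 phi1_psi1 fun z v hv => ?_
  rw [phi1_fderiv] at hv
  have h1 : v.1 = 0 := congrArg Prod.fst hv
  have h2 := congrArg Prod.snd hv
  simp only [h1, mul_zero, add_zero, Prod.snd_zero] at h2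
  have h3 := F1_dpos z.1 z.2
  have h4 : v.2 = 0 := by
    rcases mul_eq_zero.1 h2 with h | h
    · linarith
    · exact h
  exact Prod.ext h1 h4

lemma psi_smooth : ContDiff ℝ ∞ psi := psi2_smooth.comp psi1_smooth

/-- The vertical size of the support. -/
noncomputable def Hs : ℝ := 41 * sg

lemma Hs_small : SmallScale Hs := ⟨by unfold Hs; linarith [sg_pos], by unfold Hs; linarith [sg_le]⟩

lemma F1_out1 {x : ℝ} (h : 3 / 4 ≤ |x|) (y : ℝ) : F1 x y = y := by
  unfold F1; rw [rho_zero h]; ring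

lemma F1_out2 (x : ℝ) {y : ℝ} (h : Hs ≤ |y|) : F1 x y = y := by
  unfold F1
  rw [chi_zero]
  · ring
  · rw [abs_div, abs_of_pos sg_pos, le_div_iff₀ sg_pos]
    exact h

lemma phi_out (w : V) (h : w ∉ BX (3 / 4) Hs) : phi w = w := by
  have h1 : 3 / 4 < |w.1| ∨ Hs < |w.2| := by
    by_contra h'
    push Not at h'
    exact h h'
  have h2 : phi2 w = w := by
    apply phi2_out
    by_contra hlt
    obtain ⟨h3, h4⟩ := sq2_small r1_pos.le (not_le.1 hlt).le
    unfold cc at h3 h4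
    simp only [Prod.fst_sub, Prod.snd_sub, sub_zero] at h3 h4
    have h5 := r1_le
    have h6 := abs_le.1 h3
    rcases h1 with h1 | h1
    · have : |w.1| ≤ 3 / 4 := abs_le.2 ⟨by linarith, by linarith⟩
      linarith
    · unfold Hs at h1; unfold r1 at h4; linarith [sg_pos]
  unfold phi
  rw [h2]
  unfold phi1
  refine Prod.ext rfl ?_
  simp only
  rcases h1 with h1 | h1
  · exact F1_out1 h1.le _
  · exact F1_out2 _ h1.le

lemma psi_out (w : V) (h : w ∉ BX (3 / 4) Hs) : psi w = w := by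
  have h1 := psi_phi w
  rwa [phi_out w h] at h1

lemma phi_box {w : V} (h : w ∈ BX (3 / 4) Hs) : phi w ∈ BX (3 / 4) Hs := by
  by_contra h1
  have h2 := psi_out _ h1
  rw [psi_phi] at h2
  rw [← h2] at h1
  exact h1 h

/-- The map of the plane. -/
noncomputable def G0 (z : V) : V := D0 (per Hs phi z)

/-- The diffeomorphism. -/
noncomputable def g0 (r : ℕ) : TorusDiffeo b0 r :=
  mkD r Hs_small phi_out psi_out psi_phi phi_psi phi_smooth psi_smooth

lemma g0_apply (r : ℕ) (z : V) : (g0 r).toFun z = G0 z := rfl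

lemma g0_fun (r : ℕ) : (g0 r).toFun = G0 := rfl

lemma G0_add (z : V) {γ : V} (hγ : γ ∈ Lat b0) : G0 (z + γ) = G0 z + D0 γ := by
  unfold G0; rw [per_add Hs_small phi_out z hγ, D0_add]

lemma G0_smooth : ContDiff ℝ ∞ G0 := D0_smooth.comp (per_smooth Hs_small phi_out phi_smooth)

end Pool.Agent.W5h40.NH
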