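import Pool.Agent.W5h40.NH.Exp

/-!
# Pluripotency: the area obstruction
-/

open Set Filter Topology MeasureTheory

namespace Pool.Agent.W5h40.NH

variable {b : Module.Basis (Fin 2) ℝ V} {r : ℕ}

/-- The first Wasserstein distance of the empirical measures of order `n` of `y` and of `x` for
`g`, given by Kantorovich duality; the functions `φ` are the `1`-Lipschitz functions of the
torus. -/
noncomputable def dW (g : TorusDiffeo b r) (n : ℕ) (y x : V) : ℝ :=
  sSup {t : ℝ | ∃ φ : V → ℝ, (∀ z w, |φ z - φ w| ≤ dT b z w) ∧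
    t = |(∑ i ∈ Finset.range n, φ (g.toFun^[i] y)) / n -
      (∑ i ∈ Finset.range n, φ (g.toFun^[i] x)) / n|}

/-- Pluripotency of `f` for `Λ`. -/
def Pluripotent (f : TorusDiffeo b r) (Λ : Set V) : Prop :=
  ∀ x ∈ Λ, ∀ ε > 0, ∀ δ > 0, ∃ g : TorusDiffeo b r, CrClose ε f g ∧ ∃ x' : V,
    (∀ n : ℕ, dT b (g.toFun^[n] x') (f.toFun^[n] x) ≤ δ ∧
      dT b (g.inv^[n] x') (f.inv^[n] x) ≤ δ) ∧
    ∃ D : Set V, MeasurableSet D ∧ 0 < volume D ∧
      ∀ y ∈ D, Tendsto (fun n : ℕ => dW g n y x') atTop (𝓝 0)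

lemma dT_self (z : V) : dT b z z = 0 := by
  unfold dT
  rw [sub_self]
  exact Metric.infDist_zero_of_mem (zero_mem (Lat b))

lemma dT_triangle (z y w : V) : dT b z w ≤ dT b z y + dT b y w := by
  refine le_of_forall_pos_le_add fun e he => ?_
  obtain ⟨γ, hγ, h1⟩ := dT_lt (show dT b z y < dT b z y + e / 2 by linarith)
  obtain ⟨κ, hκ, h2⟩ := dT_lt (show dT b y w < dT b y w + e / 2 by linarith)
  have h3 := dT_le (z := z) (w := w) (add_mem hγ hκ)
  have e1 : z - w - (γ + κ) = (z - y - γ) + (y - w - κ) := by abel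
  rw [e1] at h3
  have h4 := norm_add_le (z - y - γ) (y - w - κ)
  linarith

lemma dT_symm (z w : V) : dT b z w = dT b w z := by
  have key : ∀ z w, dT b z w ≤ dT b w z := by
    intro z w
    refine le_of_forall_pos_le_add fun e he => ?_
    obtain ⟨γ, hγ, h1⟩ := dT_lt (show dT b w z < dT b w z + e by linarith)
    have h3 := dT_le (z := z) (w := w) (neg_mem hγ)
    have e1 : z - w - -γ = -(w - z - γ) := by abel
    rw [e1, norm_neg] at h3
    linarith
  exact le_antisymm (key z w) (key w z)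

lemma lip_approx {F : V → ℝ} (hF : Continuous F) (hp : ∀ z, ∀ γ ∈ Lat b, F (z + γ) = F z)
    {η : ℝ} (hη : 0 < η) :
    ∃ K > 0, ∃ F' : V → ℝ, (∀ z w, |F' z - F' w| ≤ K * dT b z w) ∧ ∀ z, |F z - F' z| ≤ η := by
  obtain ⟨⟨B, hB, hFB⟩, hFuc⟩ := periodic_uc hF hp
  obtain ⟨δ, hδ, hFδ⟩ := hFuc η hη
  set K : ℝ := 2 * B / δ with hK
  have hK0 : 0 < K := by positivity
  have hbdd : ∀ z, BddBelow (range fun w => F w + K * dT b z w) := by
    intro z
    refine ⟨-B, ?_⟩
    rintro _ ⟨w, rfl⟩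
    have h1 := (abs_le.1 (hFB w)).1
    have h2 := mul_nonneg hK0.le (dT_nonneg (b := b) z w)
    simp only
    linarith
  refine ⟨K, hK0, fun z => ⨅ w, (F w + K * dT b z w), ?_, ?_⟩
  · have key : ∀ z z' : V, (⨅ w, (F w + K * dT b z w)) ≤
        (⨅ w, (F w + K * dT b z' w)) + K * dT b z z' := by
      intro z z'
      rw [← sub_le_iff_le_add]
      refine le_ciInf fun w => ?_
      have h1 := ciInf_le (hbdd z) w
      have h2 := mul_le_mul_of_nonneg_left (dT_triangle (b := b) z z' w) hK0.le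
      linarith
    intro z w
    rw [abs_le]
    constructor
    · have := key w z
      rw [dT_symm w z] at this
      linarith
    · have := key z w
      linarith
  · intro z
    rw [abs_le]
    constructor
    · have h1 := ciInf_le (hbdd z) z
      simp only [dT_self, mul_zero, add_zero] at h1
      linarith
    · rw [sub_le_comm]
      refine le_ciInf fun w => ?_
      rcases lt_or_ge (dT b z w) δ with h3 | h3
      · have h4 := abs_lt.1 (hFδ _ _ h3)
        have h2 := mul_nonneg hK0.le (dT_nonneg (b := b) z w)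
        linarith [h4.2]
      · have h4 : 2 * B ≤ K * dT b z w := by
          rw [hK, div_mul_eq_mul_div, le_div_iff₀ hδ]
          nlinarith
        have h5 := abs_le.1 (hFB z)
        have h6 := abs_le.1 (hFB w)
        linarith [h5.2, h6.1]

lemma dW_term (g : TorusDiffeo b r) (n : ℕ) (y x : V) {φ : V → ℝ}
    (hφ : ∀ z w, |φ z - φ w| ≤ dT b z w) :
    |(∑ i ∈ Finset.range n, φ (g.toFun^[i] y)) / n -
      (∑ i ∈ Finset.range n, φ (g.toFun^[i] x)) / n| ≤
    (∑ i ∈ Finset.range n, dT b (g.toFun^[i] y) (g.toFun^[i] x)) / n := by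
  rw [← sub_div, ← Finset.sum_sub_distrib, abs_div, Nat.abs_cast]
  refine div_le_div_of_nonneg_right ?_ (Nat.cast_nonneg n)
  refine (Finset.abs_sum_le_sum_abs _ _).trans ?_
  exact Finset.sum_le_sum fun i _ => hφ _ _

lemma dW_bdd (g : TorusDiffeo b r) (n : ℕ) (y x : V) :
    BddAbove {t : ℝ | ∃ φ : V → ℝ, (∀ z w, |φ z - φ w| ≤ dT b z w) ∧
    t = |(∑ i ∈ Finset.range n, φ (g.toFun^[i] y)) / n -
      (∑ i ∈ Finset.range n, φ (g.toFun^[i] x)) / n|} := by
  refine ⟨(∑ i ∈ Finset.range n, dT b (g.toFun^[i] y) (g.toFun^[i] x)) / n, ?_⟩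
  rintro _ ⟨φ, hφ, rfl⟩
  exact dW_term g n y x hφ

lemma le_dW (g : TorusDiffeo b r) (n : ℕ) (y x : V) {φ : V → ℝ}
    (hφ : ∀ z w, |φ z - φ w| ≤ dT b z w) :
    |(∑ i ∈ Finset.range n, φ (g.toFun^[i] y)) / n -
      (∑ i ∈ Finset.range n, φ (g.toFun^[i] x)) / n| ≤ dW g n y x :=
  le_csSup (dW_bdd g n y x) ⟨φ, hφ, rfl⟩

lemma dW_nonneg (g : TorusDiffeo b r) (n : ℕ) (y x : V) : 0 ≤ dW g n y x := by
  refine (abs_nonneg _).trans (le_dW g n y x (φ := fun _ => 0) fun z w => ?_)
  simp [dT_nonneg]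

lemma dW_le (g : TorusDiffeo b r) (n : ℕ) (y x : V) :
    dW g n y x ≤ (∑ i ∈ Finset.range n, dT b (g.toFun^[i] y) (g.toFun^[i] x)) / n := by
  refine csSup_le ?_ ?_
  · exact ⟨_, fun _ => 0, fun z w => by simp [dT_nonneg], rfl⟩
  · rintro _ ⟨φ, hφ, rfl⟩
    exact dW_term g n y x hφ

/-- Strong pluripotency implies pluripotency. -/
theorem StronglyPluripotent.pluripotent {f : TorusDiffeo b r} {Λ : Set V}
    (h : StronglyPluripotent f Λ) : Pluripotent f Λ := by
  intro x hx ε hε δ hδ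
  obtain ⟨g, hg, x', hx', D, hDm, hD0, hlim⟩ := h x hx ε hε δ hδ
  refine ⟨g, hg, x', hx', D, hDm, hD0, fun y hy => ?_⟩
  obtain ⟨R, hR, hdb⟩ := dT_bound b
  refine squeeze_zero (fun n => dW_nonneg g n y x') (fun n => (dW_le g n y x').trans ?_) hlim
  refine div_le_div_of_nonneg_right ?_ (Nat.cast_nonneg n)
  refine Finset.sum_le_sum fun i _ => ?_
  refine le_csSup ⟨R, ?_⟩ ⟨y, hy, rfl⟩
  rintro _ ⟨w, -, rfl⟩
  exact hdb _ _

/-- **Area obstruction.**  A diffeomorphism is not pluripotent for a set which contains a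
point along whose orbit the area is expanded exponentially. -/
theorem area_obstruction' (f : TorusDiffeo b r) (hr : 1 ≤ r) {Λ : Set V} {x : V} (hx : x ∈ Λ)
    {c : ℝ} (hc : 0 < c) (hgrow : ∃ᶠ n : ℕ in atTop, c * n ≤ Real.log |(Dn f n x).det|) :
    ¬ Pluripotent f Λ := by
  intro hSP
  obtain ⟨-, hFuc⟩ := periodic_uc (lj_cont f hr) (lj_periodic f)
  obtain ⟨δ, hδ, hFδ⟩ := hFuc (c / 8) (by positivity)
  obtain ⟨ε, hε, hclose⟩ := lj_close f hr (c := c / 8) (by positivity)
  obtain ⟨g, hg, x', hx', D, hDm, hD0, hlim⟩ := hSP x hx ε hε (δ / 2) (by positivity)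
  have hgl := hclose g (fun z => crClose_fderiv hr hg z)
  -- comparison of the Jacobians along the orbits of `x` and `x'`
  have hcomp : ∀ i, lj f (f.toFun^[i] x) - c / 4 ≤ lj g (g.toFun^[i] x') := by
    intro i
    have h1 := abs_lt.1 (hgl (g.toFun^[i] x'))
    have h2 := abs_lt.1 (hFδ _ _ (lt_of_le_of_lt ((hx' i).1) (by linarith : δ / 2 < δ)))
    linarith [h1.1, h2.1]
  -- comparison of the averages
  obtain ⟨K, hK, F', hF'1, hF'2⟩ := lip_approx (lj_cont g hr) (lj_periodic g)
    (η := c / 32) (by positivity)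
  set S : ℕ → V → ℝ := fun n y => ∑ i ∈ Finset.range n, lj g (g.toFun^[i] y) with hS
  have hScont : ∀ n, Continuous (S n) := by
    intro n
    refine continuous_finsetSum _ fun i _ => ?_
    exact (lj_cont g hr).comp (g.smooth.continuous.iterate i)
  have havg : ∀ n, 0 < n → ∀ y, |S n y - S n x'| ≤ (c / 16 + K * dW g n y x') * n := by
    intro n hn y
    have hn' : (0 : ℝ) < n := by exact_mod_cast hn
    have h1 := le_dW g n y x' (φ := fun z => F' z / K) (fun z w => by
      rw [← sub_div, abs_div, abs_of_pos hK, div_le_iff₀ hK, mul_comm]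
      exact hF'1 z w)
    rw [← sub_div, abs_div, abs_of_pos hn', div_le_iff₀ hn', ← Finset.sum_div, ← Finset.sum_div,
      ← sub_div, abs_div, abs_of_pos hK, div_le_iff₀ hK] at h1
    have h2 : ∀ y, |S n y - ∑ i ∈ Finset.range n, F' (g.toFun^[i] y)| ≤ c / 32 * n := by
      intro y
      simp only [hS]
      rw [← Finset.sum_sub_distrib]
      refine (Finset.abs_sum_le_sum_abs _ _).trans ?_
      refine (Finset.sum_le_sum fun i _ => hF'2 (g.toFun^[i] y)).trans ?_
      rw [Finset.sum_const, Finset.card_range, nsmul_eq_mul, mul_comm]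
    have h3 := abs_le.1 (h2 y)
    have h4 := abs_le.1 (h2 x')
    have h5 := abs_le.1 h1
    rw [abs_le]
    constructor
    · nlinarith [h3.1, h4.2, h5.1]
    · nlinarith [h3.2, h4.1, h5.2]
  -- a subset on which the convergence is uniform
  set E : ℕ → Set V := fun N => D ∩ ⋂ n ≥ N, {y | |S n y - S n x'| ≤ c / 8 * n} with hE
  have hEm : ∀ N, MeasurableSet (E N) := by
    intro N
    refine hDm.inter (MeasurableSet.iInter fun n => MeasurableSet.iInter fun _ => ?_)
    exact (isClosed_le ((hScont n).sub continuous_const).abs continuous_const).measurableSet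
  have hDE : D ⊆ ⋃ N, E N := by
    intro y hy
    have h1 : Tendsto (fun n => K * dW g n y x') atTop (𝓝 0) := by
      simpa using (hlim y hy).const_mul K
    have h2 : ∀ᶠ n in atTop, K * dW g n y x' < c / 16 := h1.eventually_lt_const (by positivity)
    obtain ⟨N, hN⟩ := eventually_atTop.1 (h2.and (eventually_gt_atTop 0))
    refine mem_iUnion.2 ⟨N, hy, mem_iInter₂.2 fun n hn => ?_⟩
    obtain ⟨h3, h4⟩ := hN n hn
    have hn' : (0 : ℝ) < n := by exact_mod_cast h4
    have h5 := havg n h4 y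
    change |S n y - S n x'| ≤ c / 8 * n
    nlinarith
  have hEpos : ∃ N, 0 < volume (E N) := by
    by_contra hcon
    push Not at hcon
    have : volume D ≤ 0 := by
      refine (measure_mono hDE).trans ?_
      exact (measure_iUnion_null fun N => le_antisymm (hcon N) bot_le).le
    exact absurd hD0 (not_lt.2 this)
  obtain ⟨N, hN0⟩ := hEpos
  -- a good subset
  obtain ⟨D', hD'D, hD'm, hD'0, hD'top, hinj⟩ := exists_inj_subset (b := b) (hEm N) hN0
  have hvol : ∀ n, ∀ a : ℝ, (∀ y ∈ D', a ≤ Real.log |(Dn g n y).det|) →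
      ENNReal.ofReal (Real.exp a) * volume D' ≤ volume (ZSpan.fundamentalDomain b) := by
    intro n a ha
    refine le_trans ?_ (volume_image_le g n hD'm hinj)
    have h1 := lintegral_abs_det_fderiv_eq_addHaar_image (volume : Measure V) hD'm
      (f := g.toFun^[n]) (f' := fun y => Dn g n y)
      (fun y _ => ((((diff_toFun g hr).iterate n) y).hasFDerivAt).hasFDerivWithinAt)
      ((g.inj.iterate n).injOn)
    rw [← h1]
    calc ENNReal.ofReal (Real.exp a) * volume D'
        = ∫⁻ _ in D', ENNReal.ofReal (Real.exp a) := by rw [setLIntegral_const]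
      _ ≤ _ := by
        refine setLIntegral_mono' hD'm fun y hy => ENNReal.ofReal_le_ofReal ?_
        have h2 := ha y hy
        have h3 : 0 < |(Dn g n y).det| := by rw [Dn_det g hr]; exact Real.exp_pos _
        rw [← Real.exp_log h3]
        exact Real.exp_le_exp.2 h2
  have hlog : ∀ (g : TorusDiffeo b r) n y, Real.log |(Dn g n y).det| =
      ∑ i ∈ Finset.range n, lj g (g.toFun^[i] y) := by
    intro g n y; rw [Dn_det g hr, Real.log_exp]
  have hfin : volume (ZSpan.fundamentalDomain b) < ⊤ :=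
    (ZSpan.fundamentalDomain_isBounded b).measure_lt_top
  -- unbounded growth
  set M : ℝ := (volume (ZSpan.fundamentalDomain b)).toReal / (volume D').toReal with hM
  have hexp : ∀ᶠ n : ℕ in atTop, M < Real.exp (c / 2 * n) := by
    have h1 : Tendsto (fun n : ℕ => Real.exp (c / 2 * n)) atTop atTop := by
      refine Real.tendsto_exp_atTop.comp ?_
      exact Tendsto.const_mul_atTop (by positivity) tendsto_natCast_atTop_atTop
    exact h1.eventually_gt_atTop M
  obtain ⟨n, hn1, hn2, hn3⟩ :=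
    (hgrow.and_eventually ((eventually_ge_atTop N).and hexp)).exists
  have hnn : (0 : ℝ) ≤ n := Nat.cast_nonneg n
  have hall : ∀ y ∈ D', c / 2 * n ≤ Real.log |(Dn g n y).det| := by
    intro y hy
    rw [hlog]
    rw [hlog] at hn1
    have h1 : ∑ i ∈ Finset.range n, (lj f (f.toFun^[i] x) - c / 4) ≤ S n x' :=
      Finset.sum_le_sum fun i _ => hcomp i
    rw [Finset.sum_sub_distrib, Finset.sum_const, Finset.card_range, nsmul_eq_mul] at h1
    have h2 : |S n y - S n x'| ≤ c / 8 * n := by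
      have := (hD'D hy).2
      exact mem_iInter₂.1 this n hn2
    have h3 := abs_le.1 h2
    change c / 2 * n ≤ S n y
    nlinarith
  have h1 := hvol n _ hall
  have h2 : M < Real.exp (c / 2 * n) := hn3
  have hD'r : 0 < (volume D').toReal := ENNReal.toReal_pos hD'0.ne' hD'top.ne
  have h3 := ENNReal.toReal_mono hfin.ne h1
  rw [ENNReal.toReal_mul, ENNReal.toReal_ofReal (Real.exp_pos _).le] at h3
  rw [hM, div_lt_iff₀ hD'r] at h2
  linarith

theorem ND_not_pluripotent (hr : 1 ≤ r) {f : TorusDiffeo b0 r} (hf : f ∈ ND r) {Λ : Set V}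
    (hΛ : IsHyperbolicSet f Λ) (hT : HasTangency f Λ) : ¬ Pluripotent f Λ := by
  obtain ⟨x, hx, h⟩ := ND_expanding hr hf hΛ hT
  exact area_obstruction' f hr hx (Real.log_pos (by norm_num : (1 : ℝ) < 2))
    (Frequently.of_forall h)

end Pool.Agent.W5h40.NH
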