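import Pool.Agent.W5h40.NH.Lin

/-!
# The vertical profile
-/

open Set Filter Topology MeasureTheory intervalIntegral
open scoped ContDiff

namespace Pool.Agent.W5h40.NH

section

variable (f : ContDiffBump (0 : ℝ))

lemma bmp_one {x : ℝ} (h : |x| ≤ f.rIn) : f x = 1 :=
  f.one_of_mem_closedBall (by simpa using h)

lemma bmp_zero {x : ℝ} (h : f.rOut ≤ |x|) : f x = 0 :=
  f.zero_of_le_dist (by simpa using h)

lemma bmp_cont : Continuous f := f.continuous

lemma bmp_int (a b : ℝ) : IntervalIntegrable f volume a b := (bmp_cont f).intervalIntegrable a b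

/-- the primitive -/
noncomputable def prim (t : ℝ) : ℝ := ∫ x in (0 : ℝ)..t, f x

lemma prim_hasDeriv (t : ℝ) : HasDerivAt (prim f) (f t) t :=
  integral_hasDerivAt_right (bmp_int f _ _) ((bmp_cont f).stronglyMeasurableAtFilter _ _)
    (bmp_cont f).continuousAt

lemma prim_zero : prim f 0 = 0 := by simp [prim]

lemma prim_diff (s t : ℝ) : prim f t - prim f s = ∫ x in s..t, f x := by
  unfold prim
  exact integral_interval_sub_left (bmp_int f _ _) (bmp_int f _ _)

lemma prim_mono {s t : ℝ} (h : s ≤ t) : prim f s ≤ prim f t := by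
  have h1 := prim_diff f s t
  have h2 : 0 ≤ ∫ x in s..t, f x := integral_nonneg h fun x _ => f.nonneg
  linarith

lemma prim_sub_le {s t : ℝ} (h : s ≤ t) : prim f t - prim f s ≤ t - s := by
  rw [prim_diff]
  have : ∫ x in s..t, f x ≤ ∫ _ in s..t, (1 : ℝ) :=
    integral_mono_on h (bmp_int f _ _) (by simp) fun x _ => f.le_one
  simpa using this

lemma prim_lin {t : ℝ} (h0 : 0 ≤ t) (h : t ≤ f.rIn) : prim f t = t := by
  unfold prim
  rw [integral_congr (g := fun _ => (1 : ℝ))]
  · simp
  · intro x hx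
    rw [uIcc_of_le h0] at hx
    exact bmp_one f (by rw [abs_of_nonneg hx.1]; linarith [hx.2])

lemma prim_const {t : ℝ} (h : f.rOut ≤ t) : prim f t = prim f f.rOut := by
  have h1 := prim_diff f f.rOut t
  have h2 : ∫ x in f.rOut..t, f x = 0 := by
    rw [integral_congr (g := fun _ => (0 : ℝ))]
    · simp
    · intro x hx
      rw [uIcc_of_le h] at hx
      exact bmp_zero f (hx.1.trans (le_abs_self x))
  linarith

lemma prim_neg (t : ℝ) : prim f (-t) = - prim f t := by
  unfold prim
  have h := integral_comp_neg (a := 0) (b := t) (fun x => f x)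
  simp only [neg_zero] at h
  rw [integral_symm, ← h]
  congr 1
  refine integral_congr fun x _ => ?_
  exact f.neg x

lemma prim_smooth : ContDiff ℝ ∞ (prim f) := by
  rw [contDiff_infty_iff_deriv]
  refine ⟨fun t => (prim_hasDeriv f t).differentiableAt, ?_⟩
  have : deriv (prim f) = f := funext fun t => (prim_hasDeriv f t).deriv
  rw [this]
  exact f.contDiff

lemma prim_out_bounds : f.rIn ≤ prim f f.rOut ∧ prim f f.rOut ≤ f.rOut := by
  constructor
  · rw [← prim_lin f f.rIn_pos.le le_rfl]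
    exact prim_mono f f.rIn_lt_rOut.le
  · have := prim_sub_le f f.rOut_pos.le
    rw [prim_zero] at this
    linarith

end

/-- The vertical profile. -/
theorem exists_profile : ∃ χ : ℝ → ℝ, ContDiff ℝ ∞ χ ∧ (∀ t, χ (-t) = -χ t) ∧
    (∀ t, -1 / 2 ≤ deriv χ t) ∧ (∀ t, 21 / 10 ≤ |t| → deriv χ t ≤ 0) ∧
    (∀ t, |t| ≤ 1 → χ t = (lam / 2 - 1) * t) ∧ (∀ t, 41 ≤ |t| → χ t = 0) ∧
    (∀ t, 0 < t → t ≤ 11 / 10 → χ t < (lam - 1) * t) ∧
    (∀ t, 11 / 10 ≤ t → t ≤ 2 → 15 ≤ deriv χ t) ∧
    (∀ t, 2 ≤ t → t ≤ 21 / 10 → (lam - 1) * t < χ t) ∧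
    χ 4 ≤ 37 / 2 ∧ 18 ≤ χ (21 / 10) ∧ (∀ t, |χ t| ≤ 84) ∧
    (∀ t, |t| ≤ 2 → 19 / 10 ≤ deriv χ t) ∧ (∀ t, 2 ≤ t → t ≤ 21 / 10 → 15 ≤ χ t) := by
  obtain ⟨hl1, hl2⟩ := lam_bounds
  let fa : ContDiffBump (0 : ℝ) := ⟨1, 11 / 10, by norm_num, by norm_num⟩
  let fb : ContDiffBump (0 : ℝ) := ⟨2, 21 / 10, by norm_num, by norm_num⟩
  let fc : ContDiffBump (0 : ℝ) := ⟨40, 41, by norm_num, by norm_num⟩
  set Ia := prim fa (11 / 10) with hIa
  set Ib := prim fb (21 / 10) with hIb
  set Ic := prim fc 41 with hIc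
  have bIa : 1 ≤ Ia ∧ Ia ≤ 11 / 10 := prim_out_bounds fa
  have bIb : 2 ≤ Ib ∧ Ib ≤ 21 / 10 := prim_out_bounds fb
  have bIc : 40 ≤ Ic ∧ Ic ≤ 41 := prim_out_bounds fc
  set α : ℝ := lam / 2 - 1 with hα
  set K : ℝ := (1 / 2 * Ic - 1 / 2 * Ib - α * Ia) / (Ib - Ia) with hK
  have hden : 0 < Ib - Ia := by linarith [bIa.2, bIb.1]
  have hKeq : (K + 1 / 2) * Ib - (K - α) * Ia = 1 / 2 * Ic := by
    have : K * (Ib - Ia) = 1 / 2 * Ic - 1 / 2 * Ib - α * Ia := by
      rw [hK]; field_simp
    linarith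
  have hα1 : 1.914 < α := by rw [hα]; linarith
  have hα2 : α < 1.916 := by rw [hα]; linarith
  have hK1 : 15 ≤ K := by
    rw [hK, le_div_iff₀ hden]
    nlinarith [bIa.1, bIa.2, bIb.1, bIb.2, bIc.1]
  have hK2 : K ≤ 20 := by
    rw [hK, div_le_iff₀ hden]
    nlinarith [bIa.1, bIa.2, bIb.1, bIb.2, bIc.2]
  let χ : ℝ → ℝ := fun t => -1 / 2 * prim fc t + (K + 1 / 2) * prim fb t - (K - α) * prim fa t
  have hder : ∀ t, HasDerivAt χ (-1 / 2 * fc t + (K + 1 / 2) * fb t - (K - α) * fa t) t :=
    fun t => (((prim_hasDeriv fc t).const_mul _).add ((prim_hasDeriv fb t).const_mul _)).sub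
      ((prim_hasDeriv fa t).const_mul _)
  have hder' : ∀ t, deriv χ t = -1 / 2 * fc t + (K + 1 / 2) * fb t - (K - α) * fa t :=
    fun t => (hder t).deriv
  have c0 : ∀ t, 0 ≤ fc t := fun t => fc.nonneg
  have c1 : ∀ t, fc t ≤ 1 := fun t => fc.le_one
  have b0 : ∀ t, 0 ≤ fb t := fun t => fb.nonneg
  have a0 : ∀ t, 0 ≤ fa t := fun t => fa.nonneg
  have a1 : ∀ t, fa t ≤ 1 := fun t => fa.le_one
  have hbig : ∀ t, 21 / 10 ≤ t → χ t = 1 / 2 * Ic - 1 / 2 * prim fc t := by
    intro t ht
    have e1 : prim fb t = Ib := prim_const fb ht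
    have e2 : prim fa t = Ia := prim_const fa (le_trans (by norm_num [fa]) ht)
    simp only [χ]
    rw [e1, e2]; linarith
  have hodd : ∀ t, χ (-t) = -χ t := by
    intro t; simp only [χ, prim_neg]; ring
  have hnn : ∀ t, 0 ≤ t → |χ t| ≤ 84 := by
    intro t ht
    have h1 : 0 ≤ prim fa t := by rw [← prim_zero fa]; exact prim_mono fa ht
    have h2 : 0 ≤ prim fb t := by rw [← prim_zero fb]; exact prim_mono fb ht
    have h3 : 0 ≤ prim fc t := by rw [← prim_zero fc]; exact prim_mono fc ht
    have h4 : prim fa t ≤ Ia := by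
      rcases le_total t (11 / 10) with h | h
      · exact prim_mono fa h
      · exact (prim_const fa h).le
    have h5 : prim fb t ≤ Ib := by
      rcases le_total t (21 / 10) with h | h
      · exact prim_mono fb h
      · exact (prim_const fb h).le
    have h6 : prim fc t ≤ Ic := by
      rcases le_total t 41 with h | h
      · exact prim_mono fc h
      · exact (prim_const fc h).le
    rw [abs_le]
    simp only [χ]
    constructor
    · nlinarith [bIa.2, bIb.2, bIc.2]
    · nlinarith [bIa.2, bIb.2, bIc.2]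
  refine ⟨χ, ?_, hodd, ?_, ?_, ?_, ?_, ?_, ?_, ?_, ?_, ?_, ?_, ?_, ?_⟩
  · exact ((contDiff_const.mul (prim_smooth fc)).add (contDiff_const.mul (prim_smooth fb))).sub
      (contDiff_const.mul (prim_smooth fa))
  · intro t
    rw [hder']
    rcases le_total |t| (11 / 10) with h | h
    · have e1 : fc t = 1 := bmp_one fc (le_trans h (by norm_num [fc]))
      have e2 : fb t = 1 := bmp_one fb (le_trans h (by norm_num [fb]))
      rw [e1, e2]
      nlinarith [a0 t, a1 t]
    · have e1 : fa t = 0 := bmp_zero fa h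
      rw [e1]
      nlinarith [c0 t, c1 t, b0 t]
  · intro t ht
    rw [hder']
    have e1 : fb t = 0 := bmp_zero fb ht
    have e2 : fa t = 0 := bmp_zero fa (le_trans (by norm_num [fa]) ht)
    rw [e1, e2]
    nlinarith [c0 t]
  · intro t ht
    have hpos : ∀ t, 0 ≤ t → t ≤ 1 → χ t = α * t := by
      intro t h0 h1
      have e1 : prim fa t = t := prim_lin fa h0 h1
      have e2 : prim fb t = t := prim_lin fb h0 (le_trans h1 (by norm_num [fb]))
      have e3 : prim fc t = t := prim_lin fc h0 (le_trans h1 (by norm_num [fc]))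
      simp only [χ]
      rw [e1, e2, e3]; ring
    rcases le_total 0 t with h | h
    · exact hpos t h (by rwa [abs_of_nonneg h] at ht)
    · have h2 := hpos (-t) (by linarith) (by rwa [abs_of_nonpos h] at ht)
      rw [hodd] at h2
      linarith
  · intro t ht
    have hpos : ∀ t, 41 ≤ t → χ t = 0 := by
      intro t h
      rw [hbig t (by linarith)]
      have e : prim fc t = Ic := prim_const fc h
      rw [e]; ring
    rcases le_total 0 t with h | h
    · exact hpos t (by rwa [abs_of_nonneg h] at ht)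
    · have h2 := hpos (-t) (by rwa [abs_of_nonpos h] at ht)
      rw [hodd] at h2
      linarith
  · intro t h0 h1
    have e2 : prim fb t = t := prim_lin fb h0.le (le_trans h1 (by norm_num [fb]))
    have e3 : prim fc t = t := prim_lin fc h0.le (le_trans h1 (by norm_num [fc]))
    rcases le_total t 1 with h | h
    · have e1 : prim fa t = t := prim_lin fa h0.le h
      simp only [χ]
      rw [e1, e2, e3, hα]
      nlinarith
    · have e1 : 1 ≤ prim fa t := by
        have := prim_mono fa h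
        rwa [prim_lin fa zero_le_one le_rfl] at this
      simp only [χ]
      rw [e2, e3]
      nlinarith
  · intro t h1 h2
    have hta : |t| = t := abs_of_nonneg (by linarith)
    rw [hder']
    have e1 : fa t = 0 := bmp_zero fa (by rw [hta]; exact h1)
    have e2 : fb t = 1 := bmp_one fb (by rw [hta]; exact h2)
    have e3 : fc t = 1 := bmp_one fc (by rw [hta]; exact le_trans h2 (by norm_num [fc]))
    rw [e1, e2, e3]; linarith
  · intro t h1 h2
    have e1 : prim fa t = Ia := prim_const fa (le_trans (by norm_num [fa]) h1)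
    have e3 : prim fc t = t := prim_lin fc (by linarith) (le_trans h2 (by norm_num [fc]))
    have e2 : 2 ≤ prim fb t := by
      have := prim_mono fb h1
      rwa [prim_lin fb (by norm_num) le_rfl] at this
    simp only [χ]
    rw [e1, e3]
    nlinarith [bIa.1, bIa.2]
  · rw [hbig 4 (by norm_num)]
    have e3 : prim fc 4 = 4 := prim_lin fc (by norm_num) (by norm_num [fc])
    rw [e3]
    linarith [bIc.2]
  · rw [hbig (21 / 10) le_rfl]
    have e3 : prim fc (21 / 10) = 21 / 10 := prim_lin fc (by norm_num) (by norm_num [fc])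
    rw [e3]
    linarith [bIc.1]
  · intro t
    rcases le_total 0 t with h | h
    · exact hnn t h
    · have := hnn (-t) (by linarith)
      rwa [hodd, abs_neg] at this
  · intro t h2
    rw [hder']
    have e2 : fb t = 1 := bmp_one fb h2
    have e3 : fc t = 1 := bmp_one fc (le_trans h2 (by norm_num [fc]))
    rw [e2, e3]
    nlinarith [a1 t, a0 t]
  · intro t h1 h2
    have e1 : prim fa t = Ia := prim_const fa (le_trans (by norm_num [fa]) h1)
    have e3 : prim fc t = t := prim_lin fc (by linarith) (le_trans h2 (by norm_num [fc]))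
    have e2 : 2 ≤ prim fb t := by
      have := prim_mono fb h1
      rwa [prim_lin fb (by norm_num) le_rfl] at this
    simp only [χ]
    rw [e1, e3]
    nlinarith [bIa.1, bIa.2]

end Pool.Agent.W5h40.NH
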