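import Pool.Agent.W5h40.NH.Curve

/-!
# The tangency
-/

open Set Filter Topology MeasureTheory
open scoped ContDiff

namespace Pool.Agent.W5h40.NH

variable {r : ℕ} {g : TorusDiffeo b0 r}

lemma Bx_pair (h : Near ep g) (hr : 1 ≤ r) {a b : V} (ha : a ∈ Bx) (hb : b ∈ Bx) :
    HypStep (b - a) (g.toFun b - g.toFun a) := by
  have h3 := h.lip hr a b
  have h4 := (abs_fst_le _).trans h3
  have h5 := (abs_snd_le _).trans h3
  have h6 := ep_le
  have hv1 := abs_fst_le (b - a)
  have hv2 := abs_snd_le (b - a)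
  have hv0 := norm_nonneg (b - a)
  obtain ⟨a1, a2⟩ := Bx_small ha
  obtain ⟨b1, b2⟩ := Bx_small hb
  have e1 : (G0 b - G0 a).1 = lam * (b - a).1 := by
    rw [G0_lin a1.le a2.le, G0_lin b1.le b2.le]
    simp only [Prod.fst_sub]; ring
  have e2 : (G0 b - G0 a).2 = (b - a).2 / 2 := by
    rw [G0_lin a1.le a2.le, G0_lin b1.le b2.le]
    simp only [Prod.snd_sub]; ring
  rw [Prod.fst_sub (g.toFun b - g.toFun a), e1] at h4
  rw [Prod.snd_sub (g.toFun b - g.toFun a), e2] at h5
  constructor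
  · refine h4.trans ?_
    nlinarith
  · have h7 := abs_sub_abs_le_abs_sub (g.toFun b - g.toFun a).2 ((b - a).2 / 2)
    have h8 : |(b - a).2 / 2| = |(b - a).2| / 2 := by
      rw [abs_div, abs_of_pos (by norm_num : (0 : ℝ) < 2)]
    nlinarith

lemma bounded_CU {u : ℕ → V} (h : ∀ n, HypStep (u (n + 1)) (u n)) {B : ℝ}
    (hB : ∀ n, ‖u n‖ ≤ B) (m : ℕ) : CU (u m) := by
  by_contra hm
  have hm' : CS (u m) := (CU_or_CS _).resolve_left hm
  have hpos : 0 < ‖u m‖ := by
    rw [hm'.norm]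
    exact lt_of_le_of_lt (abs_nonneg _) (not_le.1 hm)
  have h1 : ∀ k, CS (u (m + k)) ∧ (5 / 3) ^ k * ‖u m‖ ≤ ‖u (m + k)‖ := by
    intro k
    induction k with
    | zero => simpa using hm'
    | succ k ih =>
      have h2 := stepS (h (m + k)) ih.1
      refine ⟨h2.1, ?_⟩
      have h3 := h2.2
      have h4 : ‖u (m + k + 1)‖ = ‖u (m + (k + 1))‖ := rfl
      rw [pow_succ, ← h4]
      linarith [ih.2]
  obtain ⟨k, hk⟩ := pow_unbounded_of_one_lt (B / ‖u m‖) (by norm_num : (1 : ℝ) < 5 / 3)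
  rw [div_lt_iff₀ hpos] at hk
  linarith [(h1 k).2, hB (m + k)]

lemma exists_fixed (h : Near ep g) (hr : 1 ≤ r) {w : V} (hw : ∀ j, g.inv^[j + 1] w ∈ Bx) :
    ∃ q ∈ Bx, g.toFun q = q ∧ Tendsto (fun j => g.inv^[j] w) atTop (𝓝 q) := by
  set u : ℕ → V := fun j => g.inv^[j + 1] w with hu
  have hgu : ∀ j, g.toFun (u (j + 1)) = u j := by
    intro j
    simp only [hu]
    rw [Function.iterate_succ_apply' g.inv (j + 1), g.right_inv]
  have hstep : ∀ j, HypStep (u (j + 1) - u (j + 2)) (u j - u (j + 1)) := by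
    intro j
    have := Bx_pair h hr (hw (j + 2)) (hw (j + 1))
    have e1 := hgu j
    have e2 := hgu (j + 1)
    have this' : HypStep (u (j + 1) - u (j + 2))
      (g.toFun (u (j + 1)) - g.toFun (u (j + 2))) := this
    rwa [e1, e2] at this'
  have hbd : ∀ j, ‖u j - u (j + 1)‖ ≤ 2 := by
    intro j
    have k1 := Bx_small (hw j)
    have k2 := Bx_small (hw (j + 1))
    have hs := sg_le
    have n1 : ‖u j‖ ≤ 1 := by
      rw [Prod.norm_def, Real.norm_eq_abs, Real.norm_eq_abs]
      exact max_le (by linarith [k1.1]) (by linarith [k1.2])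
    have n2 : ‖u (j + 1)‖ ≤ 1 := by
      rw [Prod.norm_def, Real.norm_eq_abs, Real.norm_eq_abs]
      exact max_le (by linarith [k2.1]) (by linarith [k2.2])
    linarith [norm_sub_le (u j) (u (j + 1))]
  have hCU := bounded_CU (u := fun j => u j - u (j + 1)) hstep hbd
  have hdec := backward_decay (u := fun j => u j - u (j + 1)) hstep hCU
  have hcau : CauchySeq u := by
    refine cauchySeq_of_le_geometric (3 / 5) ‖u 0 - u 1‖ (by norm_num) fun n => ?_
    rw [dist_eq_norm]
    have := hdec n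
    simp only [zero_add] at this
    linarith
  obtain ⟨q, hq⟩ := cauchySeq_tendsto_of_complete hcau
  have hqB : q ∈ Bx := Bx_closed.mem_of_tendsto hq (Eventually.of_forall hw)
  refine ⟨q, hqB, ?_, ?_⟩
  · have hgc : Continuous g.toFun := g.smooth.continuous
    have h1 : Tendsto (fun j => g.toFun (u (j + 1))) atTop (𝓝 (g.toFun q)) :=
      (hgc.tendsto q).comp ((tendsto_add_atTop_iff_nat 1).2 hq)
    have h2 : Tendsto (fun j => g.toFun (u (j + 1))) atTop (𝓝 q) := by
      simp only [hgu]; exact hq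
    exact tendsto_nhds_unique h1 h2
  · exact (tendsto_add_atTop_iff_nat 1).1 hq

/-- The attractor. -/
def Att (g : TorusDiffeo b0 r) : Set V := {z | ∀ n, g.inv^[n] z ∈ RR}

/-- The hyperbolic set. -/
def Lam (g : TorusDiffeo b0 r) (q : V) : Set V := {z | z - q ∈ Lat b0} ∪ Att g

lemma Att_closed : IsClosed (Att g) := by
  unfold Att
  simp only [ofPred_forall]
  exact isClosed_iInter fun n =>
    RR_closed.preimage ((g.smooth_inv.continuous).iterate n)

lemma Lam_closed (q : V) : IsClosed (Lam g q) := by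
  have h1 : IsClosed (Lat b0 : Set V) := AddSubgroup.isClosed_of_discrete
  have h2 : IsClosed {z : V | z - q ∈ Lat b0} :=
    h1.preimage (continuous_id.sub continuous_const)
  exact h2.union Att_closed

lemma Att_map (h : Near ep g) {z : V} (hz : z ∈ Att g) : g.toFun z ∈ Att g := by
  intro n
  cases n with
  | zero => exact RR_map h (hz 0)
  | succ n =>
    rw [Function.iterate_succ_apply, g.left_inv]
    exact hz n

lemma Att_inv {z : V} (hz : z ∈ Att g) : g.inv z ∈ Att g := by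
  intro n
  have := hz (n + 1)
  rwa [Function.iterate_succ_apply] at this

lemma Lam_map (h : Near ep g) {q z : V} (hq : g.toFun q = q) (hz : z ∈ Lam g q) :
    g.toFun z ∈ Lam g q := by
  rcases hz with hz | hz
  · left
    have h1 : g.toFun z = g.toFun q + D0 (z - q) := by
      have := h.add q hz
      rwa [add_sub_cancel] at this
    change g.toFun z - q ∈ Lat b0
    rw [h1, hq, add_sub_cancel_left]
    exact D0_lat hz
  · right; exact Att_map h hz

lemma inv_fixed {q : V} (hq : g.toFun q = q) : g.inv q = q := by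
  have := g.left_inv q
  rwa [hq] at this

lemma Lam_inv {q z : V} (hq : g.toFun q = q) (hz : z ∈ Lam g q) :
    g.inv z ∈ Lam g q := by
  rcases hz with hz | hz
  · left
    have h1 := g.lattice_inv q (z - q) hz
    rw [add_sub_cancel, inv_fixed hq] at h1
    exact h1
  · right; exact Att_inv hz

lemma Lam_hyp (h : Near ep g) {q z : V} (hqB : q ∈ Bx) (hz : z ∈ Lam g q) (v : V) :
    HypStep v (fderiv ℝ g.toFun z v) := by
  rcases hz with hz | hz
  · have h1 := fderiv_lattice g hz q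
    rw [add_sub_cancel] at h1
    rw [h1]
    obtain ⟨h2, h3⟩ := Bx_small hqB
    exact box_hyp h h2 h3 v
  · exact GG_hyp h (RR_sub_GG (hz 0)) v

lemma Lam_iter (h : Near ep g) {q z : V} (hq : g.toFun q = q) (hz : z ∈ Lam g q) (n : ℕ) :
    g.toFun^[n] z ∈ Lam g q := by
  induction n with
  | zero => exact hz
  | succ n ih => rw [Function.iterate_succ_apply']; exact Lam_map h hq ih

lemma Lam_iter_inv {q z : V} (hq : g.toFun q = q) (hz : z ∈ Lam g q) (n : ℕ) :
    g.inv^[n] z ∈ Lam g q := by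
  induction n with
  | zero => exact hz
  | succ n ih => rw [Function.iterate_succ_apply']; exact Lam_inv hq ih

lemma Lam_hyperbolic (h : Near ep g) (hr : 1 ≤ r) {q : V} (hqB : q ∈ Bx) (hq : g.toFun q = q) :
    IsHyperbolicSet g (Lam g q) := by
  refine ⟨Lam_closed q, ?_, ?_, EsM g, EuM g, 1, 3 / 5, one_pos, by norm_num, by norm_num, ?_⟩
  · rintro z (hz | hz) γ hγ
    · left
      change z + γ - q ∈ Lat b0
      have : z + γ - q = (z - q) + γ := by abel
      rw [this]
      exact add_mem hz hγ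
    · right
      intro n
      have h1 := iter_inv_lattice g n z hγ
      have h2 := RR_add (hz n) h1
      rwa [add_sub_cancel] at h2
  · ext z
    constructor
    · rintro ⟨w, hw, rfl⟩
      exact Lam_map h hq hw
    · intro hz
      exact ⟨g.inv z, Lam_inv hq hz, g.right_inv z⟩
  · intro z hz
    have hF : HypF g z := fun n v => Lam_hyp h hqB (Lam_iter h hq hz n) v
    have hB : HypB g z := fun n v => Lam_hyp h hqB (Lam_iter_inv hq hz (n + 1)) v
    obtain ⟨h1, h2, h3⟩ := hyp_splitting hr hF hB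
    exact ⟨h1, map_EsM g hr z, map_EuM g hr z, h2, h3⟩

lemma line_of_ne_top {E : Submodule ℝ V} {v : V} (hv : v ∈ E) (hE : E ≠ ⊤) {x : V}
    (hx : x ∈ E) : v.1 * x.2 - v.2 * x.1 = 0 := by
  by_contra hne
  apply hE
  rw [eq_top_iff]
  intro y _
  obtain ⟨s, t, rfl⟩ := indep_span hne y
  exact E.add_mem (E.smul_mem _ hv) (E.smul_mem _ hx)

lemma span_ne_top {E F : Submodule ℝ V} {v : V} (hv0 : v ≠ 0) (hvE : v ∈ E) (hvF : v ∈ F)
    (hE : E ≠ ⊤) (hF : F ≠ ⊤) : Submodule.span ℝ ((E : Set V) ∪ (F : Set V)) ≠ ⊤ := by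
  intro htop
  let L : V →ₗ[ℝ] ℝ := v.1 • LinearMap.snd ℝ ℝ ℝ - v.2 • LinearMap.fst ℝ ℝ ℝ
  have hL : ∀ x : V, L x = v.1 * x.2 - v.2 * x.1 := fun x => rfl
  have hle : Submodule.span ℝ ((E : Set V) ∪ (F : Set V)) ≤ LinearMap.ker L := by
    rw [Submodule.span_le]
    rintro x (hx | hx)
    · exact (hL x).trans (line_of_ne_top hvE hE hx)
    · exact (hL x).trans (line_of_ne_top hvF hF hx)
  rw [htop] at hle
  have h1 : L (-v.2, v.1) = 0 := hle (Submodule.mem_top)
  rw [hL] at h1
  simp only at h1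
  have h2 : v.1 ^ 2 + v.2 ^ 2 = 0 := by linarith
  have h3 : v.1 = 0 := by nlinarith [sq_nonneg v.1, sq_nonneg v.2]
  have h4 : v.2 = 0 := by nlinarith [sq_nonneg v.1, sq_nonneg v.2]
  exact hv0 (Prod.ext h3 h4)

lemma Dinv_shift (hr : 1 ≤ r) (n : ℕ) (w τ : V) :
    Dinv g (n + 1) (g.toFun w) (fderiv ℝ g.toFun w τ) = Dinv g n w τ := by
  have h1 : Dinv g (n + 1) (g.toFun w) =
      (Dinv g n (g.inv (g.toFun w))).comp (fderiv ℝ g.inv (g.toFun w)) :=
    Dn_succ' g.symm hr n (g.toFun w)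
  rw [h1, g.left_inv]
  simp only [ContinuousLinearMap.comp_apply]
  congr 1
  have h := fderiv_inv_comp g hr w
  exact congrArg (fun L : V →L[ℝ] V => L τ) h

lemma TU_eq (z : V) : TUnstable g z = (EuM g z : Set V) := by
  ext v; exact Iff.rfl

lemma TS_eq (z : V) : TStable g z = (EsM g z : Set V) := by
  ext v; exact Iff.rfl

/-- Every map close to the model has a hyperbolic set with a homoclinic tangency. -/
theorem near_tangency (h : Near ep g) (hr : 1 ≤ r) :
    ∃ Λ, IsHyperbolicSet g Λ ∧ HasTangency g Λ := by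
  obtain ⟨⟨w, τ, p⟩, hx⟩ := exists_limit h hr
  have W0 := (hx 0).1
  have W1 : ∀ j, g.inv^[j + 1] w ∈ Bx := fun j => (hx (j + 1)).2.1 j (by omega)
  have W2 : ‖τ‖ = 1 := (hx 0).2.2.1
  have W3 : ∀ j, CU (Dinv g j w τ) := fun j => (hx j).2.2.2.1 j le_rfl
  have W4 : ∀ j, CS (Dn g (j + 1) w τ) := fun j => (hx j).2.2.2.2.1 j le_rfl
  have P0 := (hx 0).2.2.2.2.2.1
  have P1 : ∀ j, g.inv^[j + 1] p ∈ Ps := fun j => (hx (j + 1)).2.2.2.2.2.2.1 j (by omega)
  have P2 : ∀ j, ‖g.toFun^[j] p - g.toFun^[j + 1] w‖ ≤ (3 / 5) ^ j * ‖p - g.toFun w‖ :=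
    fun j => (hx j).2.2.2.2.2.2.2 j le_rfl
  simp only at W0 P0
  obtain ⟨q, hqB, hq, hlim⟩ := exists_fixed h hr W1
  have hs := sg_le
  have h0 := sg_pos
  obtain ⟨z1, z2, z3⟩ := fold_region h W0.1 W0.2.1 W0.2.2
  have hzR : g.toFun w ∈ RR := strip_RR (by linarith) (by linarith) (by linarith)
  have hpA : p ∈ Att g := by
    intro n
    cases n with
    | zero => exact strip_RR P0.1 (P0.2.1.trans (by norm_num)) P0.2.2
    | succ n => exact Ps_RR (P1 n)
  refine ⟨Lam g q, Lam_hyperbolic h hr hqB hq, q, Or.inl (by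
    change q - q ∈ Lat b0
    rw [sub_self]; exact zero_mem _), p, Or.inr hpA, g.toFun w, ?_, ?_, ?_⟩
  · have hqi : ∀ n, g.inv^[n] q = q := fun n => by
      induction n with
      | zero => rfl
      | succ n ih => rw [Function.iterate_succ_apply', ih, inv_fixed hq]
    have h1 : Tendsto (fun n => ‖g.inv^[n] (g.toFun w) - q‖) atTop (𝓝 0) := by
      refine (tendsto_add_atTop_iff_nat 1).1 ?_
      have h2 : Tendsto (fun j => ‖g.inv^[j] w - q‖) atTop (𝓝 0) :=
        tendsto_iff_norm_sub_tendsto_zero.1 hlim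
      refine h2.congr fun n => ?_
      rw [Function.iterate_succ_apply, g.left_inv]
    refine squeeze_zero (fun n => dT_nonneg _ _) (fun n => ?_) h1
    rw [hqi]
    have := dT_le (b := b0) (z := g.inv^[n] (g.toFun w)) (w := q) (zero_mem _)
    rwa [sub_zero] at this
  · have h1 : Tendsto (fun n : ℕ => (3 / 5 : ℝ) ^ n * ‖p - g.toFun w‖) atTop (𝓝 0) := by
      have : Tendsto (fun n : ℕ => ((3 : ℝ) / 5) ^ n) atTop (𝓝 0) :=
        tendsto_pow_atTop_nhds_zero_of_lt_one (by norm_num) (by norm_num)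
      simpa using this.mul_const ‖p - g.toFun w‖
    refine squeeze_zero (fun n => dT_nonneg _ _) (fun n => ?_) h1
    have h2 := dT_le (b := b0) (z := g.toFun^[n] (g.toFun w)) (w := g.toFun^[n] p) (zero_mem _)
    rw [sub_zero, norm_sub_rev] at h2
    refine h2.trans ?_
    have h3 := P2 n
    rwa [Function.iterate_succ_apply] at h3
  · have hBw : HypB g w := fun n v => by
      obtain ⟨k1, k2⟩ := Bx_small (W1 n)
      exact box_hyp h k1 k2 v
    have hFz : HypF g (g.toFun w) := RR_HypF h hzR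
    have hτ0 : τ ≠ 0 := by rintro rfl; simp at W2
    have hv0 : fderiv ℝ g.toFun w τ ≠ 0 := by
      intro hv
      have := Dinv_shift (g := g) hr 0 w τ
      rw [hv, map_zero, Dinv_zero] at this
      exact hτ0 this.symm
    have hS : fderiv ℝ g.toFun w τ ∈ EsM g (g.toFun w) := by
      have e : ∀ n, Dn g n (g.toFun w) (fderiv ℝ g.toFun w τ) = Dn g (n + 1) w τ := by
        intro n; rw [Dn_succ' g hr]; rfl
      refine tendsto_of_decay (C := ‖Dn g 0 (g.toFun w) (fderiv ℝ g.toFun w τ)‖) fun n => ?_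
      exact forward_decay (v := fun n => Dn g n (g.toFun w) (fderiv ℝ g.toFun w τ))
        (fun n => hFz.step hr _ n) (fun n => by rw [e]; exact W4 n) n
    have hU : fderiv ℝ g.toFun w τ ∈ EuM g (g.toFun w) := by
      rw [mem_EuM]
      refine (tendsto_add_atTop_iff_nat 1).1 ?_
      have h1 : Tendsto (fun n => ‖Dinv g n w τ‖) atTop (𝓝 0) :=
        tendsto_of_decay (C := ‖Dinv g 0 w τ‖) fun n =>
          backward_decay (fun n => hBw.step hr τ n) W3 n
      refine h1.congr fun n => ?_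
      rw [Dinv_shift hr]
    have hE : EsM g (g.toFun w) ≠ ⊤ := by
      intro htop
      have h1 : ((1 : ℝ), (0 : ℝ)) ∈ EsM g (g.toFun w) := by rw [htop]; exact Submodule.mem_top
      have h2 := forward_CS (fun n => hFz.step hr (1, 0) n) h1 0
      rw [Dn_zero] at h2
      unfold CS at h2
      norm_num at h2
    have hF : EuM g (g.toFun w) ≠ ⊤ := by
      intro htop
      have h1 : fderiv ℝ g.toFun w ((0 : ℝ), (1 : ℝ)) ∈ EuM g (g.toFun w) := by
        rw [htop]; exact Submodule.mem_top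
      rw [mem_EuM] at h1
      have h2 := (tendsto_add_atTop_iff_nat 1).2 h1
      have h3 : Tendsto (fun n => ‖Dinv g n w ((0 : ℝ), (1 : ℝ))‖) atTop (𝓝 0) :=
        h2.congr fun n => by rw [Dinv_shift hr]
      have h4 := backward_CU (fun n => hBw.step hr (0, 1) n) h3 0
      rw [Dinv_zero] at h4
      unfold CU at h4
      norm_num at h4
    rw [TU_eq, TS_eq]
    exact span_ne_top hv0 hU hS hF hE

end Pool.Agent.W5h40.NH
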